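import Pool.Agent.P.MP_1206ce_ag.ST.Jet

/-! Continuity of the coordinates and of the parametrisation. -/

open scoped Topology Matrix
open Filter Set LaurentPolynomial

noncomputable section

namespace Pool.Agent.HK

open HS

namespace Qv

variable (Q : Qv) {m d : ℕ} {l : Q.Lam}

theorem CoCont_sum (Γ : LM Q.Ix) (v : ↥(Q.NL l) → ℂ) :
    ∑ q, (C (v q) : LP) • (adj Γ * (Q.nOf l (Pi.single q 1) * tL (Q.lv l))) =
      adj Γ * (Q.nOf l v * tL (Q.lv l)) := by
  rw [Q.st_nOf_eq_sum v, Finset.sum_mul, Finset.mul_sum]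
  refine Finset.sum_congr rfl fun q _ => ?_
  rw [smul_mul_assoc, mul_smul_comm]

theorem CoCont_toL (m : ℕ) (S : Set Q.Tr) : CFam S fun p : Q.Tr => toL m p.1 :=
  cFam_toL m continuous_fst.continuousOn

/-- `lin_cont_geM` with `B = adj Γ * t^l`, `E q = adj Γ * (nOf (Pi.single q 1) * t^l)`, `Cell.inj`. -/
theorem st_continuousOn_coN (hl : l ∈ Q.Box m) :
    ContinuousOn (fun p : Q.Tr => Q.coNil l (Q.nn m l p.1)) (Q.RCell m d l) := by
  refine lin_cont_geM
    (fun q (p : Q.Tr) => adj (toL m p.1) * (Q.nOf l (Pi.single q 1) * tL (Q.lv l)))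
    (fun p : Q.Tr => adj (toL m p.1) * tL (Q.lv l)) _
    (fun q => (Q.CoCont_toL m _).adjoint.mul (CFam.const _ _))
    ((Q.CoCont_toL m _).adjoint.mul (CFam.const _ _)) ?_ ?_
  · intro p hp v hv
    rw [Q.CoCont_sum] at hv
    have h0 : Q.nOf l v = 0 := Cell.inj (Q.st_loop hp.1.1) (Q.st_inBox.1 hl) (Q.st_cell_nn hp)
      (Q.st_nil_nOf v) hv
    rw [← Q.st_coN_nOf v, h0, ← Q.st_nOf_zero, Q.st_coN_nOf]
  · intro p hp
    have h := Q.st_cell_nn hp
    rw [Q.CoCont_sum, Q.st_nOf_coN h.nil, ← mul_add]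
    have h1 := h.ge₁
    rw [nf, add_mul, one_mul] at h1
    exact h1
theorem st_cFam_nn (hl : l ∈ Q.Box m) : CFam (Q.RCell m d l) fun p => Q.nn m l p.1 := by
  refine ((Q.st_cFam_nOf l).comp (Q.st_continuousOn_coN hl) (mapsTo_univ _ _)).congr ?_
  intro p hp
  exact (Q.st_nOf_coN (Q.st_cell_nn hp).nil).symm
/-- `continuous_of_graph` with the compact set `Om m`. -/
theorem st_continuous_iwa (hl : l ∈ Q.Box m) : Continuous (Q.iwa m l) := by
  have hn : CFam univ fun x : (↥(Q.NL l) → ℂ) × (ℤ → Q.Mat) => Q.nOf l x.1 :=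
    (Q.st_cFam_nOf l).comp continuous_fst.continuousOn (mapsTo_univ _ _)
  have ht : CFam univ fun x : (↥(Q.NL l) → ℂ) × (ℤ → Q.Mat) => toL m x.2 :=
    cFam_toL m continuous_snd.continuousOn
  have h1 := (ht.adjoint.mul (hn.nform (Q.lv l))).isClosed_geM 0
  have h2 := ((hn.nformi m (Q.lv l)).mul ht).isClosed_geM 0
  refine continuous_of_graph (Q.iwa m l) (Q.st_isCompact_Om m) (h1.inter h2) ?_ ?_
  · intro c
    obtain ⟨ha, hb⟩ := Q.st_iwa_spec hl c
    exact ⟨ha, hb.ge₁, hb.ge₂⟩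
  · intro c γ hγ h
    exact (Q.st_iwa_eq hl hγ ⟨Q.st_nil_nOf c, h.1, h.2⟩).symm
theorem st_continuousOn_coC (hl : l ∈ Q.Box m) : ContinuousOn (Q.coC m d l) (Q.RCell m d l) := by
  refine continuousOn_pi.2 fun q => ?_
  rcases q with q | q
  · exact continuousOn_pi.1 (Q.st_continuousOn_coN hl) q
  · have hn := Q.st_cFam_nn (d := d) hl
    have ht := Q.CoCont_toL m (Q.RCell m d l)
    have h := (((hn.nformi m (Q.lv l)).mul ht).mul
      ((Q.st_cFam_jL d q.1.1.1).mono (subset_univ _))).mul (ht.adjoint.mul (hn.nform (Q.lv l)))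
    exact h.cont q.1.1.2.1 q.1.1.2.2 (q.1.2 : ℤ)
theorem st_continuous_paC (hl : l ∈ Q.Box m) : Continuous (Q.paC m d l) := by
  have hi : Continuous fun c : ↥(Q.NL l) ⊕ ↥(Q.PU l d) → ℂ => c ∘ Sum.inl :=
    continuous_pi fun q => continuous_apply _
  have hr : Continuous fun c : ↥(Q.NL l) ⊕ ↥(Q.PU l d) → ℂ => c ∘ Sum.inr :=
    continuous_pi fun q => continuous_apply _
  have hw : Continuous fun c : ↥(Q.NL l) ⊕ ↥(Q.PU l d) → ℂ => Q.iwa m l (c ∘ Sum.inl) :=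
    (Q.st_continuous_iwa hl).comp hi
  refine hw.prodMk (continuous_pi fun i => continuous_pi fun h => ?_)
  by_cases hid : i < d
  · have hn : CFam univ fun c : ↥(Q.NL l) ⊕ ↥(Q.PU l d) → ℂ => Q.nOf l (c ∘ Sum.inl) :=
      (Q.st_cFam_nOf l).comp hi.continuousOn (mapsTo_univ _ _)
    have hs : CFam univ fun c : ↥(Q.NL l) ⊕ ↥(Q.PU l d) → ℂ => Q.sOf l d (c ∘ Sum.inr) h :=
      (Q.st_cFam_sOf l d h).comp hr.continuousOn (mapsTo_univ _ _)
    have ht : CFam univ fun c : ↥(Q.NL l) ⊕ ↥(Q.PU l d) → ℂ =>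
        toL m (Q.iwa m l (c ∘ Sum.inl)) := cFam_toL m hw.continuousOn
    have h0 := (((ht.adjoint.mul (hn.nform (Q.lv l))).mul hs).mul
      ((hn.nformi m (Q.lv l)).mul ht)).coef (i : ℤ)
    simp only [jcut, if_pos hid]
    exact continuousOn_univ.1 h0
  · simp only [jcut, if_neg hid]
    exact continuous_const

end Qv

end Pool.Agent.HK
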