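import Pool.Agent.P.MP_1206ce_ag.ST.LM

/-! Majorisation and the determinant of a block. -/

open scoped Topology Matrix
open Filter Set LaurentPolynomial

noncomputable section

namespace Pool.Agent.HK

namespace HS

variable {I Λ : Type} [Fintype I] [DecidableEq I] [DecidableEq Λ]

theorem Comb_range {c x : ℤ} (hx : c ≤ x) (n : ℕ) :
    2 * ∑ k ∈ Finset.range n, max (c + k) x = if c + n ≤ x then 2 * n * x else
      2 * x * (x - c + 1) + (c + n - 1) * (c + n) - x * (x + 1) := by
  induction n with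
  | zero => rw [if_pos (by simpa using hx)]; simp
  | succ n ih =>
    rw [Finset.sum_range_succ, mul_add, ih]
    push_cast
    rcases lt_trichotomy (c + n) x with h | h | h
    · rw [if_pos h.le, if_pos (by omega), max_eq_right h.le]
      ring
    · rw [if_pos h.le, if_neg (by omega), max_eq_right h.le, ← h]
      ring
    · rw [if_neg (by omega), if_neg (by omega), max_eq_left h.le]
      ring

theorem Comb_box {m : ℕ} {x : ℤ} (h₁ : -(m : ℤ) ≤ x) (h₂ : x ≤ m) :
    2 * ∑ k ∈ Finset.range (2 * m + 1), max (-(m : ℤ) + k) x =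
      x ^ 2 + (2 * m + 1) * x + m * (m + 1) := by
  rw [Comb_range h₁, if_neg (by push_cast; omega)]
  push_cast
  ring

omit [DecidableEq I] in
theorem Comb_total (lab : I → Λ) {m : ℕ} {l : I → ℤ} (hl : InBox m l) :
    2 * ∑ i ∈ Finset.univ.image lab, ∑ k ∈ Finset.range (2 * m + 1),
      ∑ a ∈ Finset.univ.filter (fun a => lab a = i), max (-(m : ℤ) + k) (l a) =
    ∑ a, l a ^ 2 + (2 * m + 1) * ∑ i ∈ Finset.univ.image lab,
      ∑ a ∈ Finset.univ.filter (fun a => lab a = i), l a + ∑ _a : I, (m : ℤ) * (m + 1) := by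
  have hm : ∀ a ∈ Finset.univ, lab a ∈ Finset.univ.image lab := fun a ha =>
    Finset.mem_image_of_mem lab ha
  rw [Finset.sum_comm]
  simp only [Finset.sum_fiberwise_of_maps_to hm]
  rw [Finset.sum_comm, Finset.mul_sum, Finset.mul_sum, ← Finset.sum_add_distrib,
    ← Finset.sum_add_distrib]
  exact Finset.sum_congr rfl fun a _ => Comb_box (hl a).1 (hl a).2

omit [DecidableEq I] in
theorem Comb_card (lab : I → Λ) (l : I → ℤ) (i : Λ) (y : ℤ) :
    (Fintype.card {a // (lab a, l a) = (i, y)} : ℤ) =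
      ∑ a ∈ Finset.univ.filter (fun a => lab a = i), max (y + 1) (l a) -
        2 * ∑ a ∈ Finset.univ.filter (fun a => lab a = i), max y (l a) +
        ∑ a ∈ Finset.univ.filter (fun a => lab a = i), max (y - 1) (l a) := by
  rw [Finset.mul_sum, ← Finset.sum_sub_distrib, ← Finset.sum_add_distrib, Fintype.card_subtype,
    Finset.card_filter, Finset.sum_filter]
  push_cast
  refine Finset.sum_congr rfl fun a _ => ?_
  simp only [Prod.mk.injEq]
  by_cases h : lab a = i
  · simp only [h, true_and, if_true]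
    split_ifs <;> omega
  · simp only [h, false_and, if_false]

/-- For `-m ≤ x ≤ m` twice the sum of `max j x` over `-m ≤ j ≤ m` is
`x ^ 2 + (2 m + 1) x + m (m + 1)`. In the case of equality all the inequalities are equalities, and
`max (j + 1) x - max j x` is the indicator of `x ≤ j`, so the fibres of `a ↦ (lab a, l a)` and
`a ↦ (lab a, l' a)` have the same size (`Equiv.ofFiberEquiv`). -/
theorem major (lab : I → Λ) {m : ℕ} {l l' : I → ℤ} (hl : InBox m l) (hl' : InBox m l')
    (hle : ∀ (i : Λ) (j : ℤ), -(m : ℤ) ≤ j → j ≤ m →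
      ∑ a ∈ Finset.univ.filter (fun a => lab a = i), max j (l' a) ≤
        ∑ a ∈ Finset.univ.filter (fun a => lab a = i), max j (l a))
    (hch : ∀ i : Λ, ∑ a ∈ Finset.univ.filter (fun a => lab a = i), l' a =
      ∑ a ∈ Finset.univ.filter (fun a => lab a = i), l a) :
    ∑ a, l' a ^ 2 < ∑ a, l a ^ 2 ∨
      ∃ σ : Equiv.Perm I, (∀ a, lab (σ a) = lab a) ∧ ∀ a, l' (σ a) = l a := by
  refine or_iff_not_imp_left.mpr fun hn => ?_
  have h0 : ∑ i ∈ Finset.univ.image lab, ∑ k ∈ Finset.range (2 * m + 1),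
      ∑ a ∈ Finset.univ.filter (fun a => lab a = i), max (-(m : ℤ) + k) (l a) ≤
      ∑ i ∈ Finset.univ.image lab, ∑ k ∈ Finset.range (2 * m + 1),
      ∑ a ∈ Finset.univ.filter (fun a => lab a = i), max (-(m : ℤ) + k) (l' a) := by
    have h1 := Comb_total lab hl
    have h2 := Comb_total lab hl'
    simp only [hch] at h2
    linarith [not_lt.mp hn]
  have hk : ∀ i, ∀ k ∈ Finset.range (2 * m + 1),
      ∑ a ∈ Finset.univ.filter (fun a => lab a = i), max (-(m : ℤ) + k) (l' a) ≤
        ∑ a ∈ Finset.univ.filter (fun a => lab a = i), max (-(m : ℤ) + k) (l a) := fun i k hk =>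
    hle i _ (by omega) (by have := Finset.mem_range.mp hk; omega)
  have h1 := (Finset.sum_eq_sum_iff_of_le fun i _ => Finset.sum_le_sum (hk i)).mp
    (le_antisymm (Finset.sum_le_sum fun i _ => Finset.sum_le_sum (hk i)) h0)
  have heq : ∀ (i : Λ) (j : ℤ), ∑ a ∈ Finset.univ.filter (fun a => lab a = i), max j (l' a) =
      ∑ a ∈ Finset.univ.filter (fun a => lab a = i), max j (l a) := by
    intro i j
    rcases lt_or_ge j (-(m : ℤ)) with h | h
    · rw [Finset.sum_congr rfl fun a _ => max_eq_right (h.le.trans (hl' a).1),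
        Finset.sum_congr rfl fun a _ => max_eq_right (h.le.trans (hl a).1), hch]
    rcases lt_or_ge (m : ℤ) j with h' | h'
    · rw [Finset.sum_congr rfl fun a _ => max_eq_left ((hl' a).2.trans h'.le),
        Finset.sum_congr rfl fun a _ => max_eq_left ((hl a).2.trans h'.le)]
    by_cases hi : i ∈ Finset.univ.image lab
    · have h2 := (Finset.sum_eq_sum_iff_of_le (hk i)).mp (h1 i hi) (j + m).toNat
        (Finset.mem_range.mpr (by omega))
      rwa [show -(m : ℤ) + ((j + m).toNat : ℕ) = j by omega] at h2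
    · rw [Finset.filter_eq_empty_iff.mpr fun a ha e => hi (Finset.mem_image.mpr ⟨a, ha, e⟩),
        Finset.sum_empty, Finset.sum_empty]
  have hc : ∀ c : Λ × ℤ, Fintype.card {a // (lab a, l a) = c} =
      Fintype.card {a // (lab a, l' a) = c} := by
    rintro ⟨i, y⟩
    have h2 := Comb_card lab l i y
    rw [← heq, ← heq, ← heq, ← Comb_card] at h2
    exact_mod_cast h2
  have h3 := Equiv.ofFiberEquiv_map (f := fun a => (lab a, l a)) (g := fun a => (lab a, l' a))
    fun c => Fintype.equivOfCardEq (hc c)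
  exact ⟨_, fun a => congrArg Prod.fst (h3 a), fun a => congrArg Prod.snd (h3 a)⟩


theorem blk_mul {R : Type} [CommRing R] {lab : I → Λ} (i : Λ) {M N : Matrix I I R}
    (hM : BD lab M) (hN : BD lab N) : blk lab i (M * N) = blk lab i M * blk lab i N := by
  ext a b
  rw [Matrix.mul_apply]
  by_cases ha : lab a = i
  · by_cases hb : lab b = i
    · simp only [blk, Matrix.of_apply, ha, hb, true_and, and_true, if_true, Matrix.mul_apply]
      refine Finset.sum_congr rfl fun c _ => ?_
      by_cases hc : lab c = i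
      · rw [if_pos hc, if_pos hc]
      · rw [hM a c fun e => hc (e ▸ ha), if_neg hc, if_neg fun e : a = c => hc (e ▸ ha), zero_mul,
          zero_mul]
    · simp [blk, hb]
  · have e : ∀ c, blk lab i M a c = if a = c then 1 else 0 := fun c => by simp [blk, ha]
    simp only [e, ite_mul, one_mul, zero_mul, Finset.sum_ite_eq, Finset.mem_univ, if_true]
    simp [blk, ha]

theorem blk_one {R : Type} [CommRing R] (lab : I → Λ) (i : Λ) :
    blk lab i (1 : Matrix I I R) = 1 := by
  ext a b
  simp [blk, Matrix.one_apply]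

theorem blk_map_ev (lab : I → Λ) (i : Λ) (M : LM I) (z : ℂˣ) :
    (blk lab i M).map (ev z) = blk lab i (M.map (ev z)) := by
  ext a b
  simp only [blk, Matrix.map_apply, Matrix.of_apply]
  split_ifs
  · rfl
  · exact map_one _
  · exact map_zero _


theorem Comb_ge {lab : I → Λ} (i : Λ) {M : LM I} (h : GeM 0 M) : GeM 0 (blk lab i M) := by
  intro a b
  rw [blk, Matrix.of_apply]
  split_ifs
  · exact h a b
  · exact Ge.one
  · exact Ge.zero 0

theorem Comb_const {lab : I → Λ} (i : Λ) {M N : LM I} (hM : GeM 0 M) (hN : GeM 0 N)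
    (bM : BD lab M) (bN : BD lab N) (h : M * N = 1) : ∃ r : ℂ, (blk lab i M).det = C r :=
  exists_C_of_mul_eq_one (Comb_ge i hM).det (Comb_ge i hN).det
    (by rw [← Matrix.det_mul, ← blk_mul i bM bN, h, blk_one, Matrix.det_one])

theorem Comb_tL (lab : I → Λ) (i : Λ) (l : I → ℤ) :
    (blk lab i (tL l)).det = T (∑ a ∈ Finset.univ.filter (fun a => lab a = i), l a) := by
  have e : blk lab i (tL l) = Matrix.diagonal fun a => if lab a = i then T (l a) else 1 := by
    ext1 a b
    by_cases h : a = b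
    · subst h
      simp [blk, tL]
    · simp [blk, tL, h]
  rw [e, Matrix.det_diagonal, ← Finset.prod_filter]
  induction Finset.univ.filter (fun a => lab a = i) using Finset.induction_on with
  | empty => simp
  | insert a s ha ih => rw [Finset.prod_insert ha, Finset.sum_insert ha, ih, T_add]

/-- The determinants of the blocks of `h` and `g` are constants (`exists_C_of_mul_eq_one`). -/
theorem Fact.det_blk {lab : I → Λ} {l : I → ℤ} {Γ : LM I} (h : Fact lab l Γ)
    (h₁ : Γ.map (ev 1) = 1) (i : Λ) (z : ℂˣ) :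
    (blk lab i (Γ.map (ev z))).det =
      (z : ℂ) ^ (∑ a ∈ Finset.univ.filter (fun a => lab a = i), l a) := by
  obtain ⟨p, p', g, g', hp, hp', hg, hg', bp, bp', bg, bg', e1, e2, e⟩ := h
  obtain ⟨r, hr⟩ := Comb_const i hp hp' bp bp' e1
  obtain ⟨s, hs⟩ := Comb_const i hg hg' bg bg' e2
  have key : ∀ w : ℂˣ, (blk lab i (Γ.map (ev w))).det =
      r * s * (w : ℂ) ^ (∑ a ∈ Finset.univ.filter (fun a => lab a = i), l a) := fun w => by
    rw [← blk_map_ev, ← RingHom.mapMatrix_apply, ← RingHom.map_det, e,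
      blk_mul i (bp.mul (bd_tL lab l)) bg, blk_mul i bp (bd_tL lab l), Matrix.det_mul,
      Matrix.det_mul, hr, hs, Comb_tL, map_mul, map_mul, ev_C, ev_C, ev_T]
    ring
  have h1 := key 1
  rw [h₁, blk_one, Matrix.det_one, Units.val_one, one_zpow, mul_one] at h1
  rw [key, ← h1, one_mul]


theorem eq_of_zpow_eq {a b : ℤ} (h : ∀ z : ℂ, ‖z‖ = 1 → z ^ a = z ^ b) : a = b := by
  have h1 : (T a - T b : LP) = 0 := eq_zero_of_ev fun z hz => by
    rw [map_sub, ev_T, ev_T, h z hz, sub_self]
  have h2 := congrArg (fun f : LP => f.coeff a) h1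
  simp only [coeff_sub', coeff_T', coeff_zero', if_true] at h2
  by_contra hne
  rw [if_neg hne, sub_zero] at h2
  exact one_ne_zero h2


end HS

end Pool.Agent.HK
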