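import Pool.Agent.P.MP_1206ce_ag.ST.LM

/-! Unitary matrices adapted to a graded flag; permutations and triangular unitary matrices. -/

open scoped Topology Matrix
open Filter Set LaurentPolynomial

noncomputable section

namespace Pool.Agent.HK

namespace HS

variable {I Λ : Type} [Fintype I] [DecidableEq I]

/-- A nonzero term of the Leibniz formula. -/
theorem exists_perm_of_det_ne_zero {U : Matrix I I ℂ} (h : U.det ≠ 0) :
    ∃ σ : Equiv.Perm I, ∀ b, U (σ b) b ≠ 0 := by
  by_contra hc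
  apply h
  rw [Matrix.det_apply]
  refine Finset.sum_eq_zero fun σ _ => ?_
  have h1 : ∃ b, U (σ b) b = 0 := by
    by_contra h2
    exact hc ⟨σ, fun b hb => h2 ⟨b, hb⟩⟩
  obtain ⟨b, hb⟩ := h1
  have h3 : ∏ i, U (σ i) i = 0 := Finset.prod_eq_zero (Finset.mem_univ b) hb
  rw [h3, smul_zero]

theorem Flag_row {U : Matrix I I ℂ} (hU : U ∈ Matrix.unitaryGroup I ℂ) (a : I) :
    ∑ b, Complex.normSq (U a b) = 1 := by
  have h := congrFun (congrFun (Matrix.mem_unitaryGroup_iff.1 hU) a) a
  rw [Matrix.mul_apply, Matrix.one_apply_eq] at h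
  simp only [Matrix.star_apply, RCLike.star_def, Complex.mul_conj] at h
  exact_mod_cast h

theorem Flag_col {U : Matrix I I ℂ} (hU : U ∈ Matrix.unitaryGroup I ℂ) (b : I) :
    ∑ a, Complex.normSq (U a b) = 1 := by
  have h := congrFun (congrFun (Matrix.mem_unitaryGroup_iff'.1 hU) b) b
  rw [Matrix.mul_apply, Matrix.one_apply_eq] at h
  simp only [Matrix.star_apply, RCLike.star_def, ← Complex.normSq_eq_conj_mul_self] at h
  exact_mod_cast h

/-- A block triangular unitary matrix is block diagonal: the sum of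
`‖U a b‖ ^ 2 * (l a - l b)` is zero and its terms have a sign. -/
theorem tri_unitary {U : Matrix I I ℂ} (hU : U ∈ Matrix.unitaryGroup I ℂ) {l : I → ℤ}
    (h : ∀ a b, l b < l a → U a b = 0) : ∀ a b, U a b ≠ 0 → l a = l b := by
  have h0 : ∑ p : I × I, Complex.normSq (U p.1 p.2) * ((l p.2 : ℝ) - l p.1) = 0 := by
    simp only [mul_sub, Finset.sum_sub_distrib]
    rw [Fintype.sum_prod_type_right, Fintype.sum_prod_type]
    simp only [← Finset.sum_mul, Flag_row hU, Flag_col hU, sub_self]
  have h1 : ∀ p ∈ (Finset.univ : Finset (I × I)),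
      0 ≤ Complex.normSq (U p.1 p.2) * ((l p.2 : ℝ) - l p.1) := by
    intro p _
    by_cases hp : l p.2 < l p.1
    · simp [h _ _ hp]
    · refine mul_nonneg (Complex.normSq_nonneg _) (sub_nonneg.2 ?_)
      exact_mod_cast not_lt.1 hp
  intro a b hab
  have h2 := (Finset.sum_eq_zero_iff_of_nonneg h1).1 h0 (a, b) (Finset.mem_univ _)
  rcases mul_eq_zero.1 h2 with h3 | h3
  · exact absurd (Complex.normSq_eq_zero.1 h3) hab
  · have h4 : (l a : ℝ) = l b := (sub_eq_zero.1 h3).symm
    exact_mod_cast h4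

omit [DecidableEq I] in
/-- An orthonormal basis subordinate to an orthogonal spanning family. -/
theorem Flag_basis {E ι : Type} [NormedAddCommGroup E] [InnerProductSpace ℂ E]
    [FiniteDimensional ℂ E] [Fintype ι] (G : ι → Submodule ℂ E)
    (orth : ∀ i j, i ≠ j → ∀ x ∈ G i, ∀ y ∈ G j, inner ℂ y x = 0)
    (span : ∀ x, (∀ i, ∀ y ∈ G i, inner ℂ y x = 0) → x = 0)
    (hn : Module.finrank ℂ E = Fintype.card I) :
    ∃ e : I → E, Orthonormal ℂ e ∧ ∀ b, ∃ i, e b ∈ G i := by
  classical
  have hG : OrthogonalFamily ℂ (fun i => G i) fun i => (G i).subtypeₗᵢ :=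
    OrthogonalFamily.of_pairwise fun i j hij x hx y hy => orth i j hij x hx y hy
  have hI : DirectSum.IsInternal G := by
    rw [hG.isInternal_iff, eq_bot_iff]
    intro x hx
    exact span x fun i y hy => hx y (le_iSup G i hy)
  refine ⟨fun b => hI.subordinateOrthonormalBasis hn hG (Fintype.equivFin I b),
    (hI.subordinateOrthonormalBasis hn hG).orthonormal.comp _ (Fintype.equivFin I).injective,
    fun b => ⟨_, hI.subordinateOrthonormalBasis_subordinate hn _ hG⟩⟩

/-- The part of the flag with label `i`. -/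
def Flag_W (lab : I → Λ) (F : ℤ → Submodule ℂ (I → ℂ)) (i : Λ) (j : ℤ) :
    Submodule ℂ (EuclideanSpace ℂ I) where
  carrier := {x | x.ofLp ∈ F j ∧ ∀ a, lab a ≠ i → x a = 0}
  add_mem' := fun hx hy => ⟨(F j).add_mem hx.1 hy.1, fun a ha => by
    simp [hx.2 a ha, hy.2 a ha]⟩
  zero_mem' := ⟨(F j).zero_mem, fun _ _ => rfl⟩
  smul_mem' := fun c _ hx => ⟨(F j).smul_mem c hx.1, fun a ha => by simp [hx.2 a ha]⟩

omit [DecidableEq I] in
theorem Flag_inner (x y : EuclideanSpace ℂ I) :
    inner ℂ x y = ∑ a, star (x a) * y a := by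
  rw [PiLp.inner_apply]
  refine Finset.sum_congr rfl fun a _ => ?_
  simp [mul_comm]

theorem Flag_unit {e : I → EuclideanSpace ℂ I} (he : Orthonormal ℂ e) :
    (Matrix.of fun a b => e b a) ∈ Matrix.unitaryGroup I ℂ := by
  rw [Matrix.mem_unitaryGroup_iff']
  ext b c
  have h := orthonormal_iff_ite.1 he b c
  rw [Flag_inner] at h
  rw [Matrix.mul_apply, Matrix.one_apply, ← h]
  rfl

theorem Flag_exists (lab : I → Λ) (m : ℕ) (F : ℤ → Submodule ℂ (I → ℂ))
    (mono : Monotone F) (bot : F (-(m : ℤ) - 1) = ⊥) (top : F m = ⊤) :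
    ∃ e : I → EuclideanSpace ℂ I, Orthonormal ℂ e ∧ ∀ b, ∃ j : ℤ, -(m : ℤ) ≤ j ∧ j ≤ m ∧
      e b ∈ Flag_W lab F (lab b) j ∧ e b ∈ (Flag_W lab F (lab b) (j - 1))ᗮ := by
  classical
  have hmono : ∀ i j j', j ≤ j' → Flag_W lab F i j ≤ Flag_W lab F i j' :=
    fun i j j' h x hx => ⟨mono h hx.1, hx.2⟩
  obtain ⟨e, he, hG⟩ := Flag_basis (I := I)
    (ι := (Finset.univ.image lab) × (Finset.Icc (-(m : ℤ)) m))
    (fun p => Flag_W lab F p.1 p.2 ⊓ (Flag_W lab F p.1 (p.2 - 1))ᗮ) (by
      rintro ⟨i, j⟩ ⟨i', j'⟩ hne x hx y hy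
      by_cases hi : i = i'
      · subst hi
        have hj : (j : ℤ) ≠ j' := fun h => hne (by rw [Subtype.ext h])
        rcases lt_or_gt_of_ne hj with h | h
        · exact inner_eq_zero_symm.1 (hy.2 x (hmono _ _ _ (by simp only; omega) hx.1))
        · exact hx.2 y (hmono _ _ _ (by simp only; omega) hy.1)
      · rw [Flag_inner]
        refine Finset.sum_eq_zero fun a _ => ?_
        by_cases ha : lab a = i
        · rw [hy.1.2 a fun h => hi (Subtype.ext (ha.symm.trans h)), star_zero, zero_mul]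
        · rw [hx.1.2 a ha, mul_zero]) (by
      intro x hx
      have key : ∀ a, ∀ k : ℕ, k ≤ 2 * m + 1 →
          ∀ y ∈ Flag_W lab F (lab a) (-(m : ℤ) - 1 + k), inner ℂ y x = 0 := by
        intro a k
        induction k with
        | zero =>
          intro _ y hy
          have h1 : y.ofLp ∈ F (-(m : ℤ) - 1) := by simpa using hy.1
          rw [bot, Submodule.mem_bot] at h1
          have h2 : y = 0 := by
            ext c
            exact congrFun h1 c
          rw [h2, inner_zero_left]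
        | succ k ih =>
          intro hk y hy
          obtain ⟨y1, h1, y2, h2, h3⟩ :=
            Submodule.exists_add_mem_mem_orthogonal (K := Flag_W lab F (lab a) (-(m : ℤ) - 1 + k)) y
          have h4 : y2 ∈ Flag_W lab F (lab a) (-(m : ℤ) - 1 + (k + 1 : ℕ)) := by
            have h5 : y2 = y - y1 := by rw [h3]; abel
            rw [h5]
            exact Submodule.sub_mem _ hy (hmono _ _ _ (by push_cast; omega) h1)
          have h6 := hx (⟨lab a, Finset.mem_image_of_mem _ (Finset.mem_univ a)⟩,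
            ⟨-(m : ℤ) - 1 + (k + 1 : ℕ), Finset.mem_Icc.2 (by push_cast; omega)⟩) y2 ⟨h4, by
              have h7 : -(m : ℤ) - 1 + (k + 1 : ℕ) - 1 = -(m : ℤ) - 1 + k := by push_cast; ring
              simp only [h7]
              exact h2⟩
          rw [h3, inner_add_left, ih (by omega) y1 h1, h6, add_zero]
      ext a
      have h1 := key a (2 * m + 1) le_rfl (EuclideanSpace.single a 1) ⟨by
        have h2 : -(m : ℤ) - 1 + (2 * m + 1 : ℕ) = m := by push_cast; ring
        rw [h2, top]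
        trivial, fun c hc => by
          have h3 : c ≠ a := fun h => hc (by rw [h])
          simp [h3]⟩
      simpa [EuclideanSpace.inner_single_left] using h1) (by simp)
  have hU := Flag_unit he
  have hdet : (Matrix.of fun a b => e b a).det ≠ 0 := by
    have h1 := Matrix.det_of_mem_unitary hU
    intro h2
    rw [h2] at h1
    simpa using (Unitary.mem_iff.1 h1).1
  obtain ⟨σ, hσ⟩ := exists_perm_of_det_ne_zero hdet
  refine ⟨fun b => e (σ.symm b), he.comp _ σ.symm.injective, fun b => ?_⟩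
  obtain ⟨⟨i, j⟩, h1, h2⟩ := hG (σ.symm b)
  have h3 : lab b = i := by
    by_contra h4
    apply hσ (σ.symm b)
    rw [Equiv.apply_symm_apply]
    exact h1.2 b h4
  rw [h3]
  exact ⟨j, (Finset.mem_Icc.1 j.2).1, (Finset.mem_Icc.1 j.2).2, h1, h2⟩

/-- Hint: in `EuclideanSpace ℂ I` put `V i` = vectors supported on the label `i`,
`G (i, j) = (F j ⊓ V i) ⊓ (F (j - 1) ⊓ V i)ᗮ` for `i` in the range of `lab` and `-m ≤ j ≤ m`. This is
an orthogonal family that spans (induction on `j`); take
`DirectSum.IsInternal.subordinateOrthonormalBasis`, reindex by `I`, align the labels with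
`exists_perm_of_det_ne_zero` and rescale the column `a₀`. -/
theorem flag_unitary [DecidableEq Λ] (lab : I → Λ) (m : ℕ) (F : ℤ → Submodule ℂ (I → ℂ))
    (mono : Monotone F) (bot : F (-(m : ℤ) - 1) = ⊥) (top : F m = ⊤)
    (gr : ∀ j, ∀ x ∈ F j, ∀ i, (fun a => if lab a = i then x a else 0) ∈ F j)
    (a₀ : I) (h₀ : ∀ b, lab b = lab a₀ → b = a₀) :
    ∃ (U : Matrix I I ℂ) (l : I → ℤ), U ∈ Matrix.unitaryGroup I ℂ ∧ BD lab U ∧ U a₀ a₀ = 1 ∧
      InBox m l ∧ (∀ b, (fun a => U a b) ∈ F (l b)) ∧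
      ∀ j, ∀ x ∈ F j, ∀ b, j < l b → (star U *ᵥ x) b = 0 := by
  obtain ⟨e, he, hG⟩ := Flag_exists lab m F mono bot top
  choose l h1 h2 h3 h4 using hG
  have hu : star (e a₀ a₀) * e a₀ a₀ = 1 := by
    have h := orthonormal_iff_ite.1 he a₀ a₀
    rw [Flag_inner, if_pos rfl, Finset.sum_eq_single a₀] at h
    · exact h
    · intro b _ hb
      rw [(h3 a₀).2 b fun h' => hb (h₀ b h'), mul_zero]
    · simp
  let w : I → ℂ := fun b => if b = a₀ then star (e a₀ a₀) else 1
  have hw : ∀ b, star (w b) * w b = 1 := by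
    intro b
    by_cases hb : b = a₀
    · simp only [w, if_pos hb, star_star]
      rw [mul_comm, hu]
    · simp [w, hb]
  have hf : Orthonormal ℂ fun b => w b • e b := by
    rw [orthonormal_iff_ite]
    intro b c
    rw [inner_smul_left, inner_smul_right, orthonormal_iff_ite.1 he b c]
    by_cases hbc : b = c
    · subst hbc
      simpa using hw b
    · simp [hbc]
  have h3' : ∀ b, w b • e b ∈ Flag_W lab F (lab b) (l b) := fun b => Submodule.smul_mem _ _ (h3 b)
  have h4' : ∀ b, w b • e b ∈ (Flag_W lab F (lab b) (l b - 1))ᗮ :=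
    fun b => Submodule.smul_mem _ _ (h4 b)
  refine ⟨_, l, Flag_unit hf, fun a b hab => (h3' b).2 a hab, ?_, fun a => ⟨h1 a, h2 a⟩,
    fun b => (h3' b).1, fun j x hx b hj => ?_⟩
  · simpa [w] using hu
  · have h5 := h4' b (WithLp.toLp 2 fun a => if lab a = lab b then x a else 0)
      ⟨mono (by omega) (gr j x hx (lab b)), fun a ha => if_neg ha⟩
    rw [inner_eq_zero_symm, Flag_inner] at h5
    rw [← h5]
    refine Finset.sum_congr rfl fun a _ => ?_
    by_cases ha : lab a = lab b
    · simp [ha]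
    · have h6 : (w b • e b) a = 0 := (h3' b).2 a ha
      simp only [Matrix.star_apply, Matrix.of_apply, h6, star_zero, zero_mul]

end HS

end Pool.Agent.HK
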