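import Pool.Agent.P.MP_1206ce_ag.ST.Nil
import Pool.Agent.P.MP_1206ce_ag.ST.Flag

/-! Every loop is conjugate to a loop in a cell. -/

open scoped Topology Matrix
open Filter Set LaurentPolynomial

noncomputable section

namespace Pool.Agent.HK

namespace HS

variable {I Λ : Type} [Fintype I] [DecidableEq I] [DecidableEq Λ] {lab : I → Λ} {m : ℕ}
  {l : I → ℤ} {Γ : LM I}

theorem Cover_geV_add {c : ℤ} {v w : I → LP} (hv : GeV c v) (hw : GeV c w) : GeV c (v + w) :=
  fun a => (hv a).add (hw a)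

theorem Cover_geV_sub {c : ℤ} {v w : I → LP} (hv : GeV c v) (hw : GeV c w) : GeV c (v - w) :=
  fun a => (hv a).sub (hw a)

theorem Cover_geV_mono {c c' : ℤ} {v : I → LP} (hv : GeV c v) (h : c' ≤ c) : GeV c' v :=
  fun a => (hv a).mono h

theorem Cover_geV_smul {a b : ℤ} {f : LP} {v : I → LP} (hf : Ge a f) (hv : GeV b v) :
    GeV (a + b) (f • v) := fun i => hf.mul (hv i)

theorem Cover_geV_sum {ι : Type} {c : ℤ} {s : Finset ι} {f : ι → I → LP}
    (h : ∀ i ∈ s, GeV c (f i)) : GeV c (∑ i ∈ s, f i) := fun a => by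
  rw [Finset.sum_apply]
  exact Ge.sum fun i hi => h i hi a

theorem Cover_ge_CT (r : ℂ) (n : ℤ) : Ge n (C r * T n : LP) := fun k hk => by
  rw [coeff_CT, if_neg hk.ne]

/-- The lattice contains every vector with exponents at least `m`. -/
theorem Cover_mem_of_ge (hΓ : Loop lab m Γ) {v : I → LP} (hv : GeV m v) :
    GeV 0 (adj Γ *ᵥ v) := by
  have h1 : GeM (-(m : ℤ)) (adj Γ) := geM_adj.2 (by rw [neg_neg]; exact hΓ.le)
  have h2 := h1.mulVec hv
  rwa [neg_add_cancel] at h2

/-- A block diagonal matrix commutes with the projection to a block. -/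
theorem Cover_proj {M : LM I} (hM : BD lab M) (v : I → LP) (i : Λ) (a : I) :
    (M *ᵥ fun b => if lab b = i then v b else 0) a = if lab a = i then (M *ᵥ v) a else 0 := by
  simp only [Matrix.mulVec, dotProduct]
  split_ifs with h
  · refine Finset.sum_congr rfl fun b _ => ?_
    split_ifs with hb
    · rfl
    · rw [hM a b (fun e => hb (e ▸ h)), zero_mul, zero_mul]
  · refine Finset.sum_eq_zero fun b _ => ?_
    split_ifs with hb
    · rw [hM a b (fun e => h (e.trans hb)), zero_mul]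
    · rw [mul_zero]

theorem Cover_proj_ge {M : LM I} (hM : BD lab M) {v : I → LP} {c : ℤ} (hv : GeV c (M *ᵥ v))
    (i : Λ) : GeV c (M *ᵥ fun b => if lab b = i then v b else 0) := fun a => by
  rw [Cover_proj hM]
  split_ifs
  · exact hv a
  · exact Ge.zero c

/-- Elimination. -/
theorem Cover_elim (hΓ : Loop lab m Γ)
    (hα : ∀ b, ∃ v : I → LP, GeV 0 (adj Γ *ᵥ v) ∧ GeV (l b) v ∧
      ∀ a, (v a).coeff (l b) = if a = b then 1 else 0) (d : ℕ) :
    ∀ v : I → LP, GeV (m - d) v → ∃ v' : I → LP, GeV 0 (adj Γ *ᵥ v') ∧ GeV (m - d) v' ∧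
      ∀ a r, l a ≤ r → ((v - v') a).coeff r = 0 := by
  choose w hwL hwg hwc using hα
  induction d with
  | zero =>
    intro v hv
    refine ⟨v, Cover_mem_of_ge hΓ (by simpa using hv), hv, fun a r _ => ?_⟩
    rw [sub_self]
    rfl
  | succ d ih =>
    intro v hv
    obtain ⟨j, hj⟩ : ∃ j : ℤ, j = (m : ℤ) - ((d + 1 : ℕ) : ℤ) := ⟨_, rfl⟩
    rw [← hj] at hv ⊢
    have hj1 : (m : ℤ) - d = j + 1 := by rw [hj]; push_cast; ring
    rw [hj1] at ih
    obtain ⟨u, hu⟩ : ∃ u : I → LP, u = ∑ b ∈ Finset.univ.filter (fun b => l b ≤ j),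
        (C ((v b).coeff j) * T (j - l b) : LP) • w b := ⟨_, rfl⟩
    obtain ⟨c, hc⟩ : ∃ c : I → LP,
        c = fun a => if l a ≤ j then 0 else C ((v a).coeff j) * T j := ⟨_, rfl⟩
    have huL : GeV 0 (adj Γ *ᵥ u) := by
      rw [hu, Matrix.mulVec_sum]
      refine Cover_geV_sum fun b hb => ?_
      rw [Matrix.mulVec_smul]
      have h1 := Cover_geV_smul (Cover_ge_CT ((v b).coeff j) (j - l b)) (hwL b)
      have h2 := (Finset.mem_filter.1 hb).2
      exact Cover_geV_mono h1 (by omega)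
    have hug : GeV j u := by
      rw [hu]
      refine Cover_geV_sum fun b _ => ?_
      have h1 := Cover_geV_smul (Cover_ge_CT ((v b).coeff j) (j - l b)) (hwg b)
      rwa [sub_add_cancel] at h1
    have huc : ∀ a, (u a).coeff j = if l a ≤ j then (v a).coeff j else 0 := by
      intro a
      rw [hu, Finset.sum_apply, coeff_sum']
      have h1 : ∀ b ∈ Finset.univ.filter (fun b => l b ≤ j),
          (((C ((v b).coeff j) * T (j - l b) : LP) • w b) a).coeff j =
            if a = b then (v a).coeff j else 0 := by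
        intro b _
        rw [Pi.smul_apply, smul_eq_mul, mul_assoc, coeff_C_mul, coeff_T_mul, sub_sub_cancel, hwc]
        split_ifs with h
        · rw [h, mul_one]
        · rw [mul_zero]
      rw [Finset.sum_congr rfl h1, Finset.sum_ite_eq]
      simp only [Finset.mem_filter, Finset.mem_univ, true_and]
    have hcg : GeV j c := fun a => by
      rw [hc]
      dsimp only
      split_ifs
      · exact Ge.zero j
      · exact Cover_ge_CT _ _
    have hcc : ∀ a, (c a).coeff j = if l a ≤ j then 0 else (v a).coeff j := by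
      intro a
      rw [hc]
      dsimp only
      split_ifs
      · rfl
      · rw [coeff_CT, if_pos rfl]
    have hcr : ∀ a r, l a ≤ r → (c a).coeff r = 0 := by
      intro a r hr
      rw [hc]
      dsimp only
      split_ifs with h
      · rfl
      · rw [coeff_CT, if_neg (by omega)]
    have hrest : GeV (j + 1) (v - u - c) := fun a => by
      refine Ge.succ (Cover_geV_sub (Cover_geV_sub hv hug) hcg a) ?_
      rw [Pi.sub_apply, Pi.sub_apply, coeff_sub', coeff_sub', huc, hcc]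
      split_ifs
      · rw [sub_self, sub_zero]
      · rw [sub_zero, sub_self]
    obtain ⟨v', hv'L, hv'g, hv'c⟩ := ih _ hrest
    refine ⟨u + v', ?_, Cover_geV_add hug (Cover_geV_mono hv'g (by omega)), fun a r hr => ?_⟩
    · rw [Matrix.mulVec_add]
      exact Cover_geV_add huL hv'L
    · have h1 : v - (u + v') = (v - u - c - v') + c := by abel
      rw [h1, Pi.add_apply, coeff_add', hv'c a r hr, hcr a r hr, add_zero]

/-- The columns of the normal form. -/
theorem Cover_col (hΓ : Loop lab m Γ) (hl : InBox m l)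
    (hα : ∀ b, ∃ v : I → LP, GeV 0 (adj Γ *ᵥ v) ∧ GeV (l b) v ∧
      ∀ a, (v a).coeff (l b) = if a = b then 1 else 0) (b : I) :
    ∃ c : I → LP, GeV 0 (adj Γ *ᵥ fun a => (if a = b then T (l b) else 0) + c a) ∧
      ∀ a r, (c a).coeff r ≠ 0 → lab a = lab b ∧ l b + 1 ≤ r ∧ r < l a := by
  obtain ⟨w, hwL, hwg, hwc⟩ := hα b
  obtain ⟨e, he⟩ : ∃ e : I → LP, e = fun a => if a = b then T (l b) else 0 := ⟨_, rfl⟩
  have heg : GeV (l b) e := fun a => by
    rw [he]
    dsimp only
    split_ifs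
    · exact Ge.mon _
    · exact Ge.zero _
  have htail : GeV (l b + 1) (w - e) := fun a => by
    refine Ge.succ (Cover_geV_sub hwg heg a) ?_
    rw [Pi.sub_apply, coeff_sub', hwc, he]
    dsimp only
    split_ifs
    · rw [coeff_T', if_pos rfl, sub_self]
    · rw [coeff_zero', sub_self]
  have key : ∃ v' : I → LP, GeV 0 (adj Γ *ᵥ v') ∧ GeV (l b + 1) v' ∧
      ∀ a r, l a ≤ r → ((w - e - v') a).coeff r = 0 := by
    rcases lt_or_eq_of_le (hl b).2 with h | h
    · obtain ⟨d, hd⟩ : ∃ d : ℕ, (m : ℤ) - d = l b + 1 := ⟨(m - (l b + 1)).toNat, by omega⟩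
      have h1 := Cover_elim hΓ hα d (w - e) (by rw [hd]; exact htail)
      rwa [hd] at h1
    · refine ⟨w - e, Cover_mem_of_ge hΓ (Cover_geV_mono htail (by omega)), htail,
        fun a r _ => ?_⟩
      rw [sub_self]
      rfl
  obtain ⟨v', hv'L, hv'g, hv'c⟩ := key
  refine ⟨fun a => if lab a = lab b then (w - e - v') a else 0, ?_, fun a r hr => ?_⟩
  · have h1 : GeV 0 (adj Γ *ᵥ (w - v')) := by
      rw [Matrix.mulVec_sub]
      exact Cover_geV_sub hwL hv'L
    have h2 := Cover_proj_ge hΓ.bd.adjoint h1 (lab b)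
    have h3 : (fun a => (if a = b then T (l b) else 0) +
        if lab a = lab b then (w - e - v') a else 0) =
        fun a => if lab a = lab b then (w - v') a else 0 := by
      funext a
      rw [he]
      simp only [Pi.sub_apply]
      by_cases h : a = b
      · subst h
        simp only [if_true]
        abel
      · simp only [if_neg h]
        split_ifs
        · abel
        · rw [add_zero]
    rw [h3]
    exact h2
  · dsimp only at hr
    split_ifs at hr with h
    · refine ⟨h, ?_, ?_⟩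
      · by_contra h0
        exact hr (Cover_geV_sub htail hv'g a r (not_le.1 h0))
      · by_contra h0
        exact hr (hv'c a r (not_lt.1 h0))
    · exact absurd rfl hr

/-- A vector of the lattice that is reduced with respect to the flag vanishes. -/
theorem Cover_vanish {n : LM I} (hn : Nil lab l n)
    (hβ : ∀ (j : ℤ) (v : I → LP), GeV 0 (adj Γ *ᵥ v) → GeV j v → ∀ a, j < l a →
      (v a).coeff j = 0) {y : I → LP} (hL : GeV 0 (adj Γ *ᵥ ((1 + n) *ᵥ y)))
    (hy : ∀ a r, l a ≤ r → (y a).coeff r = 0) : y = 0 := by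
  obtain ⟨N, hN, -⟩ := exists_geV y
  have step : ∀ j, GeV j y → GeV (j + 1) y := by
    intro j hj a
    refine Ge.succ (hj a) ?_
    rcases lt_or_ge j (l a) with h | h
    · have h1 := hn.ge_one_add.mulVec hj
      have h2 := hn.ge_one_add.coeff_mulVec hj a
      rw [zero_add] at h1 h2
      rw [hn.cf_one_add, Matrix.one_mulVec, hβ j _ hL h1 a h] at h2
      exact h2.symm
    · exact hy a j h
  have all : ∀ k : ℕ, GeV (-(N : ℤ) + k) y := by
    intro k
    induction k with
    | zero => simpa using hN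
    | succ k ih =>
      have h1 := step _ ih
      rwa [Nat.cast_succ, ← add_assoc]
  funext a
  refine eq_zero_of_ge fun c => ?_
  exact (all (c + N).toNat a).mono (by omega)

/-- Normal form. The lattice is `L = {v | GeV 0 (adj Γ *ᵥ v)}`; it contains every `v` with `GeV m v`.
Elimination (downward induction on `j ≤ m`): every `v` with `GeV j v` is `v' + c` with `v' ∈ L`,
`GeV j v'` and `(c a).coeff r = 0` for `l a ≤ r`. Apply it to the tail of the vector of `hα` and
project to the block of `b` (`adj Γ` is block diagonal) to get the column `b` of `nf l n`. For `ge₂`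
let `w` be a column of `nfi m l n * Γ`, `y = tL l *ᵥ (cut 0 w)`; then `(1 + n) *ᵥ y ∈ L`, and upward
induction with `hβ` gives `GeV j y` for all `j`. -/
theorem exists_cell_of_flag (hΓ : Loop lab m Γ) (hl : InBox m l)
    (hα : ∀ b, ∃ v : I → LP, GeV 0 (adj Γ *ᵥ v) ∧ GeV (l b) v ∧
      ∀ a, (v a).coeff (l b) = if a = b then 1 else 0)
    (hβ : ∀ (j : ℤ) (v : I → LP), GeV 0 (adj Γ *ᵥ v) → GeV j v → ∀ a, j < l a →
      (v a).coeff j = 0) :
    ∃ n, Cell lab m l Γ n := by
  choose c hcL hc using Cover_col hΓ hl hα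
  obtain ⟨n, hn⟩ : ∃ n : LM I, n = Matrix.of fun a b => c b a * T (-l b) := ⟨_, rfl⟩
  have hnil : Nil lab l n := by
    intro a b k hk
    rw [hn, Matrix.of_apply, coeff_mul_T] at hk
    obtain ⟨h1, h2, h3⟩ := hc b a _ hk
    exact ⟨h1, by omega, by omega⟩
  have hnf : ∀ a b, nf l n a b = (if a = b then T (l b) else 0) + c b a := by
    intro a b
    rw [nf, mul_tL_apply, Matrix.add_apply, add_mul, hn, Matrix.of_apply, mul_assoc, ← T_add,
      neg_add_cancel, T_zero, mul_one, Matrix.one_apply]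
    split_ifs
    · rw [one_mul]
    · rw [zero_mul]
  have hge : GeM 0 (adj Γ * nf l n) := by
    intro a b
    have h1 := hcL b a
    have h2 : (adj Γ * nf l n) a b =
        (adj Γ *ᵥ fun a => (if a = b then T (l b) else 0) + c b a) a := by
      simp only [Matrix.mul_apply, Matrix.mulVec, dotProduct, hnf]
    rw [h2]
    exact h1
  refine ⟨n, hnil, hge, fun a b => ?_⟩
  obtain ⟨w, hw⟩ : ∃ w : I → LP, w = fun a => (nfi m l n * Γ) a b := ⟨_, rfl⟩
  have h1 : GeV 0 ((adj Γ * nf l n) *ᵥ w) := by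
    intro x
    have h2 : ((adj Γ * nf l n) *ᵥ w) x = ((adj Γ * nf l n) * (nfi m l n * Γ)) x b := by
      rw [hw]
      rfl
    rw [h2, Matrix.mul_assoc, ← Matrix.mul_assoc (nf l n), hnil.nf_mul_nfi hl, Matrix.one_mul,
      hΓ.unit]
    exact GeM.one x b
  have h2 : GeV 0 ((adj Γ * nf l n) *ᵥ (w - fun a => cut 0 (w a))) := by
    have h3 : GeV 0 (w - fun a => cut 0 (w a)) := fun x => ge_sub_cut 0 (w x)
    have h4 := hge.mulVec h3
    rwa [add_zero] at h4
  have h3 : GeV 0 (adj Γ *ᵥ ((1 + n) *ᵥ (tL l *ᵥ fun a => cut 0 (w a)))) := by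
    have h4 := Cover_geV_sub h1 h2
    rw [← Matrix.mulVec_sub, sub_sub_cancel, nf] at h4
    rwa [Matrix.mulVec_mulVec, Matrix.mulVec_mulVec, Matrix.mul_assoc]
  have h4 := Cover_vanish hnil hβ h3 (fun x r hr => by
    rw [tL_mulVec, coeff_T_mul, coeff_cut, if_neg (by omega)])
  intro k hk
  have h5 : ((tL l *ᵥ fun a => cut 0 (w a)) a).coeff (k + l a) = 0 := by
    rw [h4]
    rfl
  rw [tL_mulVec, coeff_T_mul, add_sub_cancel_right, coeff_cut, if_pos hk, hw] at h5
  exact h5

/-- The flag of leading coefficients of the lattice. -/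
def Cover_flag (Γ : LM I) (j : ℤ) : Submodule ℂ (I → ℂ) where
  carrier := {x | ∃ v : I → LP, GeV 0 (adj Γ *ᵥ v) ∧ GeV j v ∧ ∀ a, (v a).coeff j = x a}
  add_mem' := by
    rintro x y ⟨v, hv, hv', hx⟩ ⟨w, hw, hw', hy⟩
    refine ⟨v + w, ?_, Cover_geV_add hv' hw', fun a => ?_⟩
    · rw [Matrix.mulVec_add]
      exact Cover_geV_add hv hw
    · rw [Pi.add_apply, coeff_add', hx, hy, Pi.add_apply]
  zero_mem' := ⟨0, by rw [Matrix.mulVec_zero]; exact fun _ => Ge.zero 0, fun _ => Ge.zero j,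
    fun _ => rfl⟩
  smul_mem' := by
    rintro r x ⟨v, hv, hv', hx⟩
    refine ⟨(C r : LP) • v, ?_, ?_, fun a => ?_⟩
    · rw [Matrix.mulVec_smul]
      have h1 := Cover_geV_smul (Ge.const r) hv
      rwa [add_zero] at h1
    · have h1 := Cover_geV_smul (Ge.const r) hv'
      rwa [zero_add] at h1
    · rw [Pi.smul_apply, smul_eq_mul, coeff_C_mul, hx, Pi.smul_apply, smul_eq_mul]

theorem Cover_mem_flag {j : ℤ} {x : I → ℂ} : x ∈ Cover_flag Γ j ↔
    ∃ v : I → LP, GeV 0 (adj Γ *ᵥ v) ∧ GeV j v ∧ ∀ a, (v a).coeff j = x a := Iff.rfl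

theorem Cover_flag_mono (Γ : LM I) : Monotone (Cover_flag Γ) := by
  intro j j' hj x hx
  obtain ⟨v, hv, hv', hx⟩ := Cover_mem_flag.1 hx
  refine Cover_mem_flag.2 ⟨(T (j' - j) : LP) • v, ?_, ?_, fun a => ?_⟩
  · rw [Matrix.mulVec_smul]
    exact Cover_geV_mono (Cover_geV_smul (Ge.mon (j' - j)) hv) (by omega)
  · have h1 := Cover_geV_smul (Ge.mon (j' - j)) hv'
    rwa [sub_add_cancel] at h1
  · rw [Pi.smul_apply, smul_eq_mul, coeff_T_mul, sub_sub_cancel, hx]

theorem Cover_flag_bot (hΓ : Loop lab m Γ) : Cover_flag Γ (-(m : ℤ) - 1) = ⊥ := by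
  rw [eq_bot_iff]
  intro x hx
  obtain ⟨v, hv, -, hx⟩ := Cover_mem_flag.1 hx
  have h1 := hΓ.ge.mulVec hv
  rw [Matrix.mulVec_mulVec, hΓ.unit', Matrix.one_mulVec, add_zero] at h1
  rw [Submodule.mem_bot]
  funext a
  rw [← hx a]
  exact h1 a _ (by omega)

theorem Cover_flag_top (hΓ : Loop lab m Γ) : Cover_flag Γ m = ⊤ := by
  rw [eq_top_iff]
  intro x _
  have h1 : GeV (m : ℤ) fun a => (C (x a) * T m : LP) := fun a => Cover_ge_CT _ _
  refine Cover_mem_flag.2 ⟨_, Cover_mem_of_ge hΓ h1, h1, fun a => ?_⟩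
  rw [coeff_CT, if_pos rfl]

theorem Cover_flag_gr (hΓ : Loop lab m Γ) (j : ℤ) (x : I → ℂ) (hx : x ∈ Cover_flag Γ j) (i : Λ) :
    (fun a => if lab a = i then x a else 0) ∈ Cover_flag Γ j := by
  obtain ⟨v, hv, hv', hx⟩ := Cover_mem_flag.1 hx
  refine Cover_mem_flag.2 ⟨_, Cover_proj_ge hΓ.bd.adjoint hv i, fun a => ?_, fun a => ?_⟩
  · dsimp only
    split_ifs
    · exact hv' a
    · exact Ge.zero j
  · split_ifs
    · exact hx a
    · rfl

theorem Cover_coeff_cM (U : Matrix I I ℂ) {j : ℤ} {v : I → LP} (hv : GeV j v) (a : I) :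
    ((cM U *ᵥ v) a).coeff j = (U *ᵥ fun b => (v b).coeff j) a := by
  have h1 := (GeM.const U).coeff_mulVec hv a
  rwa [zero_add, cf_cM, if_pos rfl] at h1

theorem Cover_ge_cM (U : Matrix I I ℂ) {j : ℤ} {v : I → LP} (hv : GeV j v) :
    GeV j (cM U *ᵥ v) := by
  have h1 := (GeM.const U).mulVec hv
  rwa [zero_add] at h1

/-- Apply `flag_unitary` to the flag `F j` of the coefficients at `z ^ j` of the vectors `v ∈ L` with
`GeV j v`; conjugate by `star U`. The value `l a₀ = 0` follows from `Cell.apply_single`. -/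
theorem exists_cell (hΓ : Loop lab m Γ) (a₀ : I) (h₀ : ∀ b, lab b = lab a₀ → b = a₀)
    (h₁ : Γ a₀ a₀ = 1) :
    ∃ (U : Matrix I I ℂ) (l : I → ℤ) (n : LM I), U ∈ Matrix.unitaryGroup I ℂ ∧ BD lab U ∧
      U a₀ a₀ = 1 ∧ InBox m l ∧ l a₀ = 0 ∧ Cell lab m l (cj U Γ) n := by
  obtain ⟨U, l, hU, hb, hU0, hl, hcol, hrow⟩ := flag_unitary lab m (Cover_flag Γ)
    (Cover_flag_mono Γ) (Cover_flag_bot hΓ) (Cover_flag_top hΓ) (Cover_flag_gr hΓ) a₀ h₀
  have hU' : star U ∈ Matrix.unitaryGroup I ℂ := Unitary.star_mem hU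
  have hUl : star U * U = 1 := (Unitary.mem_iff.1 hU).1
  have hUr : U * star U = 1 := (Unitary.mem_iff.1 hU).2
  have hΓ' : Loop lab m (cj (star U) Γ) := hΓ.conj hU' hb.str
  have hadj : adj (cj (star U) Γ) = cM (star U) * adj Γ * cM U := by
    rw [adj_cj, cj, star_star]
  have hU0' : (star U) a₀ a₀ = 1 := by
    rw [Matrix.star_apply, hU0, star_one]
  obtain ⟨n, hn⟩ : ∃ n, Cell lab m l (cj (star U) Γ) n := by
    refine exists_cell_of_flag hΓ' hl (fun b => ?_) (fun j v hv hv' a ha => ?_)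
    · obtain ⟨v, hv, hv', hx⟩ := Cover_mem_flag.1 (hcol b)
      refine ⟨cM (star U) *ᵥ v, ?_, Cover_ge_cM _ hv', fun a => ?_⟩
      · rw [hadj, Matrix.mulVec_mulVec, Matrix.mul_assoc, ← cM_mul, hUr, cM_one, Matrix.mul_one,
          ← Matrix.mulVec_mulVec]
        exact Cover_ge_cM _ hv
      · rw [Cover_coeff_cM _ hv', ← Matrix.one_apply, ← hUl, Matrix.mul_apply]
        simp only [Matrix.mulVec, dotProduct, hx]
    · have h2 : (fun b => ((cM U *ᵥ v) b).coeff j) ∈ Cover_flag Γ j := by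
        refine Cover_mem_flag.2 ⟨cM U *ᵥ v, ?_, Cover_ge_cM _ hv', fun _ => rfl⟩
        have h3 := Cover_ge_cM U hv
        rwa [hadj, Matrix.mulVec_mulVec, ← Matrix.mul_assoc, ← Matrix.mul_assoc, ← cM_mul, hUr,
          cM_one, Matrix.one_mul, ← Matrix.mulVec_mulVec] at h3
      have h3 := hrow j _ h2 a ha
      have h4 : (fun b => ((cM U *ᵥ v) b).coeff j) = U *ᵥ fun b => (v b).coeff j :=
        funext fun b => Cover_coeff_cM U hv' b
      rwa [h4, Matrix.mulVec_mulVec, hUl, Matrix.one_mulVec] at h3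
  refine ⟨star U, l, n, hU', hb.str, hU0', hl, ?_, hn⟩
  have h2 := hn.apply_single hΓ' hl h₀
  rw [cj, (hb.str.const.mul hΓ.bd).mul_apply_single _ h₀, hb.str.const.mul_apply_single _ h₀,
    star_star, cM_apply, cM_apply, hU0, hU0', h₁, map_one, one_mul, one_mul] at h2
  have h3 : (1 : LP).coeff 0 = (T (l a₀) : LP).coeff 0 := by rw [h2]
  rw [coeff_one', coeff_T', if_pos rfl] at h3
  by_contra h4
  rw [if_neg (fun e => h4 e.symm)] at h3
  exact one_ne_zero h3

end HS

end Pool.Agent.HK
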