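import Pool.Agent.P.MP_1206ce_ag.ST.LM

/-! Continuity tools. -/

set_option linter.unusedSectionVars false

open scoped Topology Matrix
open Filter Set LaurentPolynomial

noncomputable section

namespace Pool.Agent.HK

namespace HS

variable {I X Y : Type} [Fintype I] [DecidableEq I] [TopologicalSpace X] [TopologicalSpace Y]
variable {S : Set X} {F G : X → LM I}

theorem Cont_coef (hF : CFam S F) (k : ℤ) : ContinuousOn (fun x => cf (F x) k) S :=
  continuousOn_pi.2 fun a => continuousOn_pi.2 fun b => hF.cont a b k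

theorem Cont_mk (h : ∀ k, ContinuousOn (fun x => cf (F x) k) S)
    (hb : ∃ N : ℕ, ∀ x ∈ S, GeM (-(N : ℤ)) (F x) ∧ LeM N (F x)) : CFam S F :=
  ⟨fun a b k => continuousOn_pi.1 (continuousOn_pi.1 (h k) a) b, hb⟩

theorem CFam.const (S : Set X) (M : LM I) : CFam S fun _ => M := by
  obtain ⟨N, hN⟩ := exists_geM M
  exact ⟨fun _ _ _ => continuousOn_const, N, fun _ _ => hN⟩
theorem CFam.mono (h : CFam S F) {S' : Set X} (hS : S' ⊆ S) : CFam S' F := by
  obtain ⟨N, hN⟩ := h.bd
  exact ⟨fun a b k => (h.cont a b k).mono hS, N, fun x hx => hN x (hS hx)⟩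
theorem CFam.congr (h : CFam S F) (hG : ∀ x ∈ S, G x = F x) : CFam S G := by
  obtain ⟨N, hN⟩ := h.bd
  refine ⟨fun a b k => (h.cont a b k).congr fun x hx => ?_, N, fun x hx => ?_⟩
  · simp only [hG x hx]
  · rw [hG x hx]
    exact hN x hx
theorem CFam.comp (h : CFam S F) {f : Y → X} {S' : Set Y} (hf : ContinuousOn f S')
    (hm : MapsTo f S' S) : CFam S' fun y => F (f y) := by
  obtain ⟨N, hN⟩ := h.bd
  exact ⟨fun a b k => (h.cont a b k).comp hf hm, N, fun y hy => hN _ (hm hy)⟩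
theorem CFam.add (hF : CFam S F) (hG : CFam S G) : CFam S fun x => F x + G x := by
  obtain ⟨N, hN⟩ := hF.bd
  obtain ⟨N', hN'⟩ := hG.bd
  refine Cont_mk (fun k => ?_) ⟨N + N', fun x hx => ⟨?_, ?_⟩⟩
  · simp only [cf_add]
    exact (Cont_coef hF k).add (Cont_coef hG k)
  · exact ((hN x hx).1.mono (by push_cast; omega)).add ((hN' x hx).1.mono (by push_cast; omega))
  · exact ((hN x hx).2.mono (by push_cast; omega)).add ((hN' x hx).2.mono (by push_cast; omega))
theorem CFam.neg (hF : CFam S F) : CFam S fun x => -F x := by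
  obtain ⟨N, hN⟩ := hF.bd
  refine ⟨fun a b k => ?_, N, fun x hx => ⟨(hN x hx).1.neg, (hN x hx).2.neg⟩⟩
  simp only [Matrix.neg_apply, coeff_neg']
  exact (hF.cont a b k).neg
theorem CFam.mul (hF : CFam S F) (hG : CFam S G) : CFam S fun x => F x * G x := by
  obtain ⟨N, hN⟩ := hF.bd
  obtain ⟨N', hN'⟩ := hG.bd
  refine Cont_mk (fun k => ?_) ⟨N + N', fun x hx => ⟨?_, ?_⟩⟩
  · refine ContinuousOn.congr (f := fun x => ∑ i ∈ Finset.Icc (-(N : ℤ)) N,
      cf (F x) i * cf (G x) (k - i)) (continuousOn_finsetSum _ fun i _ =>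
        (Cont_coef hF i).mul (Cont_coef hG (k - i))) fun x hx => ?_
    refine cf_mul_sum _ _ _ (fun i hi => ?_) k
    rw [Finset.mem_Icc]
    exact ⟨not_lt.1 fun h => hi (geM_iff.1 (hN x hx).1 i h),
      not_lt.1 fun h => hi (leM_iff.1 (hN x hx).2 i h)⟩
  · exact ((hN x hx).1.mul (hN' x hx).1).mono (by push_cast; omega)
  · exact ((hN x hx).2.mul (hN' x hx).2).mono (by push_cast; omega)
theorem CFam.pow (hF : CFam S F) (k : ℕ) : CFam S fun x => F x ^ k := by
  induction k with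
  | zero => exact (CFam.const S 1).congr fun x _ => pow_zero _
  | succ k ih => exact (ih.mul hF).congr fun x _ => pow_succ _ _
theorem CFam.sum {ι : Type} {s : Finset ι} {F : ι → X → LM I} (h : ∀ i ∈ s, CFam S (F i)) :
    CFam S fun x => ∑ i ∈ s, F i x := by
  classical
  induction s using Finset.induction_on with
  | empty => exact (CFam.const S 0).congr fun x _ => Finset.sum_empty
  | insert i s hi ih =>
    exact ((h i (Finset.mem_insert_self _ _)).add
      (ih fun j hj => h j (Finset.mem_insert_of_mem hj))).congr fun x _ => Finset.sum_insert hi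
theorem CFam.adjoint (hF : CFam S F) : CFam S fun x => adj (F x) := by
  obtain ⟨N, hN⟩ := hF.bd
  refine Cont_mk (fun k => ?_) ⟨N, fun x hx => ⟨?_, ?_⟩⟩
  · simp only [cf_adj]
    exact (Cont_coef hF (-k)).star
  · rw [geM_adj, neg_neg]
    exact (hN x hx).2
  · rw [leM_adj]
    exact (hN x hx).1
theorem CFam.smul {r : X → ℂ} (hr : ContinuousOn r S) (hF : CFam S F) :
    CFam S fun x => (C (r x) : LP) • F x := by
  obtain ⟨N, hN⟩ := hF.bd
  refine Cont_mk (fun k => ?_) ⟨N, fun x hx => ⟨(hN x hx).1.smul _, ?_⟩⟩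
  · simp only [cf_smul]
    exact hr.smul (Cont_coef hF k)
  · refine leM_iff.2 fun k hk => ?_
    rw [cf_smul, leM_iff.1 (hN x hx).2 k hk, smul_zero]
theorem cFam_cM {U : X → Matrix I I ℂ} (hU : ContinuousOn U S) : CFam S fun x => cM (U x) := by
  refine Cont_mk (fun k => ?_) ⟨0, fun x _ => ⟨?_, ?_⟩⟩
  · simp only [cf_cM]
    split_ifs
    · exact hU
    · exact continuousOn_const
  · simpa using GeM.const (U x)
  · simpa using LeM.const (U x)
theorem CFam.conj {U : X → Matrix I I ℂ} (hU : ContinuousOn U S) (hF : CFam S F) :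
    CFam S fun x => cj (U x) (F x) :=
  ((cFam_cM hU).mul hF).mul (cFam_cM hU.star)
theorem cFam_toL (m : ℕ) {γ : X → ℤ → Matrix I I ℂ} (h : ContinuousOn γ S) :
    CFam S fun x => toL m (γ x) := by
  refine Cont_mk (fun k => ?_) ⟨m, fun x _ => ⟨geM_toL m _, leM_toL m _⟩⟩
  simp only [cf_toL]
  split_ifs
  · exact continuousOn_pi.1 h k
  · exact continuousOn_const
theorem CFam.nform (l : I → ℤ) (hF : CFam S F) : CFam S fun x => nf l (F x) :=
  ((CFam.const S 1).add hF).mul (CFam.const S (tL l))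
theorem CFam.nformi (m : ℕ) (l : I → ℤ) (hF : CFam S F) : CFam S fun x => nfi m l (F x) :=
  (CFam.const S (tL (-l))).mul
    (CFam.sum (s := Finset.range (2 * m + 1)) (F := fun k x => (-F x) ^ k) fun k _ => hF.neg.pow k)
theorem CFam.coef (hF : CFam S F) (k : ℤ) : ContinuousOn (fun x => cf (F x) k) S :=
  Cont_coef hF k
theorem CFam.isClosed_geM (hF : CFam univ F) (c : ℤ) : IsClosed {x | GeM c (F x)} := by
  have : {x | GeM c (F x)} = ⋂ k, ⋂ _ : k < c, {x | cf (F x) k = 0} := by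
    ext x
    simp only [mem_ofPred_eq, mem_iInter, geM_iff]
  rw [this]
  exact isClosed_iInter fun k => isClosed_iInter fun _ =>
    _root_.isClosed_eq (continuousOn_univ.1 (hF.coef k)) continuous_const
theorem CFam.isClosed_eq (hF : CFam univ F) (hG : CFam univ G) : IsClosed {x | F x = G x} := by
  have : {x | F x = G x} = ⋂ k, {x | cf (F x) k = cf (G x) k} := by
    ext x
    simp only [mem_ofPred_eq, mem_iInter]
    exact ⟨fun h k => by rw [h], ext_cf⟩
  rw [this]
  exact isClosed_iInter fun k =>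
    _root_.isClosed_eq (continuousOn_univ.1 (hF.coef k)) (continuousOn_univ.1 (hG.coef k))

open scoped ComplexOrder in
theorem Cont_det_ne {ι κ : Type} [Fintype ι] [DecidableEq ι] [Fintype κ] {A : Matrix κ ι ℂ}
    (h : ∀ v, A *ᵥ v = 0 → v = 0) : (Aᴴ * A).det ≠ 0 := by
  intro h0
  obtain ⟨v, hv, h1⟩ := Matrix.exists_mulVec_eq_zero_iff.2 h0
  exact hv (h v ((Matrix.conjTranspose_mul_self_mulVec_eq_zero A v).1 h1))

/-- Near `x₀` multiply by a left inverse `B` of `A x₀`; `B * A x` stays invertible. -/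
theorem lin_cont {ι κ : Type} [Fintype ι] [DecidableEq ι] [Fintype κ] (A : X → Matrix κ ι ℂ)
    (b : X → κ → ℂ) (c : X → ι → ℂ) (hA : ContinuousOn A S) (hb : ContinuousOn b S)
    (hinj : ∀ x ∈ S, ∀ v, A x *ᵥ v = 0 → v = 0) (hc : ∀ x ∈ S, A x *ᵥ c x = b x) :
    ContinuousOn c S := by
  rw [continuousOn_iff_continuous_domRestrict] at hA hb ⊢
  have hA' : Continuous fun x : S => A x := hA
  have hb' : Continuous fun x : S => b x := hb
  have hG : Continuous fun x : S => (A x)ᴴ * A x := hA'.matrix_conjTranspose.matrix_mul hA'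
  have h1 : Continuous fun x : S => (((A x)ᴴ * A x).det)⁻¹ •
      (((A x)ᴴ * A x).adjugate *ᵥ ((A x)ᴴ *ᵥ b x)) :=
    (hG.matrix_det.inv₀ fun x => Cont_det_ne (hinj x x.2)).smul
      (hG.matrix_adjugate.matrix_mulVec (hA'.matrix_conjTranspose.matrix_mulVec hb'))
  refine h1.congr fun x => ?_
  change _ = c x
  rw [← hc x x.2, Matrix.mulVec_mulVec, Matrix.mulVec_mulVec, Matrix.mul_assoc,
    Matrix.adjugate_mul, Matrix.smul_mulVec, Matrix.one_mulVec, smul_smul,
    inv_mul_cancel₀ (Cont_det_ne (hinj x x.2)), one_smul]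

theorem Cont_coeff_comb {ι : Type} [Fintype ι] (E : ι → LM I) (v : ι → ℂ) (a b : I) (k : ℤ) :
    ((∑ q, (C (v q) : LP) • E q) a b).coeff k = ∑ q, (E q a b).coeff k * v q := by
  rw [Matrix.sum_apply, coeff_sum']
  refine Finset.sum_congr rfl fun q _ => ?_
  rw [Matrix.smul_apply, smul_eq_mul, coeff_C_mul, mul_comm]

/-- The same for the linear system saying that a loop has no pole (finitely many coefficients). -/
theorem lin_cont_geM {ι : Type} [Fintype ι] [DecidableEq ι] (E : ι → X → LM I) (B : X → LM I)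
    (c : X → ι → ℂ) (hE : ∀ q, CFam S (E q)) (hB : CFam S B)
    (hinj : ∀ x ∈ S, ∀ v : ι → ℂ, GeM 0 (∑ q, (C (v q) : LP) • E q x) → v = 0)
    (hc : ∀ x ∈ S, GeM 0 (B x + ∑ q, (C (c x q) : LP) • E q x)) : ContinuousOn c S := by
  choose N hN using fun q => (hE q).bd
  refine lin_cont (κ := I × I × Fin (∑ q, N q))
    (fun x => Matrix.of fun p q => (E q x p.1 p.2.1).coeff (-((p.2.2 : ℕ) : ℤ) - 1))
    (fun x p => -(B x p.1 p.2.1).coeff (-((p.2.2 : ℕ) : ℤ) - 1)) c
    (continuousOn_pi.2 fun p => continuousOn_pi.2 fun q => (hE q).cont _ _ _)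
    (continuousOn_pi.2 fun p => (hB.cont _ _ _).neg) (fun x hx v hv => hinj x hx v ?_)
    fun x hx => ?_
  · intro a b k hk
    rw [Cont_coeff_comb]
    by_cases h : k < -((∑ q, N q : ℕ) : ℤ)
    · refine Finset.sum_eq_zero fun q _ => ?_
      have h1 : N q ≤ ∑ q, N q :=
        Finset.single_le_sum (f := N) (fun _ _ => Nat.zero_le _) (Finset.mem_univ q)
      rw [(hN q x hx).1 a b k (by omega), zero_mul]
    · have h1 := congrFun hv (a, b, ⟨(-k - 1).toNat, by omega⟩)
      have h2 : -(((-k - 1).toNat : ℕ) : ℤ) - 1 = k := by omega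
      simp only [Matrix.mulVec, dotProduct, Matrix.of_apply, h2, Pi.zero_apply] at h1
      exact h1
  · funext p
    have h1 := hc x hx p.1 p.2.1 (-((p.2.2 : ℕ) : ℤ) - 1) (by omega)
    rw [Matrix.add_apply, coeff_add', Cont_coeff_comb] at h1
    simp only [Matrix.mulVec, dotProduct, Matrix.of_apply]
    exact eq_neg_of_add_eq_zero_right h1

/-- Closed graph into a compact set. -/
theorem continuous_of_graph (f : X → Y) {K : Set Y} (hK : IsCompact K) {R : Set (X × Y)}
    (hR : IsClosed R) (hf : ∀ x, f x ∈ K ∧ (x, f x) ∈ R)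
    (uniq : ∀ x, ∀ y ∈ K, (x, y) ∈ R → y = f x) : Continuous f := by
  refine continuous_iff_ultrafilter.2 fun x g hg => ?_
  obtain ⟨y, hy, h⟩ := isCompact_iff_ultrafilter_le_nhds.1 hK (g.map f)
    (le_principal_iff.2 (Ultrafilter.mem_coe.2 (Ultrafilter.mem_map.2
      (Eventually.of_forall (f := (g : Filter X)) fun z => (hf z).1))))
  have h1 : Tendsto f g (𝓝 y) := h
  have h2 : Tendsto (fun z => (z, f z)) g (𝓝 (x, y)) := Tendsto.prodMk_nhds hg h1
  rw [← uniq x y hy (hR.mem_of_tendsto h2 (Eventually.of_forall fun z => (hf z).2))]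
  exact h1

end HS

end Pool.Agent.HK
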