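import Pool.Agent.P.MP_1206ce_ag.ST.Nil
import Pool.Agent.P.MP_1206ce_ag.ST.Flag
import Pool.Agent.P.MP_1206ce_ag.ST.Cont

/-! Semicontinuity of the dimensions of the lattice filtration. -/

open scoped Topology Matrix
open Filter Set LaurentPolynomial Module

noncomputable section

namespace Pool.Agent.HK

namespace HS

variable {I Λ : Type} [Fintype I] [DecidableEq I] [DecidableEq Λ]

/-- The dimension of the kernel is upper semicontinuous. -/
theorem Dim_usc {X B K : Type} [TopologicalSpace X] [Fintype B] [Fintype K]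
    (Φ : X → (B → ℂ) →ₗ[ℂ] (K → ℂ)) (hΦ : ∀ v, Continuous fun x => Φ x v) (r : ℤ) :
    IsClosed {x | r ≤ (finrank ℂ (LinearMap.ker (Φ x)) : ℤ)} := by
  rw [← isOpen_compl_iff]
  have h1 : {x | r ≤ (finrank ℂ (LinearMap.ker (Φ x)) : ℤ)}ᶜ =
      {x | ((finrank ℂ (B → ℂ) + 1 - r.toNat : ℕ) : Cardinal) ≤ (Φ x).rank} := by
    ext x
    have h2 := LinearMap.finrank_range_add_finrank_ker (Φ x)
    have h3 : (Φ x).rank = (finrank ℂ (LinearMap.range (Φ x)) : Cardinal) :=
      (finrank_eq_rank ℂ _).symm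
    simp only [mem_compl_iff, mem_ofPred_eq, h3, Nat.cast_le]
    omega
  rw [h1]
  simp only [LinearMap.le_rank_iff_exists_linearIndependent_finset, ofPred_exists, ← exists_prop]
  refine isOpen_biUnion fun t _ => ?_
  have : Continuous fun x => fun v : (t : Set (B → ℂ)) => Φ x v := continuous_pi fun v => hΦ v
  exact isOpen_setOfPred_linearIndependent.preimage this

/-- Positions of the truncated coefficient space. -/
abbrev Dim_B (m : ℕ) (I : Type) : Type := ↥(Finset.Ico (-(m : ℤ)) m) × I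

/-- The vector of Laurent polynomials with given coefficients. -/
def Dim_emb (m : ℕ) : (Dim_B m I → ℂ) →ₗ[ℂ] (I → LP) where
  toFun v := fun a => ∑ r : ↥(Finset.Ico (-(m : ℤ)) m), C (v (r, a)) * T (r : ℤ)
  map_add' v w := by
    funext a
    simp only [Pi.add_apply, map_add, add_mul, Finset.sum_add_distrib]
  map_smul' c v := by
    funext a
    simp only [Pi.smul_apply, smul_eq_mul, map_mul, RingHom.id_apply, smul_eq_C_mul,
      Finset.mul_sum, mul_assoc]

/-- The coefficients of a vector. -/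
def Dim_res (m : ℕ) : (I → LP) →ₗ[ℂ] (Dim_B m I → ℂ) where
  toFun w := fun q => (w q.2).coeff (q.1 : ℤ)
  map_add' _ _ := rfl
  map_smul' _ _ := rfl

omit [Fintype I] [DecidableEq I] in
theorem Dim_res_apply (m : ℕ) (w : I → LP) (q : Dim_B m I) :
    Dim_res m w q = (w q.2).coeff (q.1 : ℤ) := rfl

omit [Fintype I] [DecidableEq I] in
theorem Dim_coeff_emb (m : ℕ) (v : Dim_B m I → ℂ) (a : I) (k : ℤ) :
    (Dim_emb m v a).coeff k =
      if h : k ∈ Finset.Ico (-(m : ℤ)) m then v (⟨k, h⟩, a) else 0 := by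
  change (∑ r : ↥(Finset.Ico (-(m : ℤ)) m), (C (v (r, a)) * T (r : ℤ) : LP)).coeff k = _
  rw [coeff_sum']
  simp only [coeff_CT]
  split_ifs with h
  · rw [Finset.sum_eq_single ⟨k, h⟩, if_pos rfl]
    · intro r _ hr
      exact if_neg fun e => hr (Subtype.ext e.symm)
    · intro h1
      exact absurd (Finset.mem_univ _) h1
  · exact Finset.sum_eq_zero fun r _ => if_neg fun e : k = r => h (e ▸ r.2)

omit [Fintype I] [DecidableEq I] in
theorem Dim_res_emb (m : ℕ) (v : Dim_B m I → ℂ) : Dim_res m (Dim_emb m v) = v := by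
  funext q
  rw [Dim_res_apply, Dim_coeff_emb, dif_pos q.1.2]

omit [Fintype I] [DecidableEq I] in
theorem Dim_ge_emb_of (m : ℕ) {v : Dim_B m I → ℂ} {a : I} {c : ℤ}
    (h : ∀ r : ↥(Finset.Ico (-(m : ℤ)) m), (r : ℤ) < c → v (r, a) = 0) :
    Ge c (Dim_emb m v a) := by
  intro k hk
  rw [Dim_coeff_emb]
  split_ifs with h1
  · exact h ⟨k, h1⟩ hk
  · rfl

omit [Fintype I] [DecidableEq I] in
theorem Dim_ge_emb (m : ℕ) (v : Dim_B m I → ℂ) : GeV (-(m : ℤ)) (Dim_emb m v) :=
  fun _ => Dim_ge_emb_of m fun r hr => absurd (Finset.mem_Ico.1 r.2).1 (not_le.2 hr)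

omit [Fintype I] [DecidableEq I] in
theorem Dim_emb_eq_zero (m : ℕ) {v : Dim_B m I → ℂ} {a : I} (h : ∀ r, v (r, a) = 0) :
    Dim_emb m v a = 0 :=
  eq_zero_of_ge fun _ => Dim_ge_emb_of m fun r _ => h r

omit [Fintype I] [DecidableEq I] in
theorem Dim_sub_emb_res (m : ℕ) {w : I → LP} (hw : GeV (-(m : ℤ)) w) :
    GeV m (w - Dim_emb m (Dim_res m w)) := by
  intro a k hk
  rw [Pi.sub_apply, coeff_sub', Dim_coeff_emb]
  split_ifs with h
  · exact sub_self _
  · rw [hw a k, sub_zero]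
    by_contra h1
    exact h (Finset.mem_Ico.2 ⟨not_lt.1 h1, hk⟩)

omit [Fintype I] [DecidableEq I] in
theorem Dim_res_eq_zero (m : ℕ) {w : I → LP} (hw : GeV m w) : Dim_res m w = 0 := by
  funext q
  exact hw q.2 _ (Finset.mem_Ico.1 q.1.2).2

theorem Dim_geV_mul {c : ℤ} {M : LM I} {w : I → LP} (hM : GeM 0 M) (hw : GeV c w) :
    GeV c (M *ᵥ w) := by
  have := hM.mulVec hw
  rwa [zero_add] at this

/-- Truncated multiplication. -/
def Dim_act (m : ℕ) (M : LM I) : (Dim_B m I → ℂ) →ₗ[ℂ] (Dim_B m I → ℂ) :=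
  Dim_res m ∘ₗ (Matrix.mulVecLin M).restrictScalars ℂ ∘ₗ Dim_emb m

theorem Dim_act_act (m : ℕ) {h h' : LM I} (hh : GeM 0 h) (hh' : GeM 0 h') (e : h * h' = 1)
    (v : Dim_B m I → ℂ) : Dim_act m h (Dim_act m h' v) = v := by
  have h1 := Dim_sub_emb_res m (Dim_geV_mul hh' (Dim_ge_emb m v))
  have h2 := Dim_res_eq_zero m (Dim_geV_mul hh h1)
  rw [Matrix.mulVec_sub, map_sub, Matrix.mulVec_mulVec, e, Matrix.one_mulVec, Dim_res_emb,
    sub_eq_zero] at h2
  exact h2.symm

omit [DecidableEq I] [DecidableEq Λ] in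
theorem Dim_bd_mulVec {lab : I → Λ} {M : LM I} (hM : BD lab M) {w : I → LP} {i : Λ}
    (hw : ∀ a, lab a ≠ i → w a = 0) {a : I} (ha : lab a ≠ i) : (M *ᵥ w) a = 0 := by
  refine Finset.sum_eq_zero fun b _ => ?_
  change M a b * w b = 0
  by_cases hb : lab b = i
  · rw [hM a b (hb ▸ ha), zero_mul]
  · rw [hw b hb, mul_zero]

/-- Vectors supported on a set of positions. -/
def Dim_CV (m : ℕ) (P : ℤ → I → Prop) : Submodule ℂ (Dim_B m I → ℂ) where
  carrier := {v | ∀ q, ¬ P (q.1 : ℤ) q.2 → v q = 0}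
  zero_mem' := fun _ _ => rfl
  add_mem' := fun hv hw q hq => by rw [Pi.add_apply, hv q hq, hw q hq, add_zero]
  smul_mem' := fun c v hv q hq => by rw [Pi.smul_apply, hv q hq, smul_zero]

open Classical in
/-- The linear map whose kernel is the part of the lattice on a set of positions. -/
def Dim_Phi (m : ℕ) (P : ℤ → I → Prop) (Γ : LM I) :
    (Dim_B m I → ℂ) →ₗ[ℂ] (Dim_B m I ⊕ Dim_B (2 * m) I → ℂ) where
  toFun v := Sum.elim (fun q => if P (q.1 : ℤ) q.2 then 0 else v q) fun q =>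
    if (q.1 : ℤ) < 0 then ((adj Γ *ᵥ Dim_emb m v) q.2).coeff (q.1 : ℤ) else 0
  map_add' v w := by
    funext q
    rcases q with q | q
    · simp only [Sum.elim_inl, Pi.add_apply]
      split_ifs <;> simp
    · simp only [Sum.elim_inr, Pi.add_apply, map_add, Matrix.mulVec_add, coeff_add']
      split_ifs <;> simp
  map_smul' c v := by
    funext q
    rcases q with q | q
    · simp only [Sum.elim_inl, Pi.smul_apply, RingHom.id_apply]
      split_ifs <;> simp
    · simp only [Sum.elim_inr, Pi.smul_apply, RingHom.id_apply, map_smul, Matrix.mulVec_smul]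
      split_ifs
      · rfl
      · simp

omit [DecidableEq I] in
theorem Dim_mem_ker (m : ℕ) (P : ℤ → I → Prop) {Γ : LM I} (hΓ : LeM m Γ) (v : Dim_B m I → ℂ) :
    v ∈ LinearMap.ker (Dim_Phi m P Γ) ↔
      (∀ q, ¬ P (q.1 : ℤ) q.2 → v q = 0) ∧ GeV 0 (adj Γ *ᵥ Dim_emb m v) := by
  classical
  have hg : GeV (-(m : ℤ) + -(m : ℤ)) (adj Γ *ᵥ Dim_emb m v) :=
    (geM_adj.2 (by rwa [neg_neg])).mulVec (Dim_ge_emb m v)
  rw [LinearMap.mem_ker]
  constructor
  · intro h
    refine ⟨fun q hq => ?_, fun a k hk => ?_⟩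
    · have := congrFun h (Sum.inl q)
      change (if P (q.1 : ℤ) q.2 then 0 else v q) = 0 at this
      rwa [if_neg hq] at this
    · rcases lt_or_ge k (-(m : ℤ) + -(m : ℤ)) with h1 | h1
      · exact hg a k h1
      · have hk' : k ∈ Finset.Ico (-((2 * m : ℕ) : ℤ)) ((2 * m : ℕ) : ℤ) := by
          rw [Finset.mem_Ico]
          push_cast
          omega
        have := congrFun h (Sum.inr (⟨k, hk'⟩, a))
        change (if k < 0 then ((adj Γ *ᵥ Dim_emb m v) a).coeff k else 0) = 0 at this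
        rwa [if_pos hk] at this
  · rintro ⟨h1, h2⟩
    funext q
    rcases q with q | q
    · change (if P (q.1 : ℤ) q.2 then 0 else v q) = 0
      split_ifs with h
      · rfl
      · exact h1 q h
    · change (if (q.1 : ℤ) < 0 then ((adj Γ *ᵥ Dim_emb m v) q.2).coeff (q.1 : ℤ) else 0) = 0
      split_ifs with h
      · exact h2 _ _ h
      · rfl

theorem Dim_closed (m : ℕ) (P : ℤ → I → Prop) (r : ℤ) :
    IsClosed {γ : ℤ → Matrix I I ℂ |
      r ≤ (finrank ℂ (LinearMap.ker (Dim_Phi m P (toL m γ))) : ℤ)} := by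
  classical
  refine Dim_usc (fun γ => Dim_Phi m P (toL m γ)) (fun v => continuous_pi fun q => ?_) r
  rcases q with q | q
  · exact continuous_const (y := if P (q.1 : ℤ) q.2 then 0 else v q)
  · change Continuous fun γ : ℤ → Matrix I I ℂ =>
      if (q.1 : ℤ) < 0 then ((adj (toL m γ) *ᵥ Dim_emb m v) q.2).coeff (q.1 : ℤ) else 0
    split_ifs with h
    · have h1 := ((cFam_toL (S := univ) m continuousOn_id).adjoint.mul
        (CFam.const univ (Matrix.of fun b _ => Dim_emb m v b))).cont q.2 q.2 (q.1 : ℤ)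
      exact continuousOn_univ.1 h1
    · exact continuous_const

omit [DecidableEq I] in
theorem Dim_finrank_CV (m : ℕ) (P : ℤ → I → Prop) [∀ r a, Decidable (P r a)] :
    (finrank ℂ (Dim_CV m P) : ℤ) =
      ∑ a, ∑ r ∈ Finset.Ico (-(m : ℤ)) m, if P r a then (1 : ℤ) else 0 := by
  let e : Dim_CV m P ≃ₗ[ℂ] ({q : Dim_B m I // P (q.1 : ℤ) q.2} → ℂ) :=
    { toFun := fun v q => v.1 q.1
      map_add' := fun _ _ => rfl
      map_smul' := fun _ _ => rfl
      invFun := fun y => ⟨fun q => if h : P (q.1 : ℤ) q.2 then y ⟨q, h⟩ else 0,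
        fun q hq => dif_neg hq⟩
      left_inv := fun v => Subtype.ext (funext fun q => by
        by_cases h : P (q.1 : ℤ) q.2
        · exact dif_pos h
        · exact (dif_neg h).trans (v.2 q h).symm)
      right_inv := fun y => funext fun q => dif_pos q.2 }
  rw [e.finrank_eq, finrank_fintype_fun_eq_card, Fintype.card_subtype, Finset.card_filter]
  push_cast
  rw [Fintype.sum_prod_type_right]
  exact Finset.sum_congr rfl fun a _ =>
    Finset.sum_coe_sort (Finset.Ico (-(m : ℤ)) m) fun r => if P r a then (1 : ℤ) else 0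

theorem Dim_count (m : ℕ) {c : ℤ} (h1 : -(m : ℤ) ≤ c) (h2 : c ≤ m) :
    (∑ r ∈ Finset.Ico (-(m : ℤ)) m, if c ≤ r then (1 : ℤ) else 0) = m - c := by
  rw [Finset.sum_boole]
  have : (Finset.Ico (-(m : ℤ)) m).filter (fun r => c ≤ r) = Finset.Ico c m := by
    ext r
    simp only [Finset.mem_filter, Finset.mem_Ico]
    omega
  rw [this, Int.card_Ico]
  omega

/-- The dimension on a double coset. -/
theorem Dim_fact {lab : I → Λ} {m : ℕ} {l : I → ℤ} (hl : InBox m l) {Γ : LM I}
    (hΓ : Loop lab m Γ) (hF : Fact lab l Γ) (i : Λ) {j : ℤ} (hj : -(m : ℤ) ≤ j) (hj' : j ≤ m) :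
    (finrank ℂ (LinearMap.ker (Dim_Phi m (fun r a => lab a = i ∧ j ≤ r) Γ)) : ℤ) =
      ∑ a ∈ Finset.univ.filter (fun a => lab a = i), ((m : ℤ) - max j (l a)) := by
  obtain ⟨h, h', g, g', hh, hh', hg, hg', bh, bh', -, -, eh, eg, rfl⟩ := hF
  have eh' : h' * h = 1 := mul_eq_one_comm.1 eh
  have hadj : adj (h * tL l * g) = g' * tL (-l) * h' := by
    have e1 : h * tL l * g * (g' * tL (-l) * h') = 1 := by
      calc h * tL l * g * (g' * tL (-l) * h') = h * (tL l * (g * g') * tL (-l)) * h' := by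
            simp only [mul_assoc]
        _ = 1 := by rw [eg, mul_one, tL_mul_neg, mul_one, eh]
    calc adj (h * tL l * g) = adj (h * tL l * g) * (h * tL l * g * (g' * tL (-l) * h')) := by
          rw [e1, mul_one]
      _ = g' * tL (-l) * h' := by rw [← mul_assoc, hΓ.unit, one_mul]
  let e : (Dim_B m I → ℂ) ≃ₗ[ℂ] (Dim_B m I → ℂ) :=
    LinearEquiv.ofLinearMap (Dim_act m h') (Dim_act m h)
      (LinearMap.ext fun v => Dim_act_act m hh' hh eh' v)
      (LinearMap.ext fun v => Dim_act_act m hh hh' eh v)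
  have hmap : (LinearMap.ker (Dim_Phi m (fun r a => lab a = i ∧ j ≤ r) (h * tL l * g))).map
      (e : (Dim_B m I → ℂ) →ₗ[ℂ] (Dim_B m I → ℂ)) =
      Dim_CV m fun r a => lab a = i ∧ max j (l a) ≤ r := by
    apply le_antisymm
    · rintro _ ⟨v, hv, rfl⟩
      obtain ⟨h1, h2⟩ := (Dim_mem_ker m _ hΓ.le v).1 hv
      have h3 : GeV j (Dim_emb m v) := fun a => Dim_ge_emb_of m fun r hr =>
        h1 (r, a) fun hP => absurd hP.2 (not_le.2 hr)
      have h4 : ∀ a, lab a ≠ i → Dim_emb m v a = 0 := fun a ha =>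
        Dim_emb_eq_zero m fun r => h1 (r, a) fun hP => ha hP.1
      have h5 := Dim_geV_mul hg h2
      rw [hadj, Matrix.mulVec_mulVec, ← mul_assoc, ← mul_assoc, eg, one_mul,
        ← Matrix.mulVec_mulVec] at h5
      intro q hq
      change ((h' *ᵥ Dim_emb m v) q.2).coeff (q.1 : ℤ) = 0
      by_cases ha : lab q.2 = i
      · have hlt : (q.1 : ℤ) < max j (l q.2) := not_le.1 fun hle => hq ⟨ha, hle⟩
        rcases lt_max_iff.1 hlt with h6 | h6
        · exact Dim_geV_mul hh' h3 _ _ h6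
        · have h7 := h5 q.2
          rw [tL_mulVec, ge_T_mul] at h7
          exact h7 _ (by simpa using h6)
      · rw [Dim_bd_mulVec bh' h4 ha, coeff_zero']
    · intro y hy
      refine ⟨Dim_act m h y, (Dim_mem_ker m _ hΓ.le _).2 ⟨fun q hq => ?_, ?_⟩,
        Dim_act_act m hh' hh eh' y⟩
      · have h3 : GeV j (Dim_emb m y) := fun a => Dim_ge_emb_of m fun r hr =>
          hy (r, a) fun hP => absurd ((le_max_left _ _).trans hP.2) (not_le.2 hr)
        have h4 : ∀ a, lab a ≠ i → Dim_emb m y a = 0 := fun a ha =>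
          Dim_emb_eq_zero m fun r => hy (r, a) fun hP => ha hP.1
        change ((h *ᵥ Dim_emb m y) q.2).coeff (q.1 : ℤ) = 0
        by_cases ha : lab q.2 = i
        · exact Dim_geV_mul hh h3 _ _ (not_le.1 fun hle => hq ⟨ha, hle⟩)
        · rw [Dim_bd_mulVec bh h4 ha, coeff_zero']
      · have h1 := Dim_sub_emb_res m (Dim_geV_mul hh (Dim_ge_emb m y))
        have h2 : GeV (-(m : ℤ) + m) _ := (geM_adj.2 (by simpa using hΓ.le)).mulVec h1
        rw [neg_add_cancel, Matrix.mulVec_sub] at h2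
        have h3 : GeV 0 (adj (h * tL l * g) *ᵥ h *ᵥ Dim_emb m y) := by
          rw [hadj, Matrix.mulVec_mulVec, mul_assoc, eh', mul_one, ← Matrix.mulVec_mulVec]
          refine Dim_geV_mul hg' fun a => ?_
          rw [tL_mulVec, ge_T_mul]
          exact Dim_ge_emb_of m fun r hr => hy (r, a) fun hP =>
            absurd ((le_max_right _ _).trans hP.2) (not_le.2 (by simpa using hr))
        intro a
        have h4 := (h3 a).sub (h2 a)
        rwa [Pi.sub_apply, sub_sub_cancel] at h4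
  rw [← LinearEquiv.finrank_map_eq e, hmap, Dim_finrank_CV, Finset.sum_filter]
  refine Finset.sum_congr rfl fun a _ => ?_
  by_cases ha : lab a = i
  · simp only [ha, true_and, if_true]
    exact Dim_count m (hj.trans (le_max_left _ _)) (max_le hj' (hl a).2)
  · simp only [ha, false_and, if_false, Finset.sum_const_zero]

theorem front_core (lab : I → Λ) (m : ℕ) {l : I → ℤ} (hl : InBox m l) (i : Λ) {j : ℤ}
    (hj : -(m : ℤ) ≤ j) (hj' : j ≤ m) :
    ∃ F : Set (ℤ → Matrix I I ℂ), IsClosed F ∧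
      (∀ γ, Loop lab m (toL m γ) → Fact lab l (toL m γ) → γ ∈ F) ∧
      ∀ γ ∈ F, Loop lab m (toL m γ) → ∀ l', InBox m l' → Fact lab l' (toL m γ) →
        ∑ a ∈ Finset.univ.filter (fun a => lab a = i), max j (l' a) ≤
          ∑ a ∈ Finset.univ.filter (fun a => lab a = i), max j (l a) := by
  refine ⟨_, Dim_closed m (fun r a => lab a = i ∧ j ≤ r)
    (∑ a ∈ Finset.univ.filter (fun a => lab a = i), ((m : ℤ) - max j (l a))),
    fun γ hΓ hF => (Dim_fact hl hΓ hF i hj hj').ge, fun γ hγ hΓ l' hl' hF => ?_⟩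
  have h1 := Dim_fact hl' hΓ hF i hj hj'
  rw [mem_ofPred_eq, h1, Finset.sum_sub_distrib, Finset.sum_sub_distrib] at hγ
  omega

theorem closed_core (lab : I → Λ) (m : ℕ) {l : I → ℤ} (hl : InBox m l) :
    ∃ F : Set (ℤ → Matrix I I ℂ), IsClosed F ∧
      (∀ γ n, Loop lab m (toL m γ) → Cell lab m l (toL m γ) n → γ ∈ F) ∧
      ∀ γ ∈ F, Loop lab m (toL m γ) → ∀ U ∈ Matrix.unitaryGroup I ℂ, BD lab U →
        ∀ n, Cell lab m l (cj U (toL m γ)) n → ∀ a b, U a b ≠ 0 → l a = l b := by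
  have hle : ∀ (Γ : LM I), LeM m Γ → ∀ (i : Λ) (j : ℤ),
      LinearMap.ker (Dim_Phi m (fun r a => (lab a = i ∧ j ≤ r) ∧ ¬(r = j ∧ j < l a)) Γ) ≤
        LinearMap.ker (Dim_Phi m (fun r a => lab a = i ∧ j ≤ r) Γ) := by
    intro Γ hΓ i j v hv
    obtain ⟨h1, h2⟩ := (Dim_mem_ker m _ hΓ v).1 hv
    exact (Dim_mem_ker m _ hΓ v).2 ⟨fun q hq => h1 q fun hP => hq hP.1, h2⟩
  refine ⟨⋂ i : Λ, ⋂ j ∈ Finset.Icc (-(m : ℤ)) m, {γ |
      (∑ a ∈ Finset.univ.filter (fun a => lab a = i), ((m : ℤ) - max j (l a))) ≤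
        (finrank ℂ (LinearMap.ker (Dim_Phi m
          (fun r a => (lab a = i ∧ j ≤ r) ∧ ¬(r = j ∧ j < l a)) (toL m γ))) : ℤ)},
    isClosed_iInter fun i => isClosed_biInter fun j _ => Dim_closed m _ _, fun γ n hΓ hC => ?_,
    fun γ hγ hΓ U hU hb n hC => ?_⟩
  · refine mem_iInter.2 fun i => mem_iInter₂.2 fun j hj => ?_
    obtain ⟨hj1, hj2⟩ := Finset.mem_Icc.1 hj
    have hF : Fact lab l (toL m γ) :=
      Cell.fact hΓ hl (one_mem _) (BD.one lab) (by rwa [cj_one])
    rw [mem_ofPred_eq, ← Dim_fact hl hΓ hF i hj1 hj2, Nat.cast_le]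
    refine Submodule.finrank_mono fun v hv => ?_
    obtain ⟨h1, h2⟩ := (Dim_mem_ker m _ hΓ.le v).1 hv
    refine (Dim_mem_ker m _ hΓ.le v).2 ⟨fun q hq => ?_, h2⟩
    by_cases hP : lab q.2 = i ∧ j ≤ (q.1 : ℤ)
    · obtain ⟨h3, h4⟩ : (q.1 : ℤ) = j ∧ j < l q.2 := by
        by_contra h0
        exact hq ⟨hP, h0⟩
      have h5 : GeV j (Dim_emb m v) := fun a => Dim_ge_emb_of m fun r hr =>
        h1 (r, a) fun hP => absurd hP.2 (not_le.2 hr)
      have h6 := Dim_geV_mul hC.ge₂ h2 q.2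
      rw [Matrix.mulVec_mulVec, mul_assoc, hΓ.unit', mul_one, nfi, ← Matrix.mulVec_mulVec,
        tL_mulVec, ge_T_mul] at h6
      have h7 := h6 j (by simpa using h4)
      have h8 := (hC.nil.ge_ninv m).coeff_mulVec h5 q.2
      rw [zero_add, h7, hC.nil.cf_ninv, Matrix.one_mulVec, ← h3, Dim_coeff_emb,
        dif_pos q.1.2] at h8
      exact h8.symm
    · exact h1 q hP
  · have hU' : star U ∈ Matrix.unitaryGroup I ℂ := Unitary.star_mem hU
    have hF : Fact lab l (toL m γ) := Cell.fact hΓ hl hU hb hC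
    have key : ∀ a b, l b < l a → star U a b = 0 := by
      intro a b hab
      have hj1 := (hl b).1
      have hj2 : l b < m := hab.trans_le (hl a).2
      have h1 := mem_iInter₂.1 (mem_iInter.1 hγ (lab b)) (l b) (Finset.mem_Icc.2 ⟨hj1, hj2.le⟩)
      rw [mem_ofPred_eq, ← Dim_fact hl hΓ hF (lab b) hj1 hj2.le, Nat.cast_le] at h1
      have heq := Submodule.eq_of_le_of_finrank_le (hle _ hΓ.le (lab b) (l b)) h1
      set M : LM I := cM (star U) * (1 + n) with hM
      have hM0 : GeM 0 M := (GeM.const _).mul₀ hC.nil.ge_one_add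
      have hMb : BD lab M := hb.str.const.mul ((BD.one lab).add hC.nil.bd)
      set e : I → LP := Pi.single b (T (l b)) with he
      have he0 : GeV (l b) e := fun c => by
        by_cases hc : c = b
        · rw [hc, he, Pi.single_eq_same]
          exact Ge.mon _
        · rw [he, Pi.single_eq_of_ne hc]
          exact Ge.zero _
      have hy : GeV (l b) (M *ᵥ e) := Dim_geV_mul hM0 he0
      have hym : GeV (-(m : ℤ)) (M *ᵥ e) := fun c => (hy c).mono hj1
      have hyL : GeV 0 (adj (toL m γ) *ᵥ M *ᵥ e) := by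
        have e1 : e = tL l *ᵥ Pi.single b 1 := by
          funext c
          rw [tL_mulVec]
          by_cases hc : c = b
          · rw [hc, he, Pi.single_eq_same, Pi.single_eq_same, mul_one]
          · rw [he, Pi.single_eq_of_ne hc, Pi.single_eq_of_ne hc, mul_zero]
        have e2 : adj (toL m γ) * M * tL l = cM (star U) * (adj (cj U (toL m γ)) * nf l n) := by
          rw [adj_cj, cj, nf, hM]
          simp only [← mul_assoc]
          rw [← cM_mul, Unitary.star_mul_self_of_mem hU, cM_one, one_mul]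
        rw [e1, Matrix.mulVec_mulVec, Matrix.mulVec_mulVec, e2]
        refine Dim_geV_mul ((GeM.const _).mul₀ hC.ge₁) fun c => ?_
        by_cases hc : c = b
        · rw [hc, Pi.single_eq_same]
          exact Ge.one
        · rw [Pi.single_eq_of_ne hc]
          exact Ge.zero _
      have hmem : Dim_res m (M *ᵥ e) ∈
          LinearMap.ker (Dim_Phi m (fun r c => lab c = lab b ∧ l b ≤ r) (toL m γ)) := by
        refine (Dim_mem_ker m _ hΓ.le _).2 ⟨fun q hq => ?_, fun c => ?_⟩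
        · rw [Dim_res_apply]
          by_cases hc : lab q.2 = lab b
          · exact hy _ _ (not_le.1 fun h0 => hq ⟨hc, h0⟩)
          · rw [Dim_bd_mulVec hMb (i := lab b) (fun c hc' => ?_) hc, coeff_zero']
            rw [he, Pi.single_eq_of_ne fun h0 => hc' (congrArg lab h0)]
        · have h2 : GeV (-(m : ℤ) + m) _ :=
            (geM_adj.2 (by simpa using hΓ.le)).mulVec (Dim_sub_emb_res m hym)
          rw [neg_add_cancel, Matrix.mulVec_sub] at h2
          have h4 := (hyL c).sub (h2 c)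
          rwa [Pi.sub_apply, sub_sub_cancel] at h4
      rw [← heq] at hmem
      have h5 := ((Dim_mem_ker m _ hΓ.le _).1 hmem).1
        (⟨l b, Finset.mem_Ico.2 ⟨hj1, hj2⟩⟩, a) fun hP => hP.2 ⟨rfl, hab⟩
      have h6 := hM0.coeff_mulVec he0 a
      rw [zero_add] at h6
      rw [Dim_res_apply] at h5
      change ((M *ᵥ e) a).coeff (l b) = 0 at h5
      have h7 : (fun c => (e c).coeff (l b)) = Pi.single b 1 := by
        funext c
        by_cases hc : c = b
        · rw [hc, he, Pi.single_eq_same, Pi.single_eq_same, coeff_T', if_pos rfl]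
        · rw [he, Pi.single_eq_of_ne hc, Pi.single_eq_of_ne hc, coeff_zero']
      rw [h5, h7, hM, cf_cM_mul, hC.nil.cf_one_add, mul_one, Matrix.mulVec_single_one] at h6
      exact h6.symm
    intro a b hab
    refine (tri_unitary hU' key b a ?_).symm
    rwa [Matrix.star_apply, star_ne_zero]

end HS

end Pool.Agent.HK
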