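import Pool.Agent.P.MP_1206ce_ag.ST.Act
import Pool.Agent.P.MP_1206ce_ag.ST.Cover
import Pool.Agent.P.MP_1206ce_ag.ST.Dim
import Pool.Agent.P.MP_1206ce_ag.ST.Comb

/-! Orbit structure of the cells. -/

open scoped Topology Matrix
open Filter Set LaurentPolynomial

noncomputable section

namespace Pool.Agent.HK

open HS

namespace Qv

variable (Q : Qv) (m d : ℕ)

theorem st_transport {l l' : Q.Lam} {u : Matrix Q.Var Q.Var ℂ} (hu : u ∈ Q.KK)
    (h : ∀ a b, Q.gau u a b ≠ 0 → Q.lv l' a = Q.lv l b) {p : Q.Tr} (hp : p ∈ Q.RCell m d l) :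
    Q.actR u p ∈ Q.RCell m d l' := by
  obtain ⟨h1, n, hn⟩ := hp
  refine ⟨Q.st_actR_mem_RR hu h1, cj (Q.gau u) n, ?_⟩
  rw [Q.st_toL_actR]
  exact hn.conj (Q.st_gau_unitary hu) (Q.st_gau_bd hu) h
theorem st_sat_subset (l : Q.Lam) : Q.Sat (Q.RCell m d l) ⊆ Q.RR m d := by
  rintro p ⟨u, hu, hp⟩
  rw [← Q.st_actR_star hu p]
  exact Q.st_actR_mem_RR ((isGrp_KG _).star u hu) hp.1
theorem st_fact {l : Q.Lam} (hl : l ∈ Q.Box m) {p : Q.Tr} (hp : p ∈ Q.Sat (Q.RCell m d l)) :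
    Fact Q.vb (Q.lv l) (toL m p.1) := by
  have h0 := Q.st_sat_subset m d l hp
  obtain ⟨u, hu, -, n, hn⟩ := hp
  rw [Q.st_toL_actR] at hn
  exact Cell.fact (Q.st_loop h0.1) (Q.st_inBox.1 hl) (Q.st_gau_unitary hu) (Q.st_gau_bd hu) hn
theorem st_cover : ∀ p ∈ Q.RR m d, ∃ l ∈ Q.Box m, p ∈ Q.Sat (Q.RCell m d l) := by
  intro p hp
  obtain ⟨U, l₀, n, hU, hb, h1, hl, h0, hn⟩ :=
    exists_cell (Q.st_loop hp.1) none Q.st_single (Q.st_mem_Om.1 hp.1).2.2
  obtain ⟨u, hu, rfl⟩ := Q.st_exists_gau hU hb h1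
  have e : Q.lv (fun k => l₀ (some k)) = l₀ := by
    funext a
    cases a with
    | none => exact h0.symm
    | some k => rfl
  refine ⟨fun k => l₀ (some k), Q.st_inBox.2 (by rw [e]; exact hl), u, hu,
    Q.st_actR_mem_RR hu hp, n, ?_⟩
  rw [Q.st_toL_actR, e]
  exact hn
theorem st_inv : ∀ l ∈ Q.Box m, InvX (KG (Q.labl l)) Q.actR (Q.RCell m d l) := by
  intro l _ u hu p hp
  have hu' := Q.st_labl_subset l hu
  exact Q.st_transport m d hu' ((Q.st_mem_labl hu').1 hu) hp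
theorem st_stab : ∀ l ∈ Q.Box m, ∀ p ∈ Q.RCell m d l, ∀ u ∈ Q.KK, Q.actR u p ∈ Q.RCell m d l →
    u ∈ KG (Q.labl l) := by
  rintro l hl p ⟨h1, n, hn⟩ u hu ⟨-, n', hn'⟩
  rw [Q.st_toL_actR] at hn'
  exact (Q.st_mem_labl hu).2 (Cell.key (Q.st_loop h1.1) (Q.st_inBox.1 hl) (Q.st_inBox.1 hl)
    (Q.st_gau_unitary hu) hn hn')
theorem st_weyl : ∀ l ∈ Q.Box m, ∀ w ∈ Wl Q.lab, ∀ p ∈ Q.RCell m d l,
    Q.actR (pmat w) p ∈ Q.RCell m d (Q.wl w l) := by
  intro l _ w hw p hp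
  exact Q.st_transport m d (pmat_mem_KG hw) (Q.st_pmat hw l) hp
/-- `Cell.key` and `exists_perm_of_det_ne_zero` for `u`. -/
theorem st_disj : ∀ l ∈ Q.Box m, ∀ l' ∈ Q.Box m, ∀ p ∈ Q.RCell m d l,
    p ∈ Q.Sat (Q.RCell m d l') → ∃ w ∈ Wl Q.lab, l' = Q.wl w l := by
  rintro l hl l' hl' p ⟨h1, n, hn⟩ ⟨u, hu, -, n', hn'⟩
  rw [Q.st_toL_actR] at hn'
  have key := Cell.key (Q.st_loop h1.1) (Q.st_inBox.1 hl) (Q.st_inBox.1 hl')
    (Q.st_gau_unitary hu) hn hn'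
  have hdet : u.det ≠ 0 := by
    intro h
    have h2 := congrArg Matrix.det ((isGrp_KG Q.lab).mul_star hu)
    rw [Matrix.det_mul, h, zero_mul, Matrix.det_one] at h2
    exact zero_ne_one h2
  obtain ⟨σ, hσ⟩ := exists_perm_of_det_ne_zero hdet
  have hlab : ∀ b, Q.lab (σ b) = Q.lab b := fun b => by
    by_contra h
    exact hσ b (hu.2 _ _ h)
  refine ⟨σ, mem_Wl.2 hlab, funext fun k => ?_⟩
  have h2 := hσ (σ.symm (Sum.inl k))
  have h3 := hlab (σ.symm (Sum.inl k))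
  rw [Equiv.apply_symm_apply] at h2 h3
  show l' k = Sum.elim l 0 (σ.symm (Sum.inl k))
  generalize σ.symm (Sum.inl k) = b at h2 h3
  cases b with
  | inl k' => exact key (some k) (some k') h2
  | inr a => exact absurd h3 (by simp [lab])
theorem st_closedIn : ∀ l ∈ Q.Box m, ClosedIn (Q.RCell m d l) (Q.Sat (Q.RCell m d l)) := by
  intro l hl
  obtain ⟨F, hF, h1, h2⟩ := closed_core Q.vb m (Q.st_inBox.1 hl)
  refine ⟨Prod.fst ⁻¹' F, hF.preimage continuous_fst, Subset.antisymm ?_ ?_⟩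
  · intro p hp
    refine ⟨⟨1, (isGrp_KG _).one, by rw [Q.st_actR_one]; exact hp⟩, ?_⟩
    obtain ⟨h0, n, hn⟩ := hp
    exact h1 _ n (Q.st_loop h0.1) hn
  · rintro p ⟨hp, hpF⟩
    have h0 := Q.st_sat_subset m d l hp
    obtain ⟨u, hu, hq⟩ := hp
    obtain ⟨n, hn⟩ := hq.2
    rw [Q.st_toL_actR] at hn
    have hu' : u ∈ KG (Q.labl l) := (Q.st_mem_labl hu).2
      (h2 _ hpF (Q.st_loop h0.1) _ (Q.st_gau_unitary hu) (Q.st_gau_bd hu) n hn)
    rw [← Q.st_actR_star hu p]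
    exact Q.st_inv m d l hl _ ((isGrp_KG _).star u hu') _ hq
theorem Orb_sum (l : Q.Lam) (i : Fin Q.nI) :
    ∑ a ∈ Finset.univ.filter (fun a => Q.vb a = some i), Q.lv l a =
      ∑ k ∈ Finset.univ.filter (fun k => Q.vt k = i), l k := by
  rw [Finset.sum_filter, Finset.sum_filter, Fintype.sum_option]
  simp [vb, lv]

theorem Orb_nsq (l : Q.Lam) : ∑ a, Q.lv l a ^ 2 = Q.nsq l := by
  rw [Fintype.sum_option]
  simp [lv, nsq]

theorem Orb_det {l : Q.Lam} (hl : l ∈ Q.Box m) {p : Q.Tr} (hp : p ∈ Q.Sat (Q.RCell m d l))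
    (i : Option (Fin Q.nI)) (z : ℂˣ) :
    (blk Q.vb i ((toL m p.1).map (ev z))).det =
      (z : ℂ) ^ (∑ a ∈ Finset.univ.filter (fun a => Q.vb a = i), Q.lv l a) :=
  (Q.st_fact m d hl hp).det_blk (Q.st_loop (Q.st_sat_subset m d l hp).1).base i z

theorem Orb_cont (i : Option (Fin Q.nI)) (z : ℂˣ) :
    Continuous fun p : Q.Tr => (blk Q.vb i ((toL m p.1).map (ev z))).det := by
  have h : Continuous fun p : Q.Tr => (toL m p.1).map (ev z) := by
    simp only [map_ev_toL]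
    refine continuous_finsetSum _ fun k _ => ?_
    have h1 : Continuous fun p : Q.Tr => p.1 k := (continuous_apply k).comp continuous_fst
    exact h1.const_smul ((z : ℂ) ^ k)
  refine Continuous.matrix_det (continuous_matrix fun a b => ?_)
  simp only [blk, Matrix.of_apply]
  split_ifs
  · exact h.matrix_elem a b
  · exact continuous_const
  · exact continuous_const

theorem st_charge : ∀ l ∈ Q.Box m, ∀ p ∈ Q.Sat (Q.RCell m d l), ∀ (i : Fin Q.nI) (z : ℂ),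
    ‖z‖ = 1 → Matrix.det (Matrix.of fun a b => if Q.vb a = some i ∧ Q.vb b = some i then
      Q.evl m p.1 z a b else if a = b then 1 else 0) =
      z ^ (∑ k ∈ Finset.univ.filter (fun k => Q.vt k = i), l k) := by
  intro l hl p hp i z hz
  have h0 : z ≠ 0 := by
    rintro rfl
    simp at hz
  have h := Q.Orb_det m d hl hp (some i) (Units.mk0 z h0)
  rw [Q.Orb_sum, ← Q.st_evl] at h
  exact h
/-- `front_core`, closedness of the determinant condition, `major`; in the case of a permutation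
`σ` transport by the permutation matrix of `σ` (`st_exists_gau`). -/
theorem st_front : ∀ l ∈ Q.Box m, ∀ p ∈ closure (Q.Sat (Q.RCell m d l)),
    p ∈ Q.Sat (Q.RCell m d l) ∨
      ∃ l' ∈ Q.Box m, p ∈ Q.Sat (Q.RCell m d l') ∧ Q.nsq l' < Q.nsq l := by
  intro l hl p hp
  have h0 : p ∈ Q.RR m d := closure_minimal (Q.st_sat_subset m d l) (Q.st_isClosed_RR m d) hp
  obtain ⟨l', hl', hp'⟩ := Q.st_cover m d p h0
  have hle : ∀ (i : Option (Fin Q.nI)) (j : ℤ), -(m : ℤ) ≤ j → j ≤ m →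
      ∑ a ∈ Finset.univ.filter (fun a => Q.vb a = i), max j (Q.lv l' a) ≤
        ∑ a ∈ Finset.univ.filter (fun a => Q.vb a = i), max j (Q.lv l a) := by
    intro i j hj hj'
    obtain ⟨F, hF, h1, h2⟩ := front_core Q.vb m (Q.st_inBox.1 hl) i hj hj'
    have h3 : Q.Sat (Q.RCell m d l) ⊆ Prod.fst ⁻¹' F := fun q hq =>
      h1 _ (Q.st_loop (Q.st_sat_subset m d l hq).1) (Q.st_fact m d hl hq)
    exact h2 _ (closure_minimal h3 (hF.preimage continuous_fst) hp) (Q.st_loop h0.1) _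
      (Q.st_inBox.1 hl') (Q.st_fact m d hl' hp')
  have hch : ∀ i : Option (Fin Q.nI),
      ∑ a ∈ Finset.univ.filter (fun a => Q.vb a = i), Q.lv l' a =
        ∑ a ∈ Finset.univ.filter (fun a => Q.vb a = i), Q.lv l a := by
    intro i
    refine eq_of_zpow_eq fun z hz => ?_
    have hz0 : z ≠ 0 := by
      rintro rfl
      simp at hz
    have h1 := Q.Orb_det m d hl' hp' i (Units.mk0 z hz0)
    have h2 : Q.Sat (Q.RCell m d l) ⊆ {q : Q.Tr |
        (blk Q.vb i ((toL m q.1).map (ev (Units.mk0 z hz0)))).det =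
          z ^ (∑ a ∈ Finset.univ.filter (fun a => Q.vb a = i), Q.lv l a)} := fun q hq =>
      Q.Orb_det m d hl hq i (Units.mk0 z hz0)
    exact h1.symm.trans
      (closure_minimal h2 (isClosed_eq (Q.Orb_cont m i _) continuous_const) hp)
  rcases major Q.vb (Q.st_inBox.1 hl) (Q.st_inBox.1 hl') hle hch with h | ⟨σ, h1, h2⟩
  · rw [Q.Orb_nsq, Q.Orb_nsq] at h
    exact Or.inr ⟨l', hl', hp', h⟩
  · have hU : pmat σ⁻¹ ∈ KG Q.vb := pmat_mem_KG (inv_mem_Wl (mem_Wl.2 h1))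
    have hn : σ none = none := Q.st_single _ (h1 none)
    have hn' : σ⁻¹ none = none := by
      rw [Equiv.Perm.inv_eq_iff_eq, hn]
    obtain ⟨v, hv, e⟩ := Q.st_exists_gau hU.1 hU.2 (if_pos hn'.symm)
    obtain ⟨u, hu, hq⟩ := hp'
    refine Or.inl ⟨v * u, (isGrp_KG _).mul v hv u hu, ?_⟩
    rw [Q.st_actR_mul hv]
    refine Q.st_transport m d hv (fun a b hab => ?_) hq
    rw [e] at hab
    have h3 : a = σ⁻¹ b := by
      by_contra h3
      exact hab (if_neg h3)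
    rw [← h2 a, h3]
    simp

end Qv

end Pool.Agent.HK
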