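import Pool.Agent.P.MP_1206ce_ag.ST.LP

/-! Calculus of matrices of Laurent polynomials. -/

open scoped Topology Matrix
open Filter Set LaurentPolynomial

noncomputable section

namespace Pool.Agent.HK

namespace HS

variable {I Λ : Type} [Fintype I] [DecidableEq I]

theorem cf_apply (M : LM I) (k : ℤ) (a b : I) : cf M k a b = (M a b).coeff k := rfl
theorem ext_cf {M N : LM I} (h : ∀ k, cf M k = cf N k) : M = N := by
  ext a b k
  exact congrFun (congrFun (h k) a) b
theorem cf_add (M N : LM I) (k : ℤ) : cf (M + N) k = cf M k + cf N k := by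
  ext a b; exact coeff_add' _ _ k
theorem cf_sub (M N : LM I) (k : ℤ) : cf (M - N) k = cf M k - cf N k := by
  ext a b; exact coeff_sub' _ _ k
theorem cf_one (k : ℤ) : cf (1 : LM I) k = if k = 0 then 1 else 0 := by
  ext a b
  rw [cf_apply, Matrix.one_apply]
  by_cases h : a = b
  · subst h
    rw [if_pos rfl, coeff_one']
    split_ifs <;> simp
  · rw [if_neg h, coeff_zero']
    split_ifs <;> simp [h]
theorem cf_cM (U : Matrix I I ℂ) (k : ℤ) : cf (cM U) k = if k = 0 then U else 0 := by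
  ext a b
  change (C (U a b) : LP).coeff k = _
  rw [coeff_C']
  split_ifs <;> rfl
theorem cf_cM_mul (U : Matrix I I ℂ) (M : LM I) (k : ℤ) : cf (cM U * M) k = U * cf M k := by
  ext a b
  rw [cf_apply, Matrix.mul_apply, Matrix.mul_apply, coeff_sum']
  exact Finset.sum_congr rfl fun c _ => coeff_C_mul _ _ k
theorem cf_mul_cM (U : Matrix I I ℂ) (M : LM I) (k : ℤ) : cf (M * cM U) k = cf M k * U := by
  ext a b
  rw [cf_apply, Matrix.mul_apply, Matrix.mul_apply, coeff_sum']
  exact Finset.sum_congr rfl fun c _ => coeff_mul_C _ _ k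
theorem cf_cj (U : Matrix I I ℂ) (M : LM I) (k : ℤ) : cf (cj U M) k = U * cf M k * star U := by
  rw [cj, cf_mul_cM, cf_cM_mul]
theorem cf_smul (r : ℂ) (M : LM I) (k : ℤ) : cf ((C r : LP) • M) k = r • cf M k := by
  ext a b; exact coeff_C_mul r _ k
theorem cf_adj (M : LM I) (k : ℤ) : cf (adj M) k = star (cf M (-k)) := by
  ext a b; exact coeff_sL _ k
theorem cf_mul_sum (M N : LM I) (s : Finset ℤ) (hs : ∀ i, cf M i ≠ 0 → i ∈ s) (k : ℤ) :
    cf (M * N) k = ∑ i ∈ s, cf M i * cf N (k - i) := by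
  ext a b
  rw [cf_apply, Matrix.mul_apply, coeff_sum', Matrix.sum_apply]
  simp only [Matrix.mul_apply]
  rw [Finset.sum_comm]
  refine Finset.sum_congr rfl fun c _ => coeff_mul_sum _ _ s (fun i hi => hs i fun e => hi ?_) k
  exact congrFun (congrFun e a) c
theorem cf_toL (m : ℕ) (γ : ℤ → Matrix I I ℂ) (k : ℤ) :
    cf (toL m γ) k = if |k| ≤ m then γ k else 0 := by
  ext a b
  rw [cf_apply, toL, Matrix.of_apply, coeff_sum']
  simp only [coeff_CT, Finset.sum_ite_eq, Finset.mem_Icc, abs_le]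
  split_ifs <;> rfl
theorem cf_toL_eq {m : ℕ} {γ : ℤ → Matrix I I ℂ} (h : ∀ k : ℤ, (m : ℤ) < |k| → γ k = 0) :
    cf (toL m γ) = γ := by
  funext k
  rw [cf_toL]
  split_ifs with e
  · rfl
  · exact (h k (not_le.1 e)).symm
theorem toL_cf {m : ℕ} {M : LM I} (h₁ : GeM (-(m : ℤ)) M) (h₂ : LeM m M) : toL m (cf M) = M := by
  refine ext_cf fun k => congrFun (cf_toL_eq fun k hk => ?_) k
  ext a b
  rcases lt_abs.1 hk with h | h
  · exact h₂ a b k h
  · exact h₁ a b k (by omega)
theorem geM_toL (m : ℕ) (γ : ℤ → Matrix I I ℂ) : GeM (-(m : ℤ)) (toL m γ) := fun a b k hk => by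
  rw [← cf_apply, cf_toL, if_neg fun h => by have := (abs_le.1 h).1; omega]; rfl
theorem leM_toL (m : ℕ) (γ : ℤ → Matrix I I ℂ) : LeM m (toL m γ) := fun a b k hk => by
  rw [← cf_apply, cf_toL, if_neg fun h => by have := (abs_le.1 h).2; omega]; rfl
theorem toL_cj (m : ℕ) (U : Matrix I I ℂ) (γ : ℤ → Matrix I I ℂ) :
    toL m (fun k => U * γ k * star U) = cj U (toL m γ) := by
  refine ext_cf fun k => ?_
  rw [cf_cj, cf_toL, cf_toL]
  split_ifs <;> simp
theorem map_ev_toL (m : ℕ) (γ : ℤ → Matrix I I ℂ) (z : ℂˣ) :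
    (toL m γ).map (ev z) = ∑ k ∈ Finset.Icc (-(m : ℤ)) m, (z : ℂ) ^ k • γ k := by
  ext a b
  rw [Matrix.map_apply, toL, Matrix.of_apply, map_sum, Matrix.sum_apply]
  refine Finset.sum_congr rfl fun k _ => ?_
  rw [map_mul, ev_C, ev_T, Matrix.smul_apply, smul_eq_mul, mul_comm]

theorem geM_iff {c : ℤ} {M : LM I} : GeM c M ↔ ∀ k, k < c → cf M k = 0 :=
  ⟨fun h k hk => Matrix.ext fun a b => h a b k hk,
    fun h a b k hk => congrFun (congrFun (h k hk) a) b⟩
theorem leM_iff {c : ℤ} {M : LM I} : LeM c M ↔ ∀ k, c < k → cf M k = 0 :=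
  ⟨fun h k hk => Matrix.ext fun a b => h a b k hk,
    fun h a b k hk => congrFun (congrFun (h k hk) a) b⟩
theorem GeM.zero (c : ℤ) : GeM c (0 : LM I) := fun _ _ => Ge.zero c
theorem GeM.one : GeM 0 (1 : LM I) := fun a b => by
  rw [Matrix.one_apply]
  split_ifs
  · exact Ge.one
  · exact Ge.zero 0
theorem GeM.const (U : Matrix I I ℂ) : GeM 0 (cM U) := fun a b => Ge.const (U a b)
theorem GeM.mono {c c' : ℤ} {M : LM I} (h : GeM c M) (hc : c' ≤ c) : GeM c' M := fun a b =>
  (h a b).mono hc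
theorem GeM.add {c : ℤ} {M N : LM I} (hM : GeM c M) (hN : GeM c N) : GeM c (M + N) := fun a b =>
  (hM a b).add (hN a b)
theorem GeM.neg {c : ℤ} {M : LM I} (hM : GeM c M) : GeM c (-M) := fun a b => (hM a b).neg
theorem GeM.sub {c : ℤ} {M N : LM I} (hM : GeM c M) (hN : GeM c N) : GeM c (M - N) := fun a b =>
  (hM a b).sub (hN a b)
theorem GeM.sum {ι : Type} {c : ℤ} {s : Finset ι} {f : ι → LM I} (h : ∀ i ∈ s, GeM c (f i)) :
    GeM c (∑ i ∈ s, f i) := fun a b => by
  rw [Matrix.sum_apply]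
  exact Ge.sum fun i hi => h i hi a b
theorem GeM.mul {a b : ℤ} {M N : LM I} (hM : GeM a M) (hN : GeM b N) : GeM (a + b) (M * N) :=
  fun i j => by
    rw [Matrix.mul_apply]
    exact Ge.sum fun c _ => (hM i c).mul (hN c j)
theorem GeM.mul₀ {c : ℤ} {M N : LM I} (hM : GeM 0 M) (hN : GeM c N) : GeM c (M * N) := by
  simpa only [zero_add] using hM.mul hN
theorem GeM.mul₁ {c : ℤ} {M N : LM I} (hM : GeM c M) (hN : GeM 0 N) : GeM c (M * N) := by
  simpa only [add_zero] using hM.mul hN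
theorem GeM.pow {M : LM I} (hM : GeM 0 M) (k : ℕ) : GeM 0 (M ^ k) := by
  induction k with
  | zero => rw [pow_zero]; exact GeM.one
  | succ k ih => rw [pow_succ]; exact ih.mul₀ hM
theorem GeM.smul {c : ℤ} {M : LM I} (r : ℂ) (hM : GeM c M) : GeM c ((C r : LP) • M) := fun a b => by
  have h := (Ge.const r).mul (hM a b)
  rwa [zero_add] at h
theorem GeM.conj {c : ℤ} {M : LM I} (U : Matrix I I ℂ) (hM : GeM c M) : GeM c (cj U M) :=
  ((GeM.const U).mul₀ hM).mul₁ (GeM.const _)
theorem GeM.cf_mul {a b : ℤ} {M N : LM I} (hM : GeM a M) (hN : GeM b N) :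
    cf (M * N) (a + b) = cf M a * cf N b := by
  ext i j
  rw [cf_apply, Matrix.mul_apply, Matrix.mul_apply, coeff_sum']
  exact Finset.sum_congr rfl fun c _ => (hM i c).coeff_mul (hN c j)
theorem GeM.mulVec {a b : ℤ} {M : LM I} {v : I → LP} (hM : GeM a M) (hv : GeV b v) :
    GeV (a + b) (M *ᵥ v) := fun i =>
  Ge.sum (s := Finset.univ) (f := fun c => M i c * v c) fun c _ => (hM i c).mul (hv c)
theorem GeM.coeff_mulVec {a b : ℤ} {M : LM I} {v : I → LP} (hM : GeM a M) (hv : GeV b v) (i : I) :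
    ((M *ᵥ v) i).coeff (a + b) = (cf M a *ᵥ fun j => (v j).coeff b) i := by
  change (∑ c, M i c * v c).coeff (a + b) = ∑ c, (M i c).coeff a * (v c).coeff b
  rw [coeff_sum']
  exact Finset.sum_congr rfl fun c _ => (hM i c).coeff_mul (hv c)
theorem GeM.det {M : LM I} (hM : GeM 0 M) : Ge 0 M.det := by
  rw [Matrix.det_apply]
  refine Ge.sum fun σ _ => ?_
  have h : Ge 0 (∏ i, M (σ i) i) := Finset.prod_induction _ (Ge 0)
    (fun f g hf hg => by simpa only [add_zero] using hf.mul hg) Ge.one fun i _ => hM _ _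
  rcases Int.units_eq_one_or (Equiv.Perm.sign σ) with e | e <;> rw [e]
  · rwa [one_smul]
  · rw [Units.neg_smul, one_smul]; exact h.neg
theorem LeM.zero (c : ℤ) : LeM c (0 : LM I) := fun _ _ => Le.zero c
theorem LeM.one : LeM 0 (1 : LM I) := fun a b => by
  rw [Matrix.one_apply]
  split_ifs
  · exact Le.one
  · exact Le.zero 0
theorem LeM.const (U : Matrix I I ℂ) : LeM 0 (cM U) := fun a b => Le.const (U a b)
theorem LeM.mono {c c' : ℤ} {M : LM I} (h : LeM c M) (hc : c ≤ c') : LeM c' M := fun a b =>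
  (h a b).mono hc
theorem LeM.add {c : ℤ} {M N : LM I} (hM : LeM c M) (hN : LeM c N) : LeM c (M + N) := fun a b =>
  (hM a b).add (hN a b)
theorem LeM.neg {c : ℤ} {M : LM I} (hM : LeM c M) : LeM c (-M) := fun a b => (hM a b).neg
theorem LeM.sub {c : ℤ} {M N : LM I} (hM : LeM c M) (hN : LeM c N) : LeM c (M - N) := fun a b =>
  (hM a b).sub (hN a b)
theorem LeM.sum {ι : Type} {c : ℤ} {s : Finset ι} {f : ι → LM I} (h : ∀ i ∈ s, LeM c (f i)) :
    LeM c (∑ i ∈ s, f i) := fun a b => by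
  rw [Matrix.sum_apply]
  exact Le.sum fun i hi => h i hi a b
theorem LeM.mul {a b : ℤ} {M N : LM I} (hM : LeM a M) (hN : LeM b N) : LeM (a + b) (M * N) :=
  fun i j => by
    rw [Matrix.mul_apply]
    exact Le.sum fun c _ => (hM i c).mul (hN c j)
theorem LeM.conj {c : ℤ} {M : LM I} (U : Matrix I I ℂ) (hM : LeM c M) : LeM c (cj U M) := by
  have h := ((LeM.const U).mul hM).mul (LeM.const (star U))
  rwa [zero_add, add_zero] at h
theorem exists_geM (M : LM I) : ∃ N : ℕ, GeM (-(N : ℤ)) M ∧ LeM N M := by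
  choose N hN using fun p : I × I => exists_ge (M p.1 p.2)
  have h : ∀ p, (N p : ℤ) ≤ (Finset.univ.sup N : ℕ) := fun p => by
    exact_mod_cast Finset.le_sup (f := N) (Finset.mem_univ p)
  exact ⟨Finset.univ.sup N, fun a b => (hN (a, b)).1.mono (neg_le_neg (h _)),
    fun a b => (hN (a, b)).2.mono (h _)⟩
theorem exists_geV (v : I → LP) : ∃ N : ℕ, GeV (-(N : ℤ)) v ∧ ∀ a, Le N (v a) := by
  choose N hN using fun a : I => exists_ge (v a)
  have h : ∀ p, (N p : ℤ) ≤ (Finset.univ.sup N : ℕ) := fun p => by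
    exact_mod_cast Finset.le_sup (f := N) (Finset.mem_univ p)
  exact ⟨Finset.univ.sup N, fun a => (hN a).1.mono (neg_le_neg (h _)),
    fun a => (hN a).2.mono (h _)⟩
theorem eq_cM_of_ge_le {M : LM I} (h₁ : GeM 0 M) (h₂ : LeM 0 M) : M = cM (cf M 0) :=
  Matrix.ext fun a b => eq_C_of_ge_le (h₁ a b) (h₂ a b)

theorem adj_apply (M : LM I) (a b : I) : adj M a b = sL (M b a) := rfl
theorem adj_adj (M : LM I) : adj (adj M) = M := Matrix.ext fun a b => sL_sL (M a b)
theorem adj_mul (M N : LM I) : adj (M * N) = adj N * adj M := by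
  rw [adj, Matrix.map_mul, Matrix.transpose_mul]; rfl
theorem adj_add (M N : LM I) : adj (M + N) = adj M + adj N :=
  Matrix.ext fun a b => map_add sL (M b a) (N b a)
theorem adj_one : adj (1 : LM I) = 1 := by
  rw [adj, Matrix.map_one _ (map_zero sL) (map_one sL), Matrix.transpose_one]
theorem adj_cM (U : Matrix I I ℂ) : adj (cM U) = cM (star U) :=
  Matrix.ext fun a b => sL_C (U b a)
theorem adj_cj (U : Matrix I I ℂ) (M : LM I) : adj (cj U M) = cj U (adj M) := by
  rw [cj, cj, adj_mul, adj_mul, adj_cM, adj_cM, star_star, Matrix.mul_assoc]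
theorem adj_tL (l : I → ℤ) : adj (tL l) = tL (-l) := by
  refine Matrix.ext fun a b => ?_
  rw [adj_apply, tL, tL]
  by_cases h : a = b
  · subst h
    rw [Matrix.diagonal_apply_eq, Matrix.diagonal_apply_eq, sL_T, Pi.neg_apply]
  · rw [Matrix.diagonal_apply_ne _ h, Matrix.diagonal_apply_ne' _ h, map_zero]
theorem geM_adj {c : ℤ} {M : LM I} : GeM c (adj M) ↔ LeM (-c) M :=
  ⟨fun h a b => ge_sL.1 (h b a), fun h a b => ge_sL.2 (h b a)⟩
theorem leM_adj {c : ℤ} {M : LM I} : LeM c (adj M) ↔ GeM (-c) M :=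
  ⟨fun h a b => le_sL.1 (h b a), fun h a b => le_sL.2 (h b a)⟩
theorem map_ev_adj {z : ℂˣ} (hz : ‖(z : ℂ)‖ = 1) (M : LM I) :
    (adj M).map (ev z) = star (M.map (ev z)) := Matrix.ext fun a b => ev_sL hz (M b a)
theorem map_ev_mul (z : ℂˣ) (M N : LM I) :
    (M * N).map (ev z) = M.map (ev z) * N.map (ev z) := Matrix.map_mul
theorem map_ev_one (z : ℂˣ) : (1 : LM I).map (ev z) = 1 :=
  Matrix.map_one _ (map_zero _) (map_one _)
theorem map_ev_cM (z : ℂˣ) (U : Matrix I I ℂ) : (cM U).map (ev z) = U :=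
  Matrix.ext fun a b => ev_C z (U a b)
theorem eq_of_map_ev {M N : LM I}
    (h : ∀ z : ℂˣ, ‖(z : ℂ)‖ = 1 → M.map (ev z) = N.map (ev z)) : M = N := by
  refine Matrix.ext fun a b => sub_eq_zero.1 (eq_zero_of_ev fun z hz => ?_)
  rw [map_sub, sub_eq_zero]
  exact congrFun (congrFun (h z hz) a) b

theorem cM_apply (U : Matrix I I ℂ) (a b : I) : cM U a b = C (U a b) := rfl
theorem cM_one : cM (1 : Matrix I I ℂ) = 1 := Matrix.map_one _ (map_zero _) (map_one _)
theorem cM_mul (U V : Matrix I I ℂ) : cM (U * V) = cM U * cM V := Matrix.map_mul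
theorem cj_one (M : LM I) : cj 1 M = M := by
  rw [cj, star_one, cM_one, one_mul, mul_one]
theorem cj_cj (U V : Matrix I I ℂ) (M : LM I) : cj U (cj V M) = cj (U * V) M := by
  simp only [cj, star_mul, cM_mul, mul_assoc]
theorem cj_zero (U : Matrix I I ℂ) : cj U 0 = 0 := by
  rw [cj, mul_zero, zero_mul]
theorem cj_add (U : Matrix I I ℂ) (M N : LM I) : cj U (M + N) = cj U M + cj U N := by
  simp only [cj, mul_add, add_mul]
theorem cj_sub (U : Matrix I I ℂ) (M N : LM I) : cj U (M - N) = cj U M - cj U N := by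
  simp only [cj, mul_sub, sub_mul]
theorem cj_smul (U : Matrix I I ℂ) (f : LP) (M : LM I) : cj U (f • M) = f • cj U M := by
  simp only [cj, Matrix.mul_smul, Matrix.smul_mul]
theorem cj_mul {U : Matrix I I ℂ} (hU : U ∈ Matrix.unitaryGroup I ℂ) (M N : LM I) :
    cj U (M * N) = cj U M * cj U N := by
  have h : cM (star U) * cM U = 1 := by rw [← cM_mul, hU.1, cM_one]
  calc cj U (M * N) = cM U * M * (cM (star U) * cM U) * N * cM (star U) := by
        rw [h, mul_one, cj, mul_assoc _ M N]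
    _ = _ := by simp only [cj, mul_assoc]
theorem cj_id {U : Matrix I I ℂ} (hU : U ∈ Matrix.unitaryGroup I ℂ) : cj U (1 : LM I) = 1 := by
  rw [cj, mul_one, ← cM_mul, hU.2, cM_one]
theorem cj_star_cj {U : Matrix I I ℂ} (hU : U ∈ Matrix.unitaryGroup I ℂ) (M : LM I) :
    cj (star U) (cj U M) = M := by
  rw [cj_cj, hU.1, cj_one]
theorem cj_apply (U : Matrix I I ℂ) (M : LM I) (a b : I) (k : ℤ) :
    (cj U M a b).coeff k = ∑ x, ∑ y, U a x * (M x y).coeff k * star (U b y) := by
  rw [← cf_apply, cf_cj, Finset.sum_comm]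
  simp only [Matrix.mul_apply, Finset.sum_mul, Matrix.star_apply, cf_apply]
theorem cj_tL {U : Matrix I I ℂ} (hU : U ∈ Matrix.unitaryGroup I ℂ) {l l' : I → ℤ}
    (h : ∀ a b, U a b ≠ 0 → l' a = l b) : cj U (tL l) = tL l' := by
  have e : cM U * tL l = tL l' * cM U := by
    refine Matrix.ext fun a b => ?_
    rw [tL, tL, Matrix.mul_diagonal, Matrix.diagonal_mul, cM_apply]
    by_cases h0 : U a b = 0
    · rw [h0, map_zero, zero_mul, mul_zero]
    · rw [h a b h0, mul_comm]
  rw [cj, e, mul_assoc, ← cM_mul, hU.2, cM_one, mul_one]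

theorem tL_mul_apply (l : I → ℤ) (M : LM I) (a b : I) : (tL l * M) a b = T (l a) * M a b :=
  Matrix.diagonal_mul _ _ _ _
theorem mul_tL_apply (l : I → ℤ) (M : LM I) (a b : I) : (M * tL l) a b = M a b * T (l b) :=
  Matrix.mul_diagonal _ _ _ _
theorem tL_mulVec (l : I → ℤ) (v : I → LP) (a : I) : (tL l *ᵥ v) a = T (l a) * v a :=
  Matrix.mulVec_diagonal _ _ _
theorem tL_mul_neg (l : I → ℤ) : tL l * tL (-l) = 1 := by
  rw [tL, tL, Matrix.diagonal_mul_diagonal, ← Matrix.diagonal_one]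
  congr 1
  funext a
  rw [← T_add, Pi.neg_apply, add_neg_cancel, T_zero]
theorem tL_neg_mul (l : I → ℤ) : tL (-l) * tL l = 1 := by
  simpa only [neg_neg] using tL_mul_neg (-l)
theorem geM_tL {c : ℤ} {l : I → ℤ} (h : ∀ a, c ≤ l a) : GeM c (tL l) := fun a b => by
  rw [tL, Matrix.diagonal_apply]
  split_ifs
  · exact (Ge.mon _).mono (h a)
  · exact Ge.zero c
theorem leM_tL {c : ℤ} {l : I → ℤ} (h : ∀ a, l a ≤ c) : LeM c (tL l) := fun a b => by
  rw [tL, Matrix.diagonal_apply]
  split_ifs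
  · exact (Le.mon _).mono (h a)
  · exact Le.zero c
theorem geM_tL_conj {l l' : I → ℤ} {M : LM I} :
    GeM 0 (tL l * M * tL l') ↔ ∀ a b, Ge (-l a - l' b) (M a b) := by
  refine forall₂_congr fun a b => ?_
  rw [mul_tL_apply, tL_mul_apply, ge_mul_T, ge_T_mul,
    show 0 - l' b - l a = -l a - l' b by ring]
theorem map_ev_tL (l : I → ℤ) : (tL l).map (ev 1) = 1 := by
  rw [tL, Matrix.diagonal_map (map_zero _), ← Matrix.diagonal_one]
  congr 1
  funext a
  rw [ev_T, Units.val_one, one_zpow]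

theorem BD.zero {R : Type} [Zero R] (lab : I → Λ) : BD lab (0 : Matrix I I R) :=
  fun _ _ _ => rfl
theorem BD.one {R : Type} [Zero R] [One R] (lab : I → Λ) : BD lab (1 : Matrix I I R) :=
  fun _ _ h => Matrix.one_apply_ne fun e => h (congrArg lab e)
theorem BD.add {R : Type} [Ring R] {lab : I → Λ} {M N : Matrix I I R} (hM : BD lab M)
    (hN : BD lab N) : BD lab (M + N) := fun a b h => by
  rw [Matrix.add_apply, hM a b h, hN a b h, add_zero]
theorem BD.neg {R : Type} [Ring R] {lab : I → Λ} {M : Matrix I I R} (hM : BD lab M) :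
    BD lab (-M) := fun a b h => by
  rw [Matrix.neg_apply, hM a b h, neg_zero]
theorem BD.sub {R : Type} [Ring R] {lab : I → Λ} {M N : Matrix I I R} (hM : BD lab M)
    (hN : BD lab N) : BD lab (M - N) := fun a b h => by
  rw [Matrix.sub_apply, hM a b h, hN a b h, sub_zero]
theorem BD.mul {R : Type} [Ring R] {lab : I → Λ} {M N : Matrix I I R} (hM : BD lab M)
    (hN : BD lab N) : BD lab (M * N) := fun a b h => by
  rw [Matrix.mul_apply]
  refine Finset.sum_eq_zero fun c _ => ?_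
  by_cases e : lab a = lab c
  · rw [hN c b (e ▸ h), mul_zero]
  · rw [hM a c e, zero_mul]
theorem BD.pow {R : Type} [Ring R] {lab : I → Λ} {M : Matrix I I R} (hM : BD lab M) (k : ℕ) :
    BD lab (M ^ k) := by
  induction k with
  | zero => rw [pow_zero]; exact BD.one lab
  | succ k ih => rw [pow_succ]; exact ih.mul hM
theorem BD.sum {R ι : Type} [Ring R] {lab : I → Λ} {s : Finset ι} {f : ι → Matrix I I R}
    (h : ∀ i ∈ s, BD lab (f i)) : BD lab (∑ i ∈ s, f i) := fun a b e => by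
  rw [Matrix.sum_apply]
  exact Finset.sum_eq_zero fun i hi => h i hi a b e
theorem BD.str {lab : I → Λ} {U : Matrix I I ℂ} (h : BD lab U) : BD lab (star U) := fun a b e => by
  rw [Matrix.star_apply, h b a e.symm, star_zero]
theorem BD.adjoint {lab : I → Λ} {M : LM I} (h : BD lab M) : BD lab (adj M) := fun a b e => by
  rw [adj_apply, h b a e.symm, map_zero]
theorem BD.const {lab : I → Λ} {U : Matrix I I ℂ} (h : BD lab U) : BD lab (cM U) := fun a b e => by
  rw [cM_apply, h a b e, map_zero]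
theorem BD.conj {lab : I → Λ} {U : Matrix I I ℂ} {M : LM I} (hU : BD lab U) (h : BD lab M) :
    BD lab (cj U M) := (hU.const.mul h).mul hU.str.const
theorem bd_tL (lab : I → Λ) (l : I → ℤ) : BD lab (tL l) := fun _ _ h =>
  Matrix.diagonal_apply_ne _ fun e => h (congrArg lab e)
theorem BD.coef {lab : I → Λ} {M : LM I} (h : BD lab M) (k : ℤ) : BD lab (cf M k) := fun a b e => by
  rw [cf_apply, h a b e, coeff_zero']
theorem BD.map_ev {lab : I → Λ} {M : LM I} (h : BD lab M) (z : ℂˣ) : BD lab (M.map (ev z)) :=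
  fun a b e => by rw [Matrix.map_apply, h a b e, map_zero]
theorem bd_toL {lab : I → Λ} {m : ℕ} {γ : ℤ → Matrix I I ℂ} (h : ∀ k, BD lab (γ k)) :
    BD lab (toL m γ) := fun a b e => by
  rw [toL, Matrix.of_apply]
  exact Finset.sum_eq_zero fun k _ => by rw [h k a b e, map_zero, zero_mul]
/-- The inverse of a block diagonal matrix is block diagonal. -/
theorem BD.of_mul_eq_one {R : Type} [CommRing R] {lab : I → Λ} {M N : Matrix I I R}
    (hM : BD lab M) (h : M * N = 1) : BD lab N := by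
  classical
  have h1 : M * Matrix.of (fun a b => if lab a = lab b then N a b else 0) = 1 := by
    refine Matrix.ext fun a b => ?_
    rw [Matrix.mul_apply]
    by_cases e : lab a = lab b
    · rw [← h, Matrix.mul_apply]
      refine Finset.sum_congr rfl fun c _ => ?_
      by_cases e' : lab a = lab c
      · rw [Matrix.of_apply, if_pos (e'.symm.trans e)]
      · rw [hM a c e', zero_mul, zero_mul]
    · rw [BD.one lab a b e]
      refine Finset.sum_eq_zero fun c _ => ?_
      by_cases e' : lab a = lab c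
      · rw [Matrix.of_apply, if_neg fun e'' => e (e'.trans e''), mul_zero]
      · rw [hM a c e', zero_mul]
  have h2 : N = Matrix.of (fun a b => if lab a = lab b then N a b else 0) := by
    calc N = N * (M * Matrix.of (fun a b => if lab a = lab b then N a b else 0)) := by
          rw [h1, mul_one]
      _ = _ := by rw [← mul_assoc, mul_eq_one_comm.1 h, one_mul]
  intro a b e
  rw [h2, Matrix.of_apply, if_neg e]
/-- Entries in a block of size one are multiplicative. -/
theorem BD.mul_apply_single {R : Type} [Ring R] {lab : I → Λ} {M : Matrix I I R} (hM : BD lab M)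
    (N : Matrix I I R) {a : I} (ha : ∀ b, lab b = lab a → b = a) (b : I) :
    (M * N) a b = M a a * N a b := by
  rw [Matrix.mul_apply]
  refine Finset.sum_eq_single a (fun c _ hc => ?_) fun h => absurd (Finset.mem_univ a) h
  rw [hM a c fun e => hc (ha c e.symm), zero_mul]

end HS

end Pool.Agent.HK
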