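import Pool.Agent.P.MP_1206ce_ag.ST.Om

/-! The action of `K` on the space of triples. -/

open scoped Topology Matrix
open Filter Set LaurentPolynomial

noncomputable section

namespace Pool.Agent.HK

open HS

namespace Qv

variable (Q : Qv) {m d : ℕ} {l : Q.Lam} {u v : Matrix Q.Var Q.Var ℂ} {p : Q.Tr}

theorem Act_nn (u : Matrix Q.Var Q.Var ℂ) : Q.gau u none none = 1 := rfl
theorem Act_ns (u : Matrix Q.Var Q.Var ℂ) (k : Fin Q.nB) : Q.gau u none (some k) = 0 := rfl
theorem Act_sn (u : Matrix Q.Var Q.Var ℂ) (k : Fin Q.nB) : Q.gau u (some k) none = 0 := rfl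
theorem Act_ss (u : Matrix Q.Var Q.Var ℂ) (k j : Fin Q.nB) :
    Q.gau u (some k) (some j) = u (Sum.inl k) (Sum.inl j) := rfl

theorem Act_lr (hu : u ∈ Q.KK) (k : Fin Q.nB) (a : Fin Q.nT) : u (Sum.inl k) (Sum.inr a) = 0 :=
  hu.2 _ _ (by simp [lab])

theorem Act_diag (hu : u ∈ Q.KK) (v : Matrix Q.Var Q.Var ℂ) (a : Fin Q.nT) :
    (u * v) (Sum.inr a) (Sum.inr a) = u (Sum.inr a) (Sum.inr a) * v (Sum.inr a) (Sum.inr a) := by
  rw [Matrix.mul_apply, Finset.sum_eq_single (Sum.inr a)]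
  · intro x _ hx
    rw [hu.2 (Sum.inr a) x, zero_mul]
    rcases x with x | x
    · simp [lab]
    · simpa [lab, eq_comm] using hx
  · simp

theorem Act_star (hu : u ∈ Q.KK) : star u ∈ Q.KK := (isGrp_KG Q.lab).star u hu

theorem st_gau_one : Q.gau 1 = 1 := by
  ext a b
  rcases a with _ | a <;> rcases b with _ | b <;>
    simp [Act_nn, Act_ns, Act_sn, Act_ss, Matrix.one_apply]
theorem st_gau_mul (hu : u ∈ Q.KK) : Q.gau (u * v) = Q.gau u * Q.gau v := by
  ext a b
  rw [Matrix.mul_apply, Fintype.sum_option]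
  rcases a with _ | a <;> rcases b with _ | b
  · simp [Act_nn, Act_ns]
  · simp [Act_nn, Act_ns]
  · simp [Act_sn]
  · simp [Act_sn, Act_ss, Matrix.mul_apply, Fintype.sum_sum_type, Q.Act_lr hu]
theorem st_gau_star (u : Matrix Q.Var Q.Var ℂ) : Q.gau (star u) = star (Q.gau u) := by
  ext a b
  rcases a with _ | a <;> rcases b with _ | b <;>
    simp [Act_nn, Act_ns, Act_sn, Act_ss, Matrix.star_apply]
theorem st_gau_unitary (hu : u ∈ Q.KK) : Q.gau u ∈ Matrix.unitaryGroup Q.Ix ℂ := by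
  rw [Matrix.mem_unitaryGroup_iff', ← st_gau_star, ← Q.st_gau_mul (Q.Act_star hu),
    Matrix.mem_unitaryGroup_iff'.1 hu.1, st_gau_one]
theorem st_gau_bd (hu : u ∈ Q.KK) : BD Q.vb (Q.gau u) := by
  intro a b hab
  rcases a with _ | a <;> rcases b with _ | b
  · exact absurd rfl hab
  · rfl
  · rfl
  · refine hu.2 _ _ fun e => hab ?_
    simpa [lab, vb] using e
theorem st_continuous_gau : Continuous Q.gau := by
  refine continuous_pi fun a => continuous_pi fun b => ?_
  rcases a with _ | a <;> rcases b with _ | b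
  · exact continuous_const
  · exact continuous_const
  · exact continuous_const
  · exact (continuous_apply (Sum.inl b)).comp (continuous_apply (Sum.inl a))
/-- Take `Matrix.fromBlocks` of the part of `U` on `V` and the identity. -/
theorem st_exists_gau {U : Q.Mat} (hU : U ∈ Matrix.unitaryGroup Q.Ix ℂ) (hb : BD Q.vb U)
    (h₁ : U none none = 1) : ∃ u ∈ Q.KK, Q.gau u = U := by
  have h1 : ∀ k, U none (some k) = 0 := fun k => hb _ _ (by simp [vb])
  have h2 : ∀ k, U (some k) none = 0 := fun k => hb _ _ (by simp [vb])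
  have h3 : (U.submatrix some some)ᴴ * U.submatrix some some = 1 := by
    ext k j
    have := congrFun (congrFun (Matrix.mem_unitaryGroup_iff'.1 hU) (some k)) (some j)
    rw [Matrix.mul_apply, Fintype.sum_option, h1 j, mul_zero, zero_add] at this
    rw [Matrix.mul_apply]
    simpa [Matrix.one_apply, Matrix.star_apply] using this
  refine ⟨Matrix.fromBlocks (U.submatrix some some) 0 0 1, ⟨?_, ?_⟩, ?_⟩
  · rw [Matrix.mem_unitaryGroup_iff', Matrix.star_eq_conjTranspose,
      Matrix.fromBlocks_conjTranspose, Matrix.fromBlocks_multiply, h3]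
    simp
  · intro x y hxy
    rcases x with x | x <;> rcases y with y | y
    · refine hb (some x) (some y) fun e => hxy ?_
      simpa [lab, vb] using e
    · rfl
    · rfl
    · have : x ≠ y := fun e => hxy (by rw [e])
      simp [Matrix.one_apply_ne this]
  · ext a b
    rcases a with _ | a <;> rcases b with _ | b
    · exact h₁.symm
    · exact (h1 b).symm
    · exact (h2 a).symm
    · rfl
theorem st_labl_subset (l : Q.Lam) : KG (Q.labl l) ⊆ Q.KK :=
  KG_mono fun _ _ h => congrArg Prod.fst h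
theorem st_mem_labl (hu : u ∈ Q.KK) :
    u ∈ KG (Q.labl l) ↔ ∀ a b, Q.gau u a b ≠ 0 → Q.lv l a = Q.lv l b := by
  constructor
  · intro h a b hab
    rcases a with _ | a <;> rcases b with _ | b
    · rfl
    · exact absurd rfl hab
    · exact absurd rfl hab
    · by_contra hne
      exact hab (h.2 _ _ fun e => hne (congrArg Prod.snd e))
  · intro h
    refine ⟨hu.1, fun x y hxy => ?_⟩
    by_contra hne
    have hl : Q.lab x = Q.lab y := by
      by_contra e
      exact hne (hu.2 x y e)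
    refine hxy (Prod.ext hl ?_)
    rcases x with x | x <;> rcases y with y | y
    · exact h (some x) (some y) hne
    · simp [lab] at hl
    · simp [lab] at hl
    · rfl
theorem st_pmat {w : Equiv.Perm Q.Var} (hw : w ∈ Wl Q.lab) (l : Q.Lam) :
    ∀ a b, Q.gau (pmat w) a b ≠ 0 → Q.lv (Q.wl w l) a = Q.lv l b := by
  intro a b hab
  rcases a with _ | a <;> rcases b with _ | b
  · rfl
  · exact absurd rfl hab
  · exact absurd rfl hab
  · have h : Sum.inl a = w (Sum.inl b) := by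
      by_contra e
      exact hab (by simp [Act_ss, pmat, e])
    change Sum.elim l 0 (w.symm (Sum.inl a)) = l b
    rw [h, Equiv.symm_apply_apply]
    rfl
theorem st_chu_one (h : Fin Q.nA) : Q.chu 1 h = 1 := by
  simp [chu, chi]
theorem st_chu_mul (hu : u ∈ Q.KK) (h : Fin Q.nA) : Q.chu (u * v) h = Q.chu u h * Q.chu v h := by
  simp only [chu, chi, Q.Act_diag hu, mul_zpow, Finset.prod_mul_distrib]
theorem st_continuousOn_chu (h : Fin Q.nA) : ContinuousOn (fun u => Q.chu u h) Q.KK := by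
  unfold chu chi
  refine continuousOn_finsetProd _ fun a _ => ContinuousOn.zpow₀ ?_ _ fun u hu => Or.inl ?_
  · exact ((continuous_apply (Sum.inr a)).comp (continuous_apply (Sum.inr a))).continuousOn
  · intro (e : u (Sum.inr a) (Sum.inr a) = 0)
    have h1 := Q.Act_diag hu (star u) a
    rw [Matrix.mem_unitaryGroup_iff.1 hu.1, Matrix.one_apply_eq, e, zero_mul] at h1
    exact one_ne_zero h1
theorem st_toL_actR (m : ℕ) (u : Matrix Q.Var Q.Var ℂ) (p : Q.Tr) :
    toL m (Q.actR u p).1 = cj (Q.gau u) (toL m p.1) := toL_cj m (Q.gau u) p.1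

theorem Act_cf_jL (d : ℕ) (s : ℕ → Q.Arr) (h : Fin Q.nA) (i : ℕ) :
    cf (Q.jL d s h) (i : ℤ) = if i < d then s i h else 0 := by
  ext a b
  rw [cf_apply, st_coeff_jL]
  split_ifs <;> rfl

theorem Act_snd (u : Matrix Q.Var Q.Var ℂ) (p : Q.Tr) (i : ℕ) (h : Fin Q.nA) :
    (Q.actR u p).2 i h = Q.chu u h • (Q.gau u * p.2 i h * star (Q.gau u)) := rfl

theorem Act_fst (u : Matrix Q.Var Q.Var ℂ) (p : Q.Tr) (k : ℤ) :
    (Q.actR u p).1 k = Q.gau u * p.1 k * star (Q.gau u) := rfl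

theorem st_jL_actR (d : ℕ) (u : Matrix Q.Var Q.Var ℂ) (p : Q.Tr) (h : Fin Q.nA) :
    Q.jL d (Q.actR u p).2 h = (C (Q.chu u h) : LP) • cj (Q.gau u) (Q.jL d p.2 h) := by
  refine ext_cf fun k => ?_
  rw [cf_smul, cf_cj]
  rcases lt_or_ge k 0 with hk | hk
  · rw [geM_iff.1 (Q.st_geM_jL d _ h) k hk, geM_iff.1 (Q.st_geM_jL d _ h) k hk]
    simp
  · obtain ⟨i, rfl⟩ := Int.eq_ofNat_of_zero_le hk
    rw [Act_cf_jL, Act_cf_jL]
    split_ifs
    · rfl
    · simp
theorem st_actR_one (p : Q.Tr) : Q.actR 1 p = p := by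
  refine Prod.ext (funext fun k => ?_) (funext fun i => funext fun h => ?_)
  · rw [Act_fst, st_gau_one, star_one, one_mul, mul_one]
  · rw [Act_snd, st_gau_one, st_chu_one, star_one, one_mul, mul_one, one_smul]
theorem st_actR_mul (hu : u ∈ Q.KK) (p : Q.Tr) : Q.actR (u * v) p = Q.actR u (Q.actR v p) := by
  refine Prod.ext (funext fun k => ?_) (funext fun i => funext fun h => ?_)
  · rw [Act_fst, Act_fst, Act_fst, Q.st_gau_mul hu, star_mul]
    simp only [mul_assoc]
  · rw [Act_snd, Act_snd, Act_snd, Q.st_gau_mul hu, Q.st_chu_mul hu, star_mul]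
    simp only [mul_assoc, mul_smul_comm, smul_mul_assoc, smul_smul]
theorem st_actR_star (hu : u ∈ Q.KK) (p : Q.Tr) : Q.actR (star u) (Q.actR u p) = p := by
  rw [← Q.st_actR_mul (Q.Act_star hu), Matrix.mem_unitaryGroup_iff'.1 hu.1, st_actR_one]

theorem Act_shape {g g' S : Q.Mat} (hg : BD Q.vb g) (hg' : BD Q.vb g') {x y : Option (Fin Q.nI)}
    (hS : ∀ a b, S a b ≠ 0 → Q.vb a = x ∧ Q.vb b = y) (a b : Q.Ix) (h : (g * S * g') a b ≠ 0) :
    Q.vb a = x ∧ Q.vb b = y := by
  rw [Matrix.mul_apply] at h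
  obtain ⟨e, -, he⟩ := Finset.exists_ne_zero_of_sum_ne_zero h
  have h1 := left_ne_zero_of_mul he
  rw [Matrix.mul_apply] at h1
  obtain ⟨c, -, hc⟩ := Finset.exists_ne_zero_of_sum_ne_zero h1
  obtain ⟨h2, h3⟩ := hS c e (right_ne_zero_of_mul hc)
  have h4 : Q.vb a = Q.vb c := by
    by_contra hne
    exact left_ne_zero_of_mul hc (hg a c hne)
  have h5 : Q.vb e = Q.vb b := by
    by_contra hne
    exact right_ne_zero_of_mul he (hg' e b hne)
  exact ⟨h4.trans h2, h5.symm.trans h3⟩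

theorem st_actR_mem_RR (hu : u ∈ Q.KK) (hp : p ∈ Q.RR m d) : Q.actR u p ∈ Q.RR m d := by
  obtain ⟨h1, h2, h3⟩ := Q.st_mem_RR.1 hp
  obtain ⟨h4, h5, h6⟩ := Q.st_mem_Om.1 h1
  have hU := Q.st_gau_unitary hu
  have hb := Q.st_gau_bd hu
  refine Q.st_mem_RR.2 ⟨Q.st_mem_Om.2 ⟨fun k hk => ?_, ?_, ?_⟩, ⟨fun i h a b hab => ?_,
    fun i hi => ?_⟩, fun h => ?_⟩
  · rw [Act_fst, h4 k hk, mul_zero, zero_mul]
  · rw [st_toL_actR]
    exact h5.conj hU hb
  · rw [st_toL_actR, cj, mul_assoc, hb.const.mul_apply_single _ Q.st_single,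
      h5.bd.mul_apply_single _ Q.st_single, h6, cM_apply, cM_apply, Matrix.star_apply, Act_nn]
    simp
  · rw [Act_snd, Matrix.smul_apply, smul_eq_mul] at hab
    exact Q.Act_shape hb hb.str (h2.1 i h) a b (right_ne_zero_of_mul hab)
  · funext h
    rw [Act_snd, h2.2 i hi]
    simp
  · rw [st_toL_actR, st_jL_actR, adj_cj, mul_smul_comm, smul_mul_assoc, ← cj_mul hU, ← cj_mul hU]
    exact ((h3 h).conj _).smul _

end Qv

end Pool.Agent.HK
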