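import Pool.Agent.P.MP_1206ce_ag.Defs

/-! Loops as matrices of Laurent polynomials and cells: definitions. -/

open scoped Topology Matrix
open Filter Set LaurentPolynomial

noncomputable section

namespace Pool.Agent.HK

namespace HS

/-- Laurent polynomials. -/
abbrev LP : Type := LaurentPolynomial ℂ
/-- Matrices of Laurent polynomials. -/
abbrev LM (I : Type) : Type := Matrix I I LP

variable {I Λ X : Type} [Fintype I] [DecidableEq I]

/-- All exponents are at least `c`. -/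
def Ge (c : ℤ) (f : LP) : Prop := ∀ k, k < c → f.coeff k = 0
/-- All exponents are at most `c`. -/
def Le (c : ℤ) (f : LP) : Prop := ∀ k, c < k → f.coeff k = 0
/-- Entrywise `Ge`. -/
def GeM (c : ℤ) (M : LM I) : Prop := ∀ a b, Ge c (M a b)
/-- Entrywise `Le`. -/
def LeM (c : ℤ) (M : LM I) : Prop := ∀ a b, Le c (M a b)
/-- `Ge` for vectors. -/
def GeV (c : ℤ) (v : I → LP) : Prop := ∀ a, Ge c (v a)
/-- The part of exponent below `c`. -/
def cut (c : ℤ) (f : LP) : LP := AddMonoidAlgebra.ofCoeff (f.coeff.filter fun k => k < c)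
/-- Conjugate the coefficients and invert the variable. -/
def sL : LP →+* LP :=
  (AddMonoidAlgebra.mapRingHom ℤ (starRingEnd ℂ)).comp
    (LaurentPolynomial.invert (R := ℂ)).toRingEquiv.toRingHom
/-- The adjoint loop. -/
def adj (M : LM I) : LM I := (M.map sL)ᵀ
/-- Evaluation. -/
def ev (z : ℂˣ) : LP →+* ℂ := LaurentPolynomial.eval₂ (RingHom.id ℂ) z
/-- The coefficient matrix. -/
def cf (M : LM I) (k : ℤ) : Matrix I I ℂ := Matrix.of fun a b => (M a b).coeff k
/-- The loop with given coefficients. -/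
def toL (m : ℕ) (γ : ℤ → Matrix I I ℂ) : LM I :=
  Matrix.of fun a b => ∑ k ∈ Finset.Icc (-(m : ℤ)) m, C (γ k a b) * T k
/-- Constant loops. -/
def cM (U : Matrix I I ℂ) : LM I := U.map C
/-- Conjugation by a constant unitary matrix. -/
def cj (U : Matrix I I ℂ) (M : LM I) : LM I := cM U * M * cM (star U)
/-- Block diagonal matrices. -/
def BD {R : Type} [Zero R] (lab : I → Λ) (M : Matrix I I R) : Prop :=
  ∀ a b, lab a ≠ lab b → M a b = 0
/-- The loop `t^l`. -/
def tL (l : I → ℤ) : LM I := Matrix.diagonal fun a => T (l a)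
/-- Entries in `[-m, m]`. -/
def InBox (m : ℕ) (l : I → ℤ) : Prop := ∀ a, -(m : ℤ) ≤ l a ∧ l a ≤ m
/-- The nilpotent algebra of the attracting cell. -/
def Nil (lab : I → Λ) (l : I → ℤ) (n : LM I) : Prop :=
  ∀ a b k, (n a b).coeff k ≠ 0 → lab a = lab b ∧ 1 ≤ k ∧ k < l a - l b
/-- The inverse of `1 + n`. -/
def ninv (m : ℕ) (n : LM I) : LM I := ∑ k ∈ Finset.range (2 * m + 1), (-n) ^ k
/-- The normal form `(1 + n) t^l`. -/
def nf (l : I → ℤ) (n : LM I) : LM I := (1 + n) * tL l
/-- Its inverse. -/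
def nfi (m : ℕ) (l : I → ℤ) (n : LM I) : LM I := tL (-l) * ninv m n

/-- Based unitary block diagonal loops of degree at most `m`. -/
structure Loop (lab : I → Λ) (m : ℕ) (Γ : LM I) : Prop where
  ge : GeM (-(m : ℤ)) Γ
  le : LeM m Γ
  bd : BD lab Γ
  unit : adj Γ * Γ = 1
  base : Γ.map (ev 1) = 1

/-- `Γ` and `(1 + n) t^l` span the same lattice. -/
structure Cell (lab : I → Λ) (m : ℕ) (l : I → ℤ) (Γ n : LM I) : Prop where
  nil : Nil lab l n
  ge₁ : GeM 0 (adj Γ * nf l n)
  ge₂ : GeM 0 (nfi m l n * Γ)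

/-- `Γ` lies in the double coset of `t^l`. -/
def Fact (lab : I → Λ) (l : I → ℤ) (Γ : LM I) : Prop :=
  ∃ h h' g g' : LM I, GeM 0 h ∧ GeM 0 h' ∧ GeM 0 g ∧ GeM 0 g' ∧
    BD lab h ∧ BD lab h' ∧ BD lab g ∧ BD lab g' ∧ h * h' = 1 ∧ g * g' = 1 ∧ Γ = h * tL l * g

/-- The block of label `i`, completed by the identity. -/
def blk {R : Type} [Zero R] [One R] [DecidableEq Λ] (lab : I → Λ) (i : Λ) (M : Matrix I I R) :
    Matrix I I R :=
  Matrix.of fun a b => if lab a = i ∧ lab b = i then M a b else if a = b then 1 else 0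

/-- Continuous families of bounded degree. -/
structure CFam [TopologicalSpace X] (S : Set X) (F : X → LM I) : Prop where
  cont : ∀ a b k, ContinuousOn (fun x => (F x a b).coeff k) S
  bd : ∃ N : ℕ, ∀ x ∈ S, GeM (-(N : ℤ)) (F x) ∧ LeM N (F x)

end HS

end Pool.Agent.HK
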