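import Pool.Agent.P.MP_1206ce_ag.ST.Nil

/-! Iwasawa decomposition: every normal form has a based unitary loop. -/

open scoped Topology Matrix
open Filter Set LaurentPolynomial

noncomputable section

namespace Pool.Agent.HK

namespace HS

variable {I Λ : Type} [Fintype I] [DecidableEq I] {lab : I → Λ} {m : ℕ} {l : I → ℤ} {n : LM I}

theorem Iwa_proj {V : Type} [AddCommGroup V] [Module ℂ V] (B : V → V →ₗ[ℂ] ℂ)
    (h1 : ∀ x y z, B (x + y) z = B x z + B y z) (h2 : ∀ (r : ℂ) x z, B (r • x) z = star r * B x z)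
    (W : Submodule ℂ V) [FiniteDimensional ℂ W] (h3 : ∀ x, B x x = 0 → x = 0) (v : V) :
    ∃ x ∈ W, ∀ y ∈ W, B y (v - x) = 0 := by
  let e := Module.finBasis ℂ W
  have h4 : ∀ z, (∀ i, B (e i) z = 0) → ∀ y ∈ W, B y z = 0 := fun z hz y hy => by
    have h5 : y ∈ Submodule.span ℂ (Set.range fun i => (e i : V)) := by
      rw [← show _ = y from congrArg Subtype.val (e.sum_repr ⟨y, hy⟩), Submodule.coe_sum]
      exact Submodule.sum_mem _ fun i _ => Submodule.smul_mem _ _ (Submodule.subset_span ⟨i, rfl⟩)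
    clear hy
    induction h5 using Submodule.span_induction with
    | mem y h => obtain ⟨i, rfl⟩ := h; exact hz i
    | zero => simpa using h2 0 0 z
    | add x y _ _ k1 k2 => rw [h1, k1, k2, add_zero]
    | smul r x _ k => rw [h2, k, mul_zero]
  let L : W →ₗ[ℂ] Fin (Module.finrank ℂ W) → ℂ := LinearMap.pi fun i => B (e i) ∘ₗ W.subtype
  obtain ⟨x, hx⟩ := (LinearMap.injective_iff_surjective_of_finrank_eq_finrank (f := L)
    (by simp)).1 ((injective_iff_map_eq_zero L).2 fun x hx =>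
      Subtype.ext (h3 _ (h4 x (congrFun hx) x x.2))) fun i => B (e i) v
  exact ⟨x, x.2, h4 _ fun i => by rw [map_sub, ← congrFun hx i]; exact sub_self _⟩

open ComplexOrder in
theorem Iwa_def {x : LM I} (h : (cf (adj x * x) 0).trace = 0) : x = 0 := by
  obtain ⟨N, h1, h2⟩ := exists_geM (adj x)
  have h3 : ∀ i, cf (adj x) i ≠ 0 → i ∈ Finset.Icc (-(N : ℤ)) N := fun i hi =>
    Finset.mem_Icc.2 ⟨not_lt.1 fun k => hi (geM_iff.1 h1 i k),
      not_lt.1 fun k => hi (leM_iff.1 h2 i k)⟩
  rw [cf_mul_sum _ _ _ h3, Matrix.trace_sum] at h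
  simp only [cf_adj, zero_sub, Matrix.star_eq_conjTranspose] at h h3
  have h4 := (Finset.sum_eq_zero_iff_of_nonneg fun i _ =>
    (Matrix.posSemidef_conjTranspose_mul_self (cf x (-i))).trace_nonneg).1 h
  refine ext_cf fun k => ?_
  by_contra h5
  have h6 := h4 (-k) (h3 _ fun e => h5 (show cf x k = 0 by simpa using e))
  rw [Matrix.trace_conjTranspose_mul_self_eq_zero_iff, neg_neg] at h6
  exact h5 h6

theorem Iwa_smul (r : ℂ) (M : LM I) : r • M = cM (r • 1) * M := by
  refine ext_cf fun k => ?_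
  rw [cf_cM_mul, Matrix.smul_mul, Matrix.one_mul]
  rfl

/-- The inner product of two loops. -/
def Iwa_B (x : LM I) : LM I →ₗ[ℂ] ℂ where
  toFun y := (cf (adj x * y) 0).trace
  map_add' y z := by rw [mul_add, cf_add, Matrix.trace_add]
  map_smul' r y := by
    rw [Matrix.mul_smul, Iwa_smul, cf_cM_mul, Matrix.smul_mul, Matrix.one_mul, Matrix.trace_smul]
    rfl

/-- The loops in the positive part of the lattice. -/
def Iwa_W (lab : I → Λ) (m : ℕ) (N : LM I) : Submodule ℂ (LM I) where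
  carrier := {x | GeM (-(m : ℤ)) x ∧ LeM m x ∧ BD lab x ∧ GeM 1 (N * x)}
  add_mem' := fun ⟨h1, h2, h3, h4⟩ ⟨k1, k2, k3, k4⟩ =>
    ⟨h1.add k1, h2.add k2, h3.add k3, by rw [mul_add]; exact h4.add k4⟩
  zero_mem' := ⟨GeM.zero _, LeM.zero _, BD.zero _, by rw [mul_zero]; exact GeM.zero _⟩
  smul_mem' := fun r x ⟨h1, h2, h3, h4⟩ => by
    refine ⟨?_, ?_, fun a b e => by rw [Matrix.smul_apply, h3 a b e, smul_zero], ?_⟩
    · rw [Iwa_smul]
      exact (GeM.const _).mul₀ h1
    · rw [Iwa_smul]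
      simpa only [zero_add] using (LeM.const _).mul h2
    · rw [Matrix.mul_smul, Iwa_smul]
      exact (GeM.const _).mul₀ h4

theorem Iwa_fd (lab : I → Λ) (m : ℕ) (N : LM I) : FiniteDimensional ℂ (Iwa_W lab m N) := by
  let f : Iwa_W lab m N →ₗ[ℂ] Finset.Icc (-(m : ℤ)) m → Matrix I I ℂ :=
    { toFun := fun x k => cf x.1 k
      map_add' := fun x y => funext fun k => cf_add _ _ _
      map_smul' := fun r x => rfl }
  refine FiniteDimensional.of_injective f ((injective_iff_map_eq_zero f).2 fun x hx =>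
    Subtype.ext (ext_cf fun k => ?_))
  by_cases hk : k ∈ Finset.Icc (-(m : ℤ)) m
  · exact congrFun hx ⟨k, hk⟩
  · rw [Finset.mem_Icc, not_and_or, not_le, not_le] at hk
    exact hk.elim (geM_iff.1 x.2.1 k) (leM_iff.1 x.2.2.1 k)

theorem Iwa_entry (M w : LM I) (i : ℤ) (c b : I) :
    Iwa_B (M * Matrix.single c b (T i)) w = ((adj M * w) c b).coeff i := by
  have h1 : adj (Matrix.single c b (T i)) = Matrix.single b c (T (-i)) := by
    rw [adj, Matrix.map_single, Matrix.transpose_single, sL_T]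
  change (cf _ 0).trace = _
  rw [adj_mul, h1, mul_assoc, Matrix.trace, Finset.sum_eq_single b (fun a _ ha => ?_) (by simp),
    Matrix.diag_apply, cf_apply, Matrix.single_mul_apply_same, coeff_T_mul, zero_sub, neg_neg]
  rw [Matrix.diag_apply, cf_apply, Matrix.single_mul_apply_of_ne _ _ _ _ _ ha, coeff_zero']

/-- Orthogonal projection. In `EuclideanSpace ℂ (↥(Finset.Icc (-m) m) × I)` (coefficients of vectors
of Laurent polynomials) let `W` be the subspace of `x` with `GeV 1 (nfi m l n *ᵥ x)`; the column `b` of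
`w` is the component in `Wᗮ` of the column `b` of `nf l n`. For `i ≥ 1` the coefficient `i` of
`(adj (nf l n) * w) c b` is the inner product with the truncation `cut (m + 1)` of `T i` times the
column `c`, which lies in `W` because `nfi` has exponents at least `-m`. Finally replace `w` by its
block diagonal part. -/
theorem exists_proj (hl : InBox m l) (h : Nil lab l n) :
    ∃ w : LM I, GeM (-(m : ℤ)) w ∧ LeM m w ∧ BD lab w ∧ GeM 1 (nfi m l n * w - 1) ∧
      LeM 0 (adj (nf l n) * w) := by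
  have := Iwa_fd lab m (nfi m l n)
  obtain ⟨x, ⟨h1, h2, h3, h4⟩, h5⟩ := Iwa_proj Iwa_B
    (fun x y z => by
      change (cf _ 0).trace = (cf _ 0).trace + (cf _ 0).trace
      rw [adj_add, add_mul, cf_add, Matrix.trace_add])
    (fun r x z => by
      change (cf _ 0).trace = _ * (cf _ 0).trace
      rw [Iwa_smul, adj_mul, adj_cM, star_smul, star_one, mul_assoc, ← Iwa_smul, Matrix.mul_smul,
        Iwa_smul, cf_cM_mul, Matrix.smul_mul, Matrix.one_mul, Matrix.trace_smul, smul_eq_mul])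
    (Iwa_W lab m (nfi m l n)) (fun x => Iwa_def) (nf l n)
  have h6 := (h.le_nf hl).sub h2
  refine ⟨_, (h.ge_nf hl).sub h1, h6, h.bd_nf.sub h3, ?_, fun c b i hi => ?_⟩
  · rw [mul_sub, h.nfi_mul_nf hl, sub_sub_cancel_left]
    exact h4.neg
  by_cases e : lab c = lab b
  swap
  · rw [(h.bd_nf.adjoint.mul (h.bd_nf.sub h3)) c b e, coeff_zero']
  have k1 : GeM 1 (Matrix.single c b (T i) : LM I) := fun a a' => by
    rw [Matrix.single_apply]
    split_ifs
    · exact (Ge.mon i).mono hi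
    · exact Ge.zero _
  have k2 : BD lab (Matrix.single c b (T i) : LM I) := fun a a' e' =>
    Matrix.single_apply_of_ne _ _ _ _ _ fun k => e' (k.1 ▸ k.2 ▸ e)
  rw [← Iwa_entry]
  generalize (Matrix.single c b (T i) : LM I) = S at k1 k2
  have k3 : GeM (m + 1) (nf l n * S - (nf l n * S).map (cut (m + 1))) := fun a a' =>
    ge_sub_cut _ _
  have k4 := h5 ((nf l n * S).map (cut (m + 1))) ⟨fun a a' k hk => ?_, fun a a' k hk => ?_,
    fun a a' e' => LaurentPolynomial.ext (R := ℂ) fun k => ?_, ?_⟩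
  · have k5 := leM_iff.1 (((leM_adj (c := -(m + 1))).2 (by rwa [neg_neg])).mul h6) 0 (by omega)
    rw [← sub_add_cancel (nf l n * S) ((nf l n * S).map (cut (m + 1)))]
    change (cf _ 0).trace = 0
    rw [adj_add, add_mul, cf_add, k5, zero_add]
    exact k4
  · rw [Matrix.map_apply, coeff_cut, (h.ge_nf hl).mul k1 a a' k (by omega), ite_self]
  · rw [Matrix.map_apply, coeff_cut, if_neg (by omega)]
  · rw [Matrix.map_apply, coeff_cut, h.bd_nf.mul k2 a a' e', coeff_zero', ite_self]
  · have k5 := k1.sub (((h.ge_nfi hl).mul k3).mono (c' := 1) (by omega))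
    rwa [mul_sub, ← mul_assoc, h.nfi_mul_nf hl, one_mul, sub_sub_cancel] at k5

/-- `adj w * w = adj (nfi * w) * (adj nf * w)` has no positive exponent and is self adjoint, so it is
a constant `G`. If `G x = 0` then the sum of `‖cf w k x‖ ^ 2` vanishes, so `w x = 0` and `x = 0` by the
constant term of `nfi * w`. Hence `w(1)` is invertible; put `Γ = w * cM (w(1))⁻¹`. -/
theorem exists_loop (hl : InBox m l) (h : Nil lab l n) :
    ∃ Γ, Loop lab m Γ ∧ Cell lab m l Γ n := by
  obtain ⟨w, h1, h2, h3, h4, h5⟩ := exists_proj hl h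
  have h6 : GeM 0 (nfi m l n * w) := by
    simpa only [sub_add_cancel] using (h4.mono zero_le_one).add GeM.one
  have h7 : LeM 0 (adj w * w) := by
    have k1 := ((leM_adj (c := 0)).2 h6).mul h5
    rwa [← mul_assoc, ← adj_mul, ← mul_assoc, h.nf_mul_nfi hl, one_mul] at k1
  have h8 := eq_cM_of_ge_le (by
    have k1 := (geM_adj (c := 0)).2 h7
    rwa [adj_mul, adj_adj] at k1) h7
  have h9 := congrArg (fun M => Matrix.map M (ev 1)) h8
  simp only [map_ev_mul, map_ev_cM, map_ev_adj (z := 1) (by simp)] at h9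
  rw [← h9] at h8
  have h10 : ∀ X, adj (w * cM X) * (w * cM X) =
      cM (star (w.map (ev 1) * X) * (w.map (ev 1) * X)) := fun X => by
    rw [adj_mul, adj_cM, mul_assoc, ← mul_assoc (adj w), h8, star_mul]
    simp only [cM_mul, mul_assoc]
  have h11 : IsUnit (w.map (ev 1)).det := by
    refine Ne.isUnit fun k1 => ?_
    obtain ⟨v, k2, k3⟩ := Matrix.exists_mulVec_eq_zero_iff.2 k1
    have k4 : w.map (ev 1) * Matrix.of (fun a (_ : I) => v a) = 0 :=
      Matrix.ext fun a _ => congrFun k3 a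
    have k5 := Iwa_def (x := w * cM (Matrix.of fun a (_ : I) => v a)) (by
      rw [h10, k4, mul_zero, cf_cM, if_pos rfl, Matrix.trace_zero])
    have k6 := cf_mul_cM (Matrix.of fun a (_ : I) => v a) (nfi m l n * w) 0
    have k7 := geM_iff.1 h4 0 zero_lt_one
    rw [cf_sub, cf_one, if_pos rfl, sub_eq_zero] at k7
    rw [mul_assoc, k5, mul_zero, k7, one_mul] at k6
    exact k2 (funext fun a => (congrFun (congrFun k6 a) a).symm)
  have h12 := Matrix.mul_nonsing_inv _ h11
  refine ⟨w * cM (w.map (ev 1))⁻¹, ⟨h1.mul₁ (GeM.const _), ?_,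
    h3.mul ((h3.map_ev 1).of_mul_eq_one h12).const, ?_, ?_⟩, h, ?_, ?_⟩
  · simpa only [add_zero] using h2.mul (LeM.const _)
  · rw [h10, h12, star_one, one_mul, cM_one]
  · rw [map_ev_mul, map_ev_cM, h12]
  · have k1 := (geM_adj (c := 0)).2 h5
    rw [adj_mul, adj_adj] at k1
    rw [adj_mul, adj_cM, mul_assoc]
    exact (GeM.const _).mul₀ k1
  · rw [← mul_assoc]
    exact h6.mul₁ (GeM.const _)

end HS

end Pool.Agent.HK
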