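import Pool.Agent.P.MP_1206ce_ag.ST.Mod
import Pool.Agent.P.MP_1206ce_ag.ST.Iwa

/-! The coordinates on a cell are a bijection, equivariant, and standard on the central fibre. -/

open scoped Topology Matrix
open Filter Set LaurentPolynomial

noncomputable section

namespace Pool.Agent.HK

open HS

namespace Qv

variable (Q : Qv) {m d : ℕ} {l : Q.Lam}

theorem st_nn_eq (hl : l ∈ Q.Box m) {γ : ℤ → Q.Mat} (hγ : γ ∈ Q.Om m) {n : LM Q.Ix}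
    (h : Cell Q.vb m (Q.lv l) (toL m γ) n) : Q.nn m l γ = n :=
  Cell.unique (Q.st_loop hγ) (Q.st_inBox.1 hl)
    (Classical.epsilon_spec (p := fun n => Cell Q.vb m (Q.lv l) (toL m γ) n) ⟨n, h⟩) h
theorem st_cell_nn {p : Q.Tr} (hp : p ∈ Q.RCell m d l) :
    Cell Q.vb m (Q.lv l) (toL m p.1) (Q.nn m l p.1) :=
  Classical.epsilon_spec (p := fun n => Cell Q.vb m (Q.lv l) (toL m p.1) n) hp.2
theorem st_iwa_spec (hl : l ∈ Q.Box m) (c : ↥(Q.NL l) → ℂ) : Q.iwa m l c ∈ Q.Om m ∧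
    Cell Q.vb m (Q.lv l) (toL m (Q.iwa m l c)) (Q.nOf l c) := by
  have hb := Q.st_inBox.1 hl
  obtain ⟨Γ, hΓ, hc⟩ := exists_loop hb (Q.st_nil_nOf c)
  have h1 : Γ none none = 1 := by
    rw [Cell.apply_single hΓ hb hc Q.st_single]
    exact T_zero
  refine Classical.epsilon_spec
    (p := fun γ => γ ∈ Q.Om m ∧ Cell Q.vb m (Q.lv l) (toL m γ) (Q.nOf l c))
    ⟨cf Γ, Q.st_cf_mem_Om hΓ h1, ?_⟩
  rwa [toL_cf hΓ.ge hΓ.le]
theorem st_iwa_eq (hl : l ∈ Q.Box m) {c : ↥(Q.NL l) → ℂ} {γ : ℤ → Q.Mat} (hγ : γ ∈ Q.Om m)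
    (h : Cell Q.vb m (Q.lv l) (toL m γ) (Q.nOf l c)) : Q.iwa m l c = γ := by
  obtain ⟨h1, h2⟩ := Q.st_iwa_spec hl c
  have h3 := Cell.loop_unique (Q.st_loop h1) (Q.st_loop hγ) (Q.st_inBox.1 hl) h2 h
  rw [← Q.st_cf_toL h1, h3, Q.st_cf_toL hγ]

theorem Jet_cancel {R : Type} [Ring R] {g g' : R} (h : g * g' = 1) (S : R) :
    g * (g' * S * g) * g' = S := by
  calc g * (g' * S * g) * g' = (g * g') * S * (g * g') := by simp only [mul_assoc]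
    _ = S := by rw [h, one_mul, mul_one]

theorem Jet_bd_gg {γ : ℤ → Q.Mat} (hγ : γ ∈ Q.Om m) {n : LM Q.Ix} (h : Nil Q.vb (Q.lv l) n) :
    BD Q.vb (Q.gg m l γ n) := (h.bd_nfi m).mul (Q.st_loop hγ).bd

theorem Jet_bd_gi {γ : ℤ → Q.Mat} (hγ : γ ∈ Q.Om m) {n : LM Q.Ix} (h : Nil Q.vb (Q.lv l) n) :
    BD Q.vb (Q.gi m l γ n) := (Q.st_loop hγ).bd.adjoint.mul h.bd_nf

/-- The truncation of the transported jet agrees with it modulo `z ^ d`. -/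
theorem Jet_trunc {γ : ℤ → Q.Mat} {n : LM Q.Ix} (hc : Cell Q.vb m (Q.lv l) (toL m γ) n)
    (c : ↥(Q.PU l d) → ℂ) (h : Fin Q.nA) :
    GeM d (Q.gi m l γ n * Q.sOf l d c h * Q.gg m l γ n -
      Q.jL d (Q.jcut d fun h => Q.gi m l γ n * Q.sOf l d c h * Q.gg m l γ n) h) :=
  Q.st_jL_jcut (M := fun h => Q.gi m l γ n * Q.sOf l d c h * Q.gg m l γ n)
    (fun h => (hc.ge₁.mul₀ (OnPU.ge Q (Q.st_onPU_sOf c) h)).mul₁ hc.ge₂) h

/-- The transported jet of a point of the cell is determined by its coordinates. -/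
theorem Jet_sub (hl : l ∈ Q.Box m) {p : Q.Tr} (hp : p ∈ Q.RR m d) {n : LM Q.Ix}
    (hc : Cell Q.vb m (Q.lv l) (toL m p.1) n) (h : Fin Q.nA) :
    GeM d (Q.gg m l p.1 n * Q.jL d p.2 h * Q.gi m l p.1 n -
      Q.sOf l d (Q.coS l d fun h => Q.gg m l p.1 n * Q.jL d p.2 h * Q.gi m l p.1 n) h) := by
  obtain ⟨h1, h2, h3⟩ := Q.st_mem_RR.1 hp
  exact Q.st_sub_sOf_coS (M := fun h => Q.gg m l p.1 n * Q.jL d p.2 h * Q.gi m l p.1 n)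
    (fun h => (hc.ge₂.mul₀ (Q.st_geM_jL d p.2 h)).mul₁ hc.ge₁)
    (fun h => Q.st_shape_mul (Q.Jet_bd_gg h1 hc.nil) (Q.Jet_bd_gi h1 hc.nil)
      fun a b hne => Q.st_jL_apply_ne h2 hne)
    (fun h => (Cell.pole_iff (Q.st_loop h1) (Q.st_inBox.1 hl) hc _).1 (h3 h)) h

theorem st_paC_mem (hl : l ∈ Q.Box m) (hd : 2 * m ≤ d) (c : ↥(Q.NL l) ⊕ ↥(Q.PU l d) → ℂ) :
    Q.paC m d l c ∈ Q.RCell m d l := by
  obtain ⟨h1, h2⟩ := Q.st_iwa_spec hl (c ∘ Sum.inl)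
  have hb := Q.st_inBox.1 hl
  have hΓ := Q.st_loop h1
  have hS := Q.st_onPU_sOf (c ∘ Sum.inr)
  refine ⟨Q.st_mem_RR.2 ⟨h1, ?_, fun h => ?_⟩, _, h2⟩
  · exact Q.st_jcut_mem fun h => Q.st_shape_mul (Q.Jet_bd_gi h1 h2.nil) (Q.Jet_bd_gg h1 h2.nil)
      fun a b hne => OnPU.shape Q hS h a b hne
  · have h3 := Q.Jet_trunc h2 (c ∘ Sum.inr) h
    have h4 : GeM (-(m : ℤ)) (adj (toL m (Q.iwa m l (c ∘ Sum.inl)))) :=
      geM_adj.2 (by rw [neg_neg]; exact hΓ.le)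
    have h5 := ((hΓ.ge.mul h3).mul h4).mono (c' := 0) (by omega)
    have h6 := (Cell.pole_iff hΓ hb h2
      (Q.gi m l (Q.iwa m l (c ∘ Sum.inl)) (Q.nOf l (c ∘ Sum.inl)) * Q.sOf l d (c ∘ Sum.inr) h *
        Q.gg m l (Q.iwa m l (c ∘ Sum.inl)) (Q.nOf l (c ∘ Sum.inl)))).2 fun a b => by
          rw [gi, gg, Jet_cancel (Cell.g_mul hΓ hb h2)]
          exact OnPU.ge' Q hS h a b
    have h7 := h6.sub h5
    rw [← sub_mul, ← mul_sub, sub_sub_cancel] at h7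
    exact h7
theorem st_coC_paC (hl : l ∈ Q.Box m) (c : ↥(Q.NL l) ⊕ ↥(Q.PU l d) → ℂ) :
    Q.coC m d l (Q.paC m d l c) = c := by
  obtain ⟨h1, h2⟩ := Q.st_iwa_spec hl (c ∘ Sum.inl)
  have hb := Q.st_inBox.1 hl
  have hΓ := Q.st_loop h1
  have hn := Q.st_nn_eq hl h1 h2
  have h3 : Q.coS l d (fun h => Q.gg m l (Q.iwa m l (c ∘ Sum.inl)) (Q.nOf l (c ∘ Sum.inl)) *
      Q.jL d (Q.paC m d l c).2 h * Q.gi m l (Q.iwa m l (c ∘ Sum.inl)) (Q.nOf l (c ∘ Sum.inl))) =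
      Q.coS l d (Q.sOf l d (c ∘ Sum.inr)) := by
    refine (Q.st_coS_congr fun h => ?_).symm
    have h4 := (h2.ge₂.mul₀ (Q.Jet_trunc h2 (c ∘ Sum.inr) h)).mul₁ h2.ge₁
    rw [mul_sub, sub_mul, gi, gg, Jet_cancel (Cell.g_mul hΓ hb h2)] at h4
    exact h4
  change Sum.elim (Q.coNil l (Q.nn m l (Q.iwa m l (c ∘ Sum.inl)))) (Q.coS l d fun h =>
    Q.gg m l (Q.iwa m l (c ∘ Sum.inl)) (Q.nn m l (Q.iwa m l (c ∘ Sum.inl))) *
      Q.jL d (Q.paC m d l c).2 h *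
        Q.gi m l (Q.iwa m l (c ∘ Sum.inl)) (Q.nn m l (Q.iwa m l (c ∘ Sum.inl)))) = c
  rw [hn, h3, Q.st_coN_nOf, Q.st_coS_sOf, Sum.elim_comp_inl_inr]
theorem st_paC_coC (hl : l ∈ Q.Box m) {p : Q.Tr} (hp : p ∈ Q.RCell m d l) :
    Q.paC m d l (Q.coC m d l p) = p := by
  have hc := Q.st_cell_nn hp
  obtain ⟨h1, h2, -⟩ := Q.st_mem_RR.1 hp.1
  have hb := Q.st_inBox.1 hl
  have hn : Q.nOf l (Q.coNil l (Q.nn m l p.1)) = Q.nn m l p.1 := Q.st_nOf_coN hc.nil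
  have hi : Q.iwa m l (Q.coNil l (Q.nn m l p.1)) = p.1 := Q.st_iwa_eq hl h1 (by rwa [hn])
  rw [paC, coC, Sum.elim_comp_inl, Sum.elim_comp_inr, hn, hi]
  refine Prod.ext rfl ?_
  refine Eq.trans ?_ (Q.st_jcut_jL h2)
  refine (Q.st_jcut_congr fun h => ?_).symm
  have h4 := (hc.ge₁.mul₀ (Q.Jet_sub hl hp.1 hc h)).mul₁ hc.ge₂
  rw [mul_sub, sub_mul, gi, gg, Jet_cancel (Cell.mul_g (Q.st_loop h1) hb hc)] at h4
  exact h4
theorem st_coC_actR (hl : l ∈ Q.Box m) {u : Matrix Q.Var Q.Var ℂ} (hu : u ∈ KG (Q.labl l))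
    {p : Q.Tr} (hp : p ∈ Q.RCell m d l) :
    Q.coC m d l (Q.actR u p) = Q.rhoC d l u (Q.coC m d l p) := by
  have hc := Q.st_cell_nn hp
  have hK := Q.st_labl_subset l hu
  have hU := Q.st_gau_unitary hK
  have hv := (Q.st_mem_labl hK).1 hu
  have h1 := (Q.st_mem_RR.1 (Q.st_actR_mem_RR hK hp.1)).1
  have hn : Q.nn m l (Q.actR u p).1 = cj (Q.gau u) (Q.nn m l p.1) := by
    refine Q.st_nn_eq hl h1 ?_
    rw [Q.st_toL_actR]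
    exact hc.conj hU (Q.st_gau_bd hK) hv
  have hg : Q.gg m l (Q.actR u p).1 (cj (Q.gau u) (Q.nn m l p.1)) =
      cj (Q.gau u) (Q.gg m l p.1 (Q.nn m l p.1)) := by
    rw [gg, gg, Q.st_toL_actR, cj_mul hU, cj_nfi hU hv]
  have hg' : Q.gi m l (Q.actR u p).1 (cj (Q.gau u) (Q.nn m l p.1)) =
      cj (Q.gau u) (Q.gi m l p.1 (Q.nn m l p.1)) := by
    rw [gi, gi, Q.st_toL_actR, cj_mul hU, cj_nf hU hv, adj_cj]
  rw [rhoC, coC, coC, Sum.elim_comp_inl, Sum.elim_comp_inr, Q.st_nOf_coN hc.nil, hn, hg, hg']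
  congr 1
  refine Q.st_coS_congr fun h => ?_
  rw [Q.st_jL_actR, Matrix.mul_smul, Matrix.smul_mul, ← cj_mul hU, ← cj_mul hU, ← smul_sub,
    ← cj_sub]
  exact ((Q.Jet_sub hl hp.1 hc h).conj _).smul _

/-- The pole condition over `t^λ`. -/
theorem Jet_pole (l : Q.Lam) (S : LM Q.Ix) :
    GeM 0 (tL (Q.lv l) * S * adj (tL (Q.lv l))) ↔ ∀ a b, Ge (Q.lv l b - Q.lv l a) (S a b) := by
  rw [adj_tL, geM_tL_conj]
  refine forall₂_congr fun a b => ?_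
  rw [Pi.neg_apply, show -Q.lv l a - -Q.lv l b = Q.lv l b - Q.lv l a by ring]

theorem Jet_nn_tl (hl : l ∈ Q.Box m) : Q.nn m l (Q.tl l) = 0 := by
  refine Q.st_nn_eq hl (Q.st_tl_mem_Om hl) ?_
  rw [Q.st_toL_tl hl]
  exact cell_tL _ _ _

theorem st_UL (hl : l ∈ Q.Box m) :
    Q.UL l d = {p | p ∈ Q.RCell m d l ∧ ∀ q, Q.coC m d l p (Sum.inl q) = 0} := by
  ext p
  constructor
  · rintro ⟨h1, h2, h3⟩
    have hT : toL m p.1 = tL (Q.lv l) := by rw [h1, Q.st_toL_tl hl]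
    refine ⟨⟨Q.st_mem_RR.2 ⟨by rw [h1]; exact Q.st_tl_mem_Om hl, h2, fun h => ?_⟩, 0, ?_⟩,
      fun q => ?_⟩
    · rw [hT, Q.Jet_pole]
      intro a b k hk
      rcases lt_or_ge k 0 with h0 | h0
      · exact Q.st_geM_jL d p.2 h a b k h0
      · obtain ⟨i, rfl⟩ := Int.eq_ofNat_of_zero_le h0
        rw [Q.st_coeff_jL]
        split_ifs
        · refine h3 i h a b ?_
          change (i : ℤ) < -(Q.lv l a - Q.lv l b)
          omega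
        · rfl
    · rw [hT]
      exact cell_tL _ _ _
    · change Q.coNil l (Q.nn m l p.1) q = 0
      rw [h1, Q.Jet_nn_tl hl]
      rfl
  · rintro ⟨hp, h0⟩
    have hc := Q.st_cell_nn hp
    obtain ⟨h1, h2, h3⟩ := Q.st_mem_RR.1 hp.1
    have hb := Q.st_inBox.1 hl
    have hz : Q.coNil l (Q.nn m l p.1) = 0 := funext h0
    have hn : Q.nn m l p.1 = 0 := by rw [← Q.st_nOf_coN hc.nil, hz, Q.st_nOf_zero]
    rw [hn] at hc
    have hT : toL m p.1 = tL (Q.lv l) :=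
      Cell.loop_unique (Q.st_loop h1) (loop_tL _ hb) hb hc (cell_tL _ _ _)
    refine ⟨?_, h2, fun i h a b hi => ?_⟩
    · rw [← Q.st_cf_toL h1, hT, ← Q.st_toL_tl hl, Q.st_cf_toL (Q.st_tl_mem_Om hl)]
    · have h4 := h3 h
      rw [hT, Q.Jet_pole] at h4
      have h5 : (i : ℤ) < -(Q.lv l a - Q.lv l b) := hi
      have h6 := h4 a b i (by omega)
      rw [← Q.st_jcut_jL h2, jcut]
      split_ifs
      · exact h6
      · rfl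
theorem st_coC_UL (hl : l ∈ Q.Box m) :
    ∀ p ∈ Q.UL l d, ∀ q, Q.coC m d l p (Sum.inr q) = Q.coU p q.1 := by
  intro p hp q
  have h1 : p.1 = Q.tl l := hp.1
  have hg : Q.gg m l (Q.tl l) 0 = 1 := by
    rw [gg, nfi, ninv_zero, mul_one, Q.st_toL_tl hl, tL_neg_mul]
  have hg' : Q.gi m l (Q.tl l) 0 = 1 := by
    rw [gi, nf, add_zero, one_mul, Q.st_toL_tl hl, adj_tL, tL_neg_mul]
  rw [coC, Sum.elim_inr, h1, Q.Jet_nn_tl hl, hg, hg', coS, one_mul, mul_one, Q.st_coeff_jL,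
    if_pos (Q.st_mem_PU.1 q.2).2.1]
  rfl

end Qv

end Pool.Agent.HK
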