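import Pool.Agent.P.MP_1206ce_ag.ST.Defs

/-! Calculus of Laurent polynomials. -/

open scoped Topology Matrix
open Filter Set LaurentPolynomial

noncomputable section

namespace Pool.Agent.HK

namespace HS

theorem coeff_CT (r : ℂ) (n k : ℤ) : (C r * T n : LP).coeff k = if k = n then r else 0 := by
  rw [← single_eq_C_mul_T, AddMonoidAlgebra.coeff_single, Finsupp.single_apply]
  simp only [eq_comm]
theorem coeff_T' (n k : ℤ) : (T n : LP).coeff k = if k = n then 1 else 0 := by
  rw [← coeff_CT, map_one, one_mul]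
theorem coeff_C' (r : ℂ) (k : ℤ) : (C r : LP).coeff k = if k = 0 then r else 0 := by
  rw [← coeff_CT, T_zero, mul_one]
theorem coeff_one' (k : ℤ) : (1 : LP).coeff k = if k = 0 then 1 else 0 := by
  rw [← coeff_T', T_zero]
theorem coeff_zero' (k : ℤ) : (0 : LP).coeff k = 0 := rfl
theorem coeff_add' (f g : LP) (k : ℤ) : (f + g).coeff k = f.coeff k + g.coeff k := rfl
theorem coeff_neg' (f : LP) (k : ℤ) : (-f).coeff k = -f.coeff k := rfl
theorem coeff_sub' (f g : LP) (k : ℤ) : (f - g).coeff k = f.coeff k - g.coeff k := rfl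
theorem coeff_sum' {ι : Type} (s : Finset ι) (f : ι → LP) (k : ℤ) :
    (∑ i ∈ s, f i).coeff k = ∑ i ∈ s, (f i).coeff k := by
  rw [AddMonoidAlgebra.coeff_sum, Finset.sum_apply']
theorem coeff_mul_T (f : LP) (n k : ℤ) : (f * T n).coeff k = f.coeff (k - n) := by
  rw [T, AddMonoidAlgebra.coeff_mul_single_apply, mul_one, sub_eq_add_neg]
theorem coeff_T_mul (f : LP) (n k : ℤ) : (T n * f).coeff k = f.coeff (k - n) := by
  rw [mul_comm, coeff_mul_T]
theorem coeff_C_mul (r : ℂ) (f : LP) (k : ℤ) : (C r * f).coeff k = r * f.coeff k := by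
  rw [← smul_eq_C_mul]
  rfl
theorem coeff_mul_C (r : ℂ) (f : LP) (k : ℤ) : (f * C r).coeff k = f.coeff k * r := by
  rw [mul_comm, coeff_C_mul, mul_comm]
theorem coeff_mul_sum (f g : LP) (s : Finset ℤ) (hs : ∀ i, f.coeff i ≠ 0 → i ∈ s) (k : ℤ) :
    (f * g).coeff k = ∑ i ∈ s, f.coeff i * g.coeff (k - i) := by
  rw [AddMonoidAlgebra.coeff_mul_apply_left,
    Finsupp.sum_of_support_subset _ (fun i hi => hs i (Finsupp.mem_support_iff.1 hi))
      (fun h r => r * g.coeff (-h + k)) (fun i _ => zero_mul _)]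
  exact Finset.sum_congr rfl fun i _ => by rw [neg_add_eq_sub]
theorem coeff_cut (c : ℤ) (f : LP) (k : ℤ) :
    (cut c f).coeff k = if k < c then f.coeff k else 0 := by
  rw [cut, AddMonoidAlgebra.coeff_ofCoeff, Finsupp.filter_apply]
theorem eq_sum_CT (f : LP) (s : Finset ℤ) (hs : ∀ i, f.coeff i ≠ 0 → i ∈ s) :
    f = ∑ i ∈ s, C (f.coeff i) * T i := by
  refine LaurentPolynomial.ext fun k => ?_
  rw [coeff_sum']
  simp only [coeff_CT]
  rw [Finset.sum_ite_eq]
  split_ifs with h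
  · rfl
  · by_contra h0
    exact h (hs k h0)

theorem Ge.zero (c : ℤ) : Ge c 0 := fun _ _ => rfl
theorem Ge.one : Ge 0 1 := fun k hk => by rw [coeff_one', if_neg hk.ne]
theorem Ge.const (r : ℂ) : Ge 0 (C r) := fun k hk => by rw [coeff_C', if_neg hk.ne]
theorem Ge.mon (n : ℤ) : Ge n (T n) := fun k hk => by rw [coeff_T', if_neg hk.ne]
theorem Ge.mono {c c' : ℤ} {f : LP} (h : Ge c f) (hc : c' ≤ c) : Ge c' f :=
  fun k hk => h k (hk.trans_le hc)
theorem Ge.add {c : ℤ} {f g : LP} (hf : Ge c f) (hg : Ge c g) : Ge c (f + g) :=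
  fun k hk => by rw [coeff_add', hf k hk, hg k hk, add_zero]
theorem Ge.neg {c : ℤ} {f : LP} (hf : Ge c f) : Ge c (-f) :=
  fun k hk => by rw [coeff_neg', hf k hk, neg_zero]
theorem Ge.sub {c : ℤ} {f g : LP} (hf : Ge c f) (hg : Ge c g) : Ge c (f - g) :=
  fun k hk => by rw [coeff_sub', hf k hk, hg k hk, sub_zero]
theorem Ge.sum {ι : Type} {c : ℤ} {s : Finset ι} {f : ι → LP} (h : ∀ i ∈ s, Ge c (f i)) :
    Ge c (∑ i ∈ s, f i) := fun k hk => by
  rw [coeff_sum']
  exact Finset.sum_eq_zero fun i hi => h i hi k hk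
theorem Ge.mul {a b : ℤ} {f g : LP} (hf : Ge a f) (hg : Ge b g) : Ge (a + b) (f * g) := by
  intro k hk
  rw [coeff_mul_sum f g f.coeff.support fun i hi => Finsupp.mem_support_iff.2 hi]
  refine Finset.sum_eq_zero fun i _ => ?_
  rcases lt_or_ge i a with h | h
  · rw [hf i h, zero_mul]
  · rw [hg (k - i) (by omega), mul_zero]
theorem Ge.coeff_mul {a b : ℤ} {f g : LP} (hf : Ge a f) (hg : Ge b g) :
    (f * g).coeff (a + b) = f.coeff a * g.coeff b := by
  rw [coeff_mul_sum f g (insert a f.coeff.support) fun i hi =>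
    Finset.mem_insert_of_mem (Finsupp.mem_support_iff.2 hi),
    Finset.sum_eq_single_of_mem a (Finset.mem_insert_self _ _), add_sub_cancel_left]
  intro i _ hi
  rcases lt_or_gt_of_ne hi with h | h
  · rw [hf i h, zero_mul]
  · rw [hg (a + b - i) (by omega), mul_zero]
theorem Ge.succ {c : ℤ} {f : LP} (hf : Ge c f) (h : f.coeff c = 0) : Ge (c + 1) f := by
  intro k hk
  rcases lt_or_eq_of_le (Int.lt_add_one_iff.1 hk) with h1 | h1
  · exact hf k h1
  · rw [h1, h]
theorem ge_mul_T {c n : ℤ} {f : LP} : Ge c (f * T n) ↔ Ge (c - n) f := by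
  constructor
  · intro h k hk
    have := h (k + n) (by omega)
    rwa [coeff_mul_T, add_sub_cancel_right] at this
  · intro h k hk
    rw [coeff_mul_T]
    exact h _ (by omega)
theorem ge_T_mul {c n : ℤ} {f : LP} : Ge c (T n * f) ↔ Ge (c - n) f := by
  rw [mul_comm, ge_mul_T]
theorem ge_sub_cut (c : ℤ) (f : LP) : Ge c (f - cut c f) := fun k hk => by
  rw [coeff_sub', coeff_cut, if_pos hk, sub_self]
theorem exists_ge (f : LP) : ∃ N : ℕ, Ge (-(N : ℤ)) f ∧ Le N f := by
  refine ⟨f.coeff.support.sup Int.natAbs, fun k hk => ?_, fun k hk => ?_⟩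
  · by_contra h
    have := Finset.le_sup (f := Int.natAbs) (Finsupp.mem_support_iff.2 h)
    omega
  · by_contra h
    have := Finset.le_sup (f := Int.natAbs) (Finsupp.mem_support_iff.2 h)
    omega
theorem eq_zero_of_ge {f : LP} (h : ∀ c, Ge c f) : f = 0 :=
  LaurentPolynomial.ext fun k => h (k + 1) k (by omega)

theorem Le.zero (c : ℤ) : Le c 0 := fun _ _ => rfl
theorem Le.one : Le 0 1 := fun k hk => by rw [coeff_one', if_neg hk.ne']
theorem Le.const (r : ℂ) : Le 0 (C r) := fun k hk => by rw [coeff_C', if_neg hk.ne']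
theorem Le.mon (n : ℤ) : Le n (T n) := fun k hk => by rw [coeff_T', if_neg hk.ne']
theorem Le.mono {c c' : ℤ} {f : LP} (h : Le c f) (hc : c ≤ c') : Le c' f :=
  fun k hk => h k (hc.trans_lt hk)
theorem Le.add {c : ℤ} {f g : LP} (hf : Le c f) (hg : Le c g) : Le c (f + g) :=
  fun k hk => by rw [coeff_add', hf k hk, hg k hk, add_zero]
theorem Le.neg {c : ℤ} {f : LP} (hf : Le c f) : Le c (-f) :=
  fun k hk => by rw [coeff_neg', hf k hk, neg_zero]
theorem Le.sub {c : ℤ} {f g : LP} (hf : Le c f) (hg : Le c g) : Le c (f - g) :=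
  fun k hk => by rw [coeff_sub', hf k hk, hg k hk, sub_zero]
theorem Le.sum {ι : Type} {c : ℤ} {s : Finset ι} {f : ι → LP} (h : ∀ i ∈ s, Le c (f i)) :
    Le c (∑ i ∈ s, f i) := fun k hk => by
  rw [coeff_sum']
  exact Finset.sum_eq_zero fun i hi => h i hi k hk
theorem Le.mul {a b : ℤ} {f g : LP} (hf : Le a f) (hg : Le b g) : Le (a + b) (f * g) := by
  intro k hk
  rw [coeff_mul_sum f g f.coeff.support fun i hi => Finsupp.mem_support_iff.2 hi]
  refine Finset.sum_eq_zero fun i _ => ?_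
  rcases lt_or_ge a i with h | h
  · rw [hf i h, zero_mul]
  · rw [hg (k - i) (by omega), mul_zero]
theorem le_mul_T {c n : ℤ} {f : LP} : Le c (f * T n) ↔ Le (c - n) f := by
  constructor
  · intro h k hk
    have := h (k + n) (by omega)
    rwa [coeff_mul_T, add_sub_cancel_right] at this
  · intro h k hk
    rw [coeff_mul_T]
    exact h _ (by omega)
theorem le_T_mul {c n : ℤ} {f : LP} : Le c (T n * f) ↔ Le (c - n) f := by
  rw [mul_comm, le_mul_T]
theorem eq_C_of_ge_le {f : LP} (h₁ : Ge 0 f) (h₂ : Le 0 f) : f = C (f.coeff 0) := by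
  refine LaurentPolynomial.ext fun k => ?_
  rw [coeff_C']
  split_ifs with h
  · rw [h]
  · rcases lt_or_gt_of_ne h with h1 | h1
    · exact h₁ k h1
    · exact h₂ k h1
theorem eq_zero_of_ge_le {a b : ℤ} {f : LP} (h₁ : Ge a f) (h₂ : Le b f) (h : b < a) : f = 0 := by
  refine LaurentPolynomial.ext fun k => ?_
  rcases lt_or_ge k a with h1 | h1
  · exact h₁ k h1
  · exact h₂ k (by omega)

theorem LP_le_coeff_mul {a b : ℤ} {f g : LP} (hf : Le a f) (hg : Le b g) :
    (f * g).coeff (a + b) = f.coeff a * g.coeff b := by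
  rw [coeff_mul_sum f g (insert a f.coeff.support) fun i hi =>
    Finset.mem_insert_of_mem (Finsupp.mem_support_iff.2 hi),
    Finset.sum_eq_single_of_mem a (Finset.mem_insert_self _ _), add_sub_cancel_left]
  intro i _ hi
  rcases lt_or_gt_of_ne hi with h | h
  · rw [hg (a + b - i) (by omega), mul_zero]
  · rw [hf i h, zero_mul]

theorem LP_exists_top {f : LP} (hf : f ≠ 0) : ∃ a, Le a f ∧ f.coeff a ≠ 0 := by
  have hne : f.coeff.support.Nonempty := by
    rw [Finsupp.support_nonempty_iff]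
    exact fun h => hf (AddMonoidAlgebra.coeff_eq_zero.1 h)
  refine ⟨f.coeff.support.max' hne, fun k hk => ?_,
    Finsupp.mem_support_iff.1 (Finset.max'_mem _ hne)⟩
  by_contra h
  exact absurd (Finset.le_max' _ k (Finsupp.mem_support_iff.2 h)) (not_le.2 hk)

/-- Units of the polynomial ring are constant. -/
theorem exists_C_of_mul_eq_one {f g : LP} (hf : Ge 0 f) (hg : Ge 0 g) (h : f * g = 1) :
    ∃ r : ℂ, f = C r := by
  obtain ⟨a, ha, ha'⟩ := LP_exists_top (left_ne_zero_of_mul_eq_one h)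
  obtain ⟨b, hb, hb'⟩ := LP_exists_top (right_ne_zero_of_mul_eq_one h)
  have h1 := LP_le_coeff_mul ha hb
  rw [h, coeff_one'] at h1
  have h2 : a + b = 0 := by
    by_contra h0
    rw [if_neg h0] at h1
    exact mul_ne_zero ha' hb' h1.symm
  have h3 : 0 ≤ b := by
    by_contra h0
    exact hb' (hg b (not_le.1 h0))
  exact ⟨_, eq_C_of_ge_le hf (ha.mono (by omega))⟩

theorem coeff_sL (f : LP) (k : ℤ) : (sL f).coeff k = star (f.coeff (-k)) := by
  have : sL f = AddMonoidAlgebra.mapRingHom ℤ (starRingEnd ℂ) (LaurentPolynomial.invert f) := rfl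
  rw [this, AddMonoidAlgebra.coeff_mapRingHom, invert_apply]
  rfl
theorem sL_sL (f : LP) : sL (sL f) = f :=
  LaurentPolynomial.ext fun k => by rw [coeff_sL, coeff_sL, neg_neg, star_star]
theorem sL_C (r : ℂ) : sL (C r) = C (star r) := by
  refine LaurentPolynomial.ext fun k => ?_
  rw [coeff_sL, coeff_C', coeff_C']
  by_cases h : k = 0
  · simp [h]
  · simp [h]
theorem sL_T (n : ℤ) : sL (T n) = T (-n) := by
  refine LaurentPolynomial.ext fun k => ?_
  rw [coeff_sL, coeff_T', coeff_T']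
  by_cases h : k = -n
  · simp [h]
  · rw [if_neg h, if_neg (by omega), star_zero]
theorem ge_sL {c : ℤ} {f : LP} : Ge c (sL f) ↔ Le (-c) f := by
  constructor
  · intro h k hk
    have := h (-k) (by omega)
    rwa [coeff_sL, neg_neg, star_eq_zero] at this
  · intro h k hk
    rw [coeff_sL, h (-k) (by omega), star_zero]
theorem le_sL {c : ℤ} {f : LP} : Le c (sL f) ↔ Ge (-c) f := by
  constructor
  · intro h k hk
    have := h (-k) (by omega)
    rwa [coeff_sL, neg_neg, star_eq_zero] at this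
  · intro h k hk
    rw [coeff_sL, h (-k) (by omega), star_zero]

theorem ev_C (z : ℂˣ) (r : ℂ) : ev z (C r) = r := eval₂_C _ _ r
theorem ev_T (z : ℂˣ) (n : ℤ) : ev z (T n) = (z : ℂ) ^ n := by
  rw [ev, eval₂_T, Units.val_zpow_eq_zpow_val]
theorem ev_sL {z : ℂˣ} (hz : ‖(z : ℂ)‖ = 1) (f : LP) : ev z (sL f) = star (ev z f) := by
  have hs : star (z : ℂ) = (z : ℂ)⁻¹ := (Complex.inv_eq_conj hz).symm
  induction f using LaurentPolynomial.induction_on' with
  | add p q hp hq => rw [map_add, map_add, map_add, hp, hq, star_add]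
  | C_mul_T n a =>
    rw [map_mul, map_mul, map_mul, sL_C, sL_T, ev_C, ev_C, ev_T, ev_T, star_mul', star_zpow₀, hs,
      inv_zpow']
theorem eq_zero_of_ev {f : LP} (h : ∀ z : ℂˣ, ‖(z : ℂ)‖ = 1 → ev z f = 0) : f = 0 := by
  obtain ⟨n, p, hp⟩ := exists_T_pow f
  have hinf : (Metric.sphere (0 : ℂ) 1).Infinite := by
    refine Set.infinite_of_injOn_mapsTo (f := fun t : ℝ => Complex.exp (t * Complex.I))
      (s := Set.Ioo 0 1) (fun s hs t ht hst => ?_) (fun t _ => ?_) (Set.Ioo_infinite one_pos)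
    · have h1 := congrArg Complex.re hst
      simp only [Complex.exp_ofReal_mul_I_re] at h1
      have h3 := Real.pi_gt_three
      exact Real.injOn_cos ⟨hs.1.le, by linarith [hs.2]⟩ ⟨ht.1.le, by linarith [ht.2]⟩ h1
    · rw [mem_sphere_zero_iff_norm]
      exact Complex.norm_exp_ofReal_mul_I t
  have hp0 : p = 0 := by
    refine p.eq_zero_of_infinite_isRoot (hinf.mono fun z hz => ?_)
    rw [mem_sphere_zero_iff_norm] at hz
    have hz0 : z ≠ 0 := fun h0 => by
      rw [h0, norm_zero] at hz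
      exact zero_ne_one hz
    have h1 := congrArg (ev (Units.mk0 z hz0)) hp
    rw [map_mul, h _ hz, zero_mul, ev, eval₂_toLaurent] at h1
    exact h1
  rw [hp0, map_zero] at hp
  exact ((isUnit_T (n : ℤ)).mul_left_eq_zero).1 hp.symm

end HS

end Pool.Agent.HK
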