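import Pool.Agent.P.MP_1206ce_ag.ST.Act

/-! Coordinates of nilpotent matrices and jets; the linear action on them. -/

open scoped Topology Matrix
open Filter Set LaurentPolynomial

noncomputable section

namespace Pool.Agent.HK

open HS

namespace Qv

variable (Q : Qv) {m d : ℕ} {l : Q.Lam}

theorem st_mem_NL {q : (Fin Q.nB × Fin Q.nB) × ℕ} :
    q ∈ Q.NL l ↔ Q.vt q.1.1 = Q.vt q.1.2 ∧ 1 ≤ q.2 ∧ (q.2 : ℤ) < l q.1.1 - l q.1.2 := by
  obtain ⟨p, i⟩ := q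
  simp only [NL, Finset.mem_biUnion, Finset.mem_filter, Finset.mem_univ, true_and,
    Finset.mem_image, Finset.mem_Ico, Prod.mk.injEq]
  constructor
  · rintro ⟨p', h1, j, ⟨h2, h3⟩, rfl, rfl⟩
    exact ⟨h1, h2, by omega⟩
  · rintro ⟨h1, h2, h3⟩
    exact ⟨p, h1, i, ⟨h2, by omega⟩, rfl, rfl⟩
theorem st_mem_PU {q : Q.Ps × ℕ} : q ∈ Q.PU l d ↔
    (Q.vb q.1.2.1 = Q.tgt q.1.1 ∧ Q.vb q.1.2.2 = Q.src q.1.1) ∧ q.2 < d ∧
      Q.lv l q.1.2.2 - Q.lv l q.1.2.1 ≤ (q.2 : ℤ) := by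
  simp only [PU, WI, prP, Finset.mem_filter, Finset.mem_product, Finset.mem_univ, true_and,
    Finset.mem_range, neg_sub, and_assoc]

theorem Mod_coeff_nOf (c : ↥(Q.NL l) → ℂ) (a b : Q.Ix) (k : ℤ) :
    (Q.nOf l c a b).coeff k = ∑ q : ↥(Q.NL l),
      if (a = some q.1.1.1 ∧ b = some q.1.1.2) ∧ k = (q.1.2 : ℤ) then c q else 0 := by
  rw [nOf, Matrix.of_apply, coeff_sum']
  refine Finset.sum_congr rfl fun q _ => ?_
  by_cases h : a = some q.1.1.1 ∧ b = some q.1.1.2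
  · rw [if_pos h, coeff_CT]
    by_cases hk : k = (q.1.2 : ℤ)
    · rw [if_pos hk, if_pos ⟨h, hk⟩]
    · rw [if_neg hk, if_neg fun e => hk e.2]
  · rw [if_neg h, coeff_zero', if_neg fun e => h e.1]

theorem Mod_nOf_ne {c : ↥(Q.NL l) → ℂ} {a b : Q.Ix} {k : ℤ} (h : (Q.nOf l c a b).coeff k ≠ 0) :
    ∃ q : ↥(Q.NL l), (a = some q.1.1.1 ∧ b = some q.1.1.2) ∧ k = (q.1.2 : ℤ) := by
  rw [Mod_coeff_nOf] at h
  obtain ⟨q, _, hq⟩ := Finset.exists_ne_zero_of_sum_ne_zero h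
  by_contra h0
  exact hq (if_neg fun e => h0 ⟨q, e⟩)

theorem Mod_exists_NL {a b : Q.Ix} {k : ℤ} (h1 : Q.vb a = Q.vb b) (h2 : 1 ≤ k)
    (h3 : k < Q.lv l a - Q.lv l b) :
    ∃ q : ↥(Q.NL l), (a = some q.1.1.1 ∧ b = some q.1.1.2) ∧ k = (q.1.2 : ℤ) := by
  cases a with
  | none =>
    cases b with
    | none => omega
    | some j => exact absurd h1 (by simp [vb])
  | some i =>
    cases b with
    | none => exact absurd h1 (by simp [vb])
    | some j =>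
      have h4 : Q.vt i = Q.vt j := by simpa [vb] using h1
      have h5 : k < l i - l j := h3
      exact ⟨⟨((i, j), k.toNat), Q.st_mem_NL.2 ⟨h4, by simp only; omega, by simp only; omega⟩⟩,
        ⟨rfl, rfl⟩, by simp only; omega⟩

theorem Mod_nil_ext {n n' : LM Q.Ix} (h : Nil Q.vb (Q.lv l) n) (h' : Nil Q.vb (Q.lv l) n')
    (e : Q.coNil l n = Q.coNil l n') : n = n' := by
  refine Matrix.ext fun a b => LaurentPolynomial.ext fun k => ?_
  by_contra hne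
  have h1 : Q.vb a = Q.vb b ∧ 1 ≤ k ∧ k < Q.lv l a - Q.lv l b := by
    by_cases h0 : (n a b).coeff k = 0
    · exact h' a b k fun h2 => hne (h0.trans h2.symm)
    · exact h a b k h0
  obtain ⟨q, ⟨rfl, rfl⟩, rfl⟩ := Q.Mod_exists_NL h1.1 h1.2.1 h1.2.2
  exact hne (congrFun e q)

theorem Mod_coeff_sOf (c : ↥(Q.PU l d) → ℂ) (h : Fin Q.nA) (a b : Q.Ix) (k : ℤ) :
    (Q.sOf l d c h a b).coeff k = ∑ q : ↥(Q.PU l d),
      if q.1.1 = (h, a, b) ∧ k = (q.1.2 : ℤ) then c q else 0 := by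
  rw [sOf, Matrix.of_apply, coeff_sum']
  refine Finset.sum_congr rfl fun q _ => ?_
  by_cases h1 : q.1.1 = (h, a, b)
  · rw [if_pos h1, coeff_CT]
    by_cases hk : k = (q.1.2 : ℤ)
    · rw [if_pos hk, if_pos ⟨h1, hk⟩]
    · rw [if_neg hk, if_neg fun e => hk e.2]
  · rw [if_neg h1, coeff_zero', if_neg fun e => h1 e.1]

theorem st_nil_nOf (c : ↥(Q.NL l) → ℂ) : Nil Q.vb (Q.lv l) (Q.nOf l c) := by
  intro a b k hk
  obtain ⟨q, ⟨rfl, rfl⟩, rfl⟩ := Q.Mod_nOf_ne hk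
  obtain ⟨h1, h2, h3⟩ := Q.st_mem_NL.1 q.2
  exact ⟨congrArg some h1, by exact_mod_cast h2, h3⟩
theorem st_coN_nOf (c : ↥(Q.NL l) → ℂ) : Q.coNil l (Q.nOf l c) = c := by
  funext q
  rw [coNil, Mod_coeff_nOf, Finset.sum_eq_single q, if_pos ⟨⟨rfl, rfl⟩, rfl⟩]
  · intro q' _ hq
    refine if_neg fun e => hq (Subtype.ext (Prod.ext (Prod.ext ?_ ?_) ?_))
    · exact (Option.some.inj e.1.1).symm
    · exact (Option.some.inj e.1.2).symm
    · exact_mod_cast e.2.symm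
  · intro h
    exact absurd (Finset.mem_univ q) h
theorem st_nOf_coN {n : LM Q.Ix} (h : Nil Q.vb (Q.lv l) n) : Q.nOf l (Q.coNil l n) = n :=
  Q.Mod_nil_ext (Q.st_nil_nOf _) h (Q.st_coN_nOf _)
theorem st_nOf_zero : Q.nOf l 0 = 0 := by
  refine Matrix.ext fun a b => LaurentPolynomial.ext fun k => ?_
  rw [Mod_coeff_nOf]
  exact Finset.sum_eq_zero fun q _ => ite_self _
theorem st_nOf_eq_sum (c : ↥(Q.NL l) → ℂ) :
    Q.nOf l c = ∑ q, (C (c q) : LP) • Q.nOf l (Pi.single q 1) := by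
  refine Matrix.ext fun a b => LaurentPolynomial.ext fun k => ?_
  rw [Matrix.sum_apply, coeff_sum', Mod_coeff_nOf]
  refine Finset.sum_congr rfl fun q _ => ?_
  rw [Matrix.smul_apply, smul_eq_mul, coeff_C_mul, Mod_coeff_nOf, Finset.sum_eq_single q]
  · split_ifs
    · rw [Pi.single_eq_same, mul_one]
    · rw [mul_zero]
  · intro q' _ hq
    rw [Pi.single_eq_of_ne hq, ite_self]
  · intro h
    exact absurd (Finset.mem_univ q) h
theorem st_cFam_nOf (l : Q.Lam) : CFam univ (Q.nOf l) := by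
  refine ⟨fun a b k => ?_, (Q.NL l).sup Prod.snd, fun c _ => ⟨fun a b k hk => ?_,
    fun a b k hk => ?_⟩⟩
  · simp only [Mod_coeff_nOf]
    refine (continuous_finsetSum _ fun q _ => ?_).continuousOn
    split_ifs
    · exact continuous_apply q
    · exact continuous_const
  · by_contra h
    obtain ⟨q, _, rfl⟩ := Q.Mod_nOf_ne h
    omega
  · by_contra h
    obtain ⟨q, _, rfl⟩ := Q.Mod_nOf_ne h
    have := Finset.le_sup (f := Prod.snd) q.2
    omega
theorem st_onPU_sOf (c : ↥(Q.PU l d) → ℂ) : Q.OnPU l d (Q.sOf l d c) := by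
  intro h a b k hk
  rw [Mod_coeff_sOf] at hk
  obtain ⟨q, _, hq⟩ := Finset.exists_ne_zero_of_sum_ne_zero hk
  have h1 : q.1.1 = (h, a, b) ∧ k = (q.1.2 : ℤ) := by
    by_contra h0
    exact hq (if_neg h0)
  refine ⟨q.1.2, h1.2, ?_⟩
  rw [← h1.1]
  exact q.2
theorem st_coS_sOf (c : ↥(Q.PU l d) → ℂ) : Q.coS l d (Q.sOf l d c) = c := by
  funext q
  rw [coS, Mod_coeff_sOf, Finset.sum_eq_single q, if_pos ⟨rfl, rfl⟩]
  · intro q' _ hq
    refine if_neg fun e => hq (Subtype.ext (Prod.ext e.1 ?_))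
    exact_mod_cast e.2.symm
  · intro h
    exact absurd (Finset.mem_univ q) h
theorem st_sOf_coS {M : Fin Q.nA → LM Q.Ix} (h : Q.OnPU l d M) : Q.sOf l d (Q.coS l d M) = M := by
  funext x
  refine Matrix.ext fun a b => LaurentPolynomial.ext fun k => ?_
  by_contra hne
  have h1 : ∃ i : ℕ, k = i ∧ ((x, a, b), i) ∈ Q.PU l d := by
    by_cases h0 : (M x a b).coeff k = 0
    · exact Q.st_onPU_sOf _ x a b k fun h2 => hne (h2.trans h0.symm)
    · exact h x a b k h0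
  obtain ⟨i, rfl, hi⟩ := h1
  exact hne (congrFun (Q.st_coS_sOf (Q.coS l d M)) ⟨_, hi⟩)
theorem st_coS_congr {M N : Fin Q.nA → LM Q.Ix} (h : ∀ h, GeM d (M h - N h)) :
    Q.coS l d M = Q.coS l d N := by
  funext q
  have h1 := h q.1.1.1 q.1.1.2.1 q.1.1.2.2 q.1.2 (by exact_mod_cast (Q.st_mem_PU.1 q.2).2.1)
  rw [Matrix.sub_apply, coeff_sub', sub_eq_zero] at h1
  exact h1
/-- A tuple of the right shape without forbidden low terms is determined modulo `z ^ d`. -/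
theorem st_sub_sOf_coS {M : Fin Q.nA → LM Q.Ix} (h0 : ∀ h, GeM 0 (M h))
    (h1 : ∀ h a b, M h a b ≠ 0 → Q.vb a = Q.tgt h ∧ Q.vb b = Q.src h)
    (h2 : ∀ h a b, Ge (Q.lv l b - Q.lv l a) (M h a b)) (h : Fin Q.nA) :
    GeM d (M h - Q.sOf l d (Q.coS l d M) h) := by
  intro a b k hk
  rw [Matrix.sub_apply, coeff_sub', sub_eq_zero]
  by_contra hne
  have h3 : ∃ i : ℕ, k = i ∧ ((h, a, b), i) ∈ Q.PU l d := by
    by_cases h4 : (M h a b).coeff k = 0
    · exact Q.st_onPU_sOf _ h a b k fun h5 => hne (h4.trans h5.symm)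
    · have h5 : 0 ≤ k := not_lt.1 fun e => h4 (h0 h a b k e)
      have h6 : Q.lv l b - Q.lv l a ≤ k := not_lt.1 fun e => h4 (h2 h a b k e)
      have h7 := h1 h a b fun e => h4 (by rw [e, coeff_zero'])
      exact ⟨k.toNat, by omega, Q.st_mem_PU.2 ⟨h7, by simp only; omega, by simp only; omega⟩⟩
  obtain ⟨i, rfl, hi⟩ := h3
  exact hne (congrFun (Q.st_coS_sOf (Q.coS l d M)) ⟨_, hi⟩).symm
theorem OnPU.ge {M : Fin Q.nA → LM Q.Ix} (hM : Q.OnPU l d M) (h : Fin Q.nA) : GeM 0 (M h) := by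
  intro a b k hk
  by_contra h0
  obtain ⟨i, rfl, _⟩ := hM h a b k h0
  omega
theorem OnPU.ge' {M : Fin Q.nA → LM Q.Ix} (hM : Q.OnPU l d M) (h : Fin Q.nA) (a b : Q.Ix) :
    Ge (Q.lv l b - Q.lv l a) (M h a b) := by
  intro k hk
  by_contra h0
  obtain ⟨i, rfl, hi⟩ := hM h a b k h0
  exact absurd (Q.st_mem_PU.1 hi).2.2 (not_le.2 hk)
theorem OnPU.shape {M : Fin Q.nA → LM Q.Ix} (hM : Q.OnPU l d M) (h : Fin Q.nA) (a b : Q.Ix)
    (hne : M h a b ≠ 0) : Q.vb a = Q.tgt h ∧ Q.vb b = Q.src h := by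
  have h1 : ∃ k, (M h a b).coeff k ≠ 0 := by
    by_contra h0
    exact hne (LaurentPolynomial.ext fun k => by_contra fun e => h0 ⟨k, e⟩)
  obtain ⟨k, hk⟩ := h1
  obtain ⟨i, _, hi⟩ := hM h a b k hk
  exact (Q.st_mem_PU.1 hi).1
theorem OnPU.conj {M : Fin Q.nA → LM Q.Ix} (hM : Q.OnPU l d M) {u : Matrix Q.Var Q.Var ℂ}
    (hu : u ∈ KG (Q.labl l)) (r : Fin Q.nA → ℂ) :
    Q.OnPU l d fun h => (C (r h) : LP) • cj (Q.gau u) (M h) := by
  intro h a b k hk
  have hK := Q.st_labl_subset l hu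
  have hb := Q.st_gau_bd hK
  have hl := (Q.st_mem_labl hK).1 hu
  simp only [Matrix.smul_apply, smul_eq_mul, coeff_C_mul, cj_apply] at hk
  obtain ⟨x, _, hx⟩ := Finset.exists_ne_zero_of_sum_ne_zero (right_ne_zero_of_mul hk)
  obtain ⟨y, _, hy⟩ := Finset.exists_ne_zero_of_sum_ne_zero hx
  have h1 : Q.gau u a x ≠ 0 := left_ne_zero_of_mul (left_ne_zero_of_mul hy)
  have h2 : Q.gau u b y ≠ 0 := star_ne_zero.1 (right_ne_zero_of_mul hy)
  obtain ⟨i, hi, hi'⟩ := hM h x y k (right_ne_zero_of_mul (left_ne_zero_of_mul hy))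
  obtain ⟨⟨h3, h4⟩, h5, h6⟩ := Q.st_mem_PU.1 hi'
  have h7 : Q.vb a = Q.vb x := by_contra fun e => h1 (hb a x e)
  have h8 : Q.vb b = Q.vb y := by_contra fun e => h2 (hb b y e)
  refine ⟨i, hi, Q.st_mem_PU.2 ⟨⟨h7.trans h3, h8.trans h4⟩, h5, ?_⟩⟩
  have h9 := hl a x h1
  have h10 := hl b y h2
  simp only at h6 ⊢
  omega
theorem st_cFam_sOf (l : Q.Lam) (d : ℕ) (h : Fin Q.nA) :
    CFam univ fun c => Q.sOf l d c h := by
  refine ⟨fun a b k => ?_, d, fun c _ => ⟨((Q.st_onPU_sOf c).ge Q h).mono (by omega),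
    fun a b k hk => ?_⟩⟩
  · simp only [Mod_coeff_sOf]
    refine (continuous_finsetSum _ fun q _ => ?_).continuousOn
    split_ifs
    · exact continuous_apply q
    · exact continuous_const
  · by_contra h0
    obtain ⟨i, rfl, hi⟩ := Q.st_onPU_sOf c h a b k h0
    have := (Q.st_mem_PU.1 hi).2.1
    simp only at this
    omega

theorem Mod_nOf_add (c c' : ↥(Q.NL l) → ℂ) : Q.nOf l (c + c') = Q.nOf l c + Q.nOf l c' := by
  refine Matrix.ext fun a b => LaurentPolynomial.ext fun k => ?_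
  rw [Matrix.add_apply, coeff_add', Mod_coeff_nOf, Mod_coeff_nOf, Mod_coeff_nOf,
    ← Finset.sum_add_distrib]
  refine Finset.sum_congr rfl fun q _ => ?_
  split_ifs
  · rfl
  · rw [add_zero]

theorem Mod_nOf_smul (r : ℂ) (c : ↥(Q.NL l) → ℂ) :
    Q.nOf l (r • c) = (C r : LP) • Q.nOf l c := by
  refine Matrix.ext fun a b => LaurentPolynomial.ext fun k => ?_
  rw [Matrix.smul_apply, smul_eq_mul, coeff_C_mul, Mod_coeff_nOf, Mod_coeff_nOf, Finset.mul_sum]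
  refine Finset.sum_congr rfl fun q _ => ?_
  split_ifs
  · rfl
  · rw [mul_zero]

theorem Mod_sOf_add (c c' : ↥(Q.PU l d) → ℂ) (h : Fin Q.nA) :
    Q.sOf l d (c + c') h = Q.sOf l d c h + Q.sOf l d c' h := by
  refine Matrix.ext fun a b => LaurentPolynomial.ext fun k => ?_
  rw [Matrix.add_apply, coeff_add', Mod_coeff_sOf, Mod_coeff_sOf, Mod_coeff_sOf,
    ← Finset.sum_add_distrib]
  refine Finset.sum_congr rfl fun q _ => ?_
  split_ifs
  · rfl
  · rw [add_zero]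

theorem Mod_sOf_smul (r : ℂ) (c : ↥(Q.PU l d) → ℂ) (h : Fin Q.nA) :
    Q.sOf l d (r • c) h = (C r : LP) • Q.sOf l d c h := by
  refine Matrix.ext fun a b => LaurentPolynomial.ext fun k => ?_
  rw [Matrix.smul_apply, smul_eq_mul, coeff_C_mul, Mod_coeff_sOf, Mod_coeff_sOf, Finset.mul_sum]
  refine Finset.sum_congr rfl fun q _ => ?_
  split_ifs
  · rfl
  · rw [mul_zero]

theorem Mod_rhoC_inl (u : Matrix Q.Var Q.Var ℂ) (c : ↥(Q.NL l) ⊕ ↥(Q.PU l d) → ℂ) :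
    Q.rhoC d l u c ∘ Sum.inl = Q.coNil l (cj (Q.gau u) (Q.nOf l (c ∘ Sum.inl))) := rfl

theorem Mod_rhoC_inr (u : Matrix Q.Var Q.Var ℂ) (c : ↥(Q.NL l) ⊕ ↥(Q.PU l d) → ℂ) :
    Q.rhoC d l u c ∘ Sum.inr = Q.coS l d fun h =>
      (C (Q.chu u h) : LP) • cj (Q.gau u) (Q.sOf l d (c ∘ Sum.inr) h) := rfl

theorem Mod_ext {A B : Type} {c c' : A ⊕ B → ℂ} (h₁ : c ∘ Sum.inl = c' ∘ Sum.inl)
    (h₂ : c ∘ Sum.inr = c' ∘ Sum.inr) : c = c' := by
  funext q
  cases q with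
  | inl q => exact congrFun h₁ q
  | inr q => exact congrFun h₂ q

theorem Mod_gau_diag {u : Matrix Q.Var Q.Var ℂ} (hu : u ∈ TT Q.Var) {a b : Q.Ix} (h : a ≠ b) :
    Q.gau u a b = 0 := by
  cases a with
  | none =>
    cases b with
    | none => exact absurd rfl h
    | some j => rfl
  | some i =>
    cases b with
    | none => rfl
    | some j => exact hu.2 (Sum.inl i) (Sum.inl j) fun e => h (congrArg some (Sum.inl.inj e))

theorem Mod_cj_diag {u : Matrix Q.Var Q.Var ℂ} (hu : u ∈ TT Q.Var) (M : LM Q.Ix) (a b : Q.Ix)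
    (k : ℤ) : (cj (Q.gau u) M a b).coeff k =
      Q.gau u a a * star (Q.gau u b b) * (M a b).coeff k := by
  rw [cj_apply, Finset.sum_eq_single a, Finset.sum_eq_single b]
  · ring
  · intro y _ hy
    rw [Q.Mod_gau_diag hu hy.symm, star_zero, mul_zero]
  · intro h
    exact absurd (Finset.mem_univ b) h
  · intro x _ hx
    refine Finset.sum_eq_zero fun y _ => ?_
    rw [Q.Mod_gau_diag hu hx.symm, zero_mul, zero_mul]
  · intro h
    exact absurd (Finset.mem_univ a) h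

/-- The character of a basis vector. -/
def Mod_ch (a : Q.Ix) : Q.Var → ℤ := a.elim 0 fun k => Pi.single (Sum.inl k) 1

theorem Mod_chr_ch (u : Matrix Q.Var Q.Var ℂ) (a : Q.Ix) : chr (Q.Mod_ch a) u = Q.gau u a a := by
  cases a with
  | none => simp [Mod_ch, chr, gau]
  | some k => exact chr_single _ u

theorem Mod_ch_inl (a : Q.Ix) (k : Fin Q.nB) :
    Q.Mod_ch a (Sum.inl k) = if a = some k then 1 else 0 := by
  cases a with
  | none => simp [Mod_ch]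
  | some i => simp [Mod_ch, Pi.single_apply, eq_comm]

theorem Mod_ch_inr (a : Q.Ix) (t : Fin Q.nT) : Q.Mod_ch a (Sum.inr t) = 0 := by
  cases a with
  | none => simp [Mod_ch]
  | some i => simp [Mod_ch]

theorem Mod_chP (p : Q.Ps) :
    Q.chP p = Sum.elim (0 : Fin Q.nB → ℤ) (Q.wt p.1) + (Q.Mod_ch p.2.1 + -Q.Mod_ch p.2.2) := by
  funext x
  cases x with
  | inl k => simp [chP, Mod_ch_inl, sub_eq_add_neg]
  | inr t => simp [chP, Mod_ch_inr]

theorem Mod_chr_wt (u : Matrix Q.Var Q.Var ℂ) (h : Fin Q.nA) :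
    chr (Sum.elim (0 : Fin Q.nB → ℤ) (Q.wt h)) u = Q.chu u h := by
  simp [chr, chu, chi, Fintype.prod_sum_type]

theorem st_isMod (l : Q.Lam) (d : ℕ) :
    IsMod (Q.labl l) (Q.rhoC d l) (Sum.elim (fun q => Q.chN q.1) fun q => Q.chP q.1.1) where
  act :=
    { grp := isGrp_KG _
      one := fun c => by
        refine Mod_ext ?_ ?_
        · rw [Mod_rhoC_inl, st_gau_one, cj_one, st_coN_nOf]
        · rw [Mod_rhoC_inr]
          simp only [st_gau_one, cj_one, st_chu_one, map_one, one_smul]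
          exact Q.st_coS_sOf _
      mul := fun u hu v hv c => by
        have hu' := Q.st_labl_subset l hu
        have hv' := Q.st_labl_subset l hv
        refine Mod_ext ?_ ?_
        · rw [Mod_rhoC_inl, Mod_rhoC_inl, Mod_rhoC_inl, Q.st_nOf_coN
            ((Q.st_nil_nOf _).conj (Q.st_gau_bd hv') ((Q.st_mem_labl hv').1 hv)), cj_cj,
            Q.st_gau_mul hu']
        · rw [Mod_rhoC_inr, Mod_rhoC_inr, Mod_rhoC_inr,
            Q.st_sOf_coS ((Q.st_onPU_sOf _).conj Q hv _)]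
          simp only [cj_smul, cj_cj, smul_smul, Q.st_gau_mul hu', Q.st_chu_mul hu', map_mul]
      cont := by
        have hU : ContinuousOn (fun p : Matrix Q.Var Q.Var ℂ × (↥(Q.NL l) ⊕ ↥(Q.PU l d) → ℂ) =>
            Q.gau p.1) (KG (Q.labl l) ×ˢ univ) :=
          (Q.st_continuous_gau.comp continuous_fst).continuousOn
        refine continuousOn_pi.2 fun q => ?_
        cases q with
        | inl q =>
          exact (((Q.st_cFam_nOf l).comp (f := fun p : Matrix Q.Var Q.Var ℂ ×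
            (↥(Q.NL l) ⊕ ↥(Q.PU l d) → ℂ) => p.2 ∘ Sum.inl) (by fun_prop)
            (mapsTo_univ _ _)).conj hU).cont _ _ _
        | inr q =>
          exact ((((Q.st_cFam_sOf l d q.1.1.1).comp (f := fun p : Matrix Q.Var Q.Var ℂ ×
            (↥(Q.NL l) ⊕ ↥(Q.PU l d) → ℂ) => p.2 ∘ Sum.inr) (by fun_prop)
            (mapsTo_univ _ _)).conj hU).smul ((Q.st_continuousOn_chu q.1.1.1).comp
              continuousOn_fst fun p hp => Q.st_labl_subset l hp.1)).cont _ _ _ }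
  lin := fun u _ => by
    refine ⟨fun c c' => Mod_ext ?_ ?_, fun r c => Mod_ext ?_ ?_⟩
    · rw [Mod_rhoC_inl, Pi.add_comp, Mod_nOf_add, cj_add]
      rfl
    · rw [Mod_rhoC_inr, Pi.add_comp]
      simp only [Mod_sOf_add, cj_add, smul_add]
      rfl
    · rw [Mod_rhoC_inl, Pi.smul_comp, Mod_nOf_smul, cj_smul]
      funext q
      exact coeff_C_mul _ _ _
    · rw [Mod_rhoC_inr, Pi.smul_comp]
      simp only [Mod_sOf_smul, cj_smul]
      funext q
      change (C _ * (C r * _) : LP).coeff _ = r * (C _ * _ : LP).coeff _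
      rw [mul_left_comm, coeff_C_mul]
  wt := fun u hu c q => by
    cases q with
    | inl q =>
      change (cj (Q.gau u) (Q.nOf l (c ∘ Sum.inl)) (some q.1.1.1) (some q.1.1.2)).coeff q.1.2 =
        chr (Q.chN q.1) u * c (Sum.inl q)
      rw [Q.Mod_cj_diag hu, chN, sub_eq_add_neg, chr_add _ _ hu, chr_neg _ hu, chr_single,
        chr_single]
      exact congrArg _ (congrFun (Q.st_coN_nOf (c ∘ Sum.inl)) q)
    | inr q =>
      change (C (Q.chu u q.1.1.1) * cj (Q.gau u) (Q.sOf l d (c ∘ Sum.inr) q.1.1.1) q.1.1.2.1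
        q.1.1.2.2 : LP).coeff q.1.2 = chr (Q.chP q.1.1) u * c (Sum.inr q)
      rw [coeff_C_mul, Q.Mod_cj_diag hu, Mod_chP, chr_add _ _ hu, chr_add _ _ hu, chr_neg _ hu,
        Mod_chr_ch, Mod_chr_ch, Mod_chr_wt, ← mul_assoc]
      exact congrArg _ (congrFun (Q.st_coS_sOf (c ∘ Sum.inr)) q)

end Qv

end Pool.Agent.HK
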