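import Pool.Agent.P.MP_1206ce_ag.ST.LM

/-! The nilpotent algebra of a cell, normal forms and their uniqueness. -/

open scoped Topology Matrix
open Filter Set LaurentPolynomial

noncomputable section

namespace Pool.Agent.HK

namespace HS

variable {I Λ : Type} [Fintype I] [DecidableEq I] {lab : I → Λ} {m : ℕ} {l l' : I → ℤ}
variable {n n' Γ Γ' : LM I} {U : Matrix I I ℂ}

theorem Nil.zero (lab : I → Λ) (l : I → ℤ) : Nil lab l 0 :=
  fun _ _ _ h => absurd rfl h
theorem Nil.add (h : Nil lab l n) (h' : Nil lab l n') : Nil lab l (n + n') := by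
  intro a b k hk
  by_cases e : (n a b).coeff k = 0
  · refine h' a b k fun e' => hk ?_
    rw [Matrix.add_apply, coeff_add', e, e', add_zero]
  · exact h a b k e
theorem Nil.neg (h : Nil lab l n) : Nil lab l (-n) := fun a b k hk =>
  h a b k fun e => hk (by rw [Matrix.neg_apply, coeff_neg', e, neg_zero])
theorem Nil.sub (h : Nil lab l n) (h' : Nil lab l n') : Nil lab l (n - n') := by
  rw [sub_eq_add_neg]; exact h.add h'.neg
/-- Exponents add: `k + k' < (l a - l b) + (l b - l c)`; use `coeff_mul_sum`. -/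
theorem Nil.mul (h : Nil lab l n) (h' : Nil lab l n') : Nil lab l (n * n') := by
  intro a c k hk
  rw [Matrix.mul_apply, coeff_sum'] at hk
  obtain ⟨b, -, hb⟩ := Finset.exists_ne_zero_of_sum_ne_zero hk
  rw [coeff_mul_sum _ _ (n a b).coeff.support fun i hi => Finsupp.mem_support_iff.2 hi] at hb
  obtain ⟨i, -, hi⟩ := Finset.exists_ne_zero_of_sum_ne_zero hb
  obtain ⟨e1, e2, e3⟩ := h a b i (left_ne_zero_of_mul hi)
  obtain ⟨f1, f2, f3⟩ := h' b c (k - i) (right_ne_zero_of_mul hi)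
  exact ⟨e1.trans f1, by omega, by omega⟩
theorem Nil_pow (h : Nil lab l n) (k : ℕ) : Nil lab l (n ^ (k + 1)) := by
  induction k with
  | zero => rwa [zero_add, pow_one]
  | succ k ih => rw [pow_succ]; exact ih.mul h
theorem Nil.bd (h : Nil lab l n) : BD lab n := fun a b e =>
  LaurentPolynomial.ext fun k => by
    by_contra hk
    exact e (h a b k hk).1
theorem Nil.ge (h : Nil lab l n) : GeM 1 n := fun a b k hk => by
  by_contra e
  have := (h a b k e).2.1
  omega
theorem Nil.le (hl : InBox m l) (h : Nil lab l n) : LeM (2 * m) n := fun a b k hk => by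
  by_contra e
  have h1 := (h a b k e).2.2
  have h2 := (hl a).2
  have h3 := (hl b).1
  omega
/-- `n ^ k` is in the algebra and has exponents at least `k`. -/
theorem Nil.pow_eq_zero (hl : InBox m l) (h : Nil lab l n) : n ^ (2 * m + 1) = 0 := by
  have h1 : ∀ k : ℕ, GeM (k : ℤ) (n ^ k) := by
    intro k
    induction k with
    | zero => rw [pow_zero]; exact GeM.one
    | succ k ih =>
      rw [pow_succ]
      exact_mod_cast ih.mul h.ge
  refine Matrix.ext fun a b => ?_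
  exact eq_zero_of_ge_le (h1 (2 * m + 1) a b) ((Nil_pow h (2 * m)).le hl a b) (by push_cast; omega)
theorem Nil.mul_ninv (hl : InBox m l) (h : Nil lab l n) : (1 + n) * ninv m n = 1 := by
  have h1 := mul_neg_geom_sum (-n) (2 * m + 1)
  rw [sub_neg_eq_add, neg_pow, h.pow_eq_zero hl, mul_zero, sub_zero] at h1
  exact h1
theorem Nil.ninv_mul (hl : InBox m l) (h : Nil lab l n) : ninv m n * (1 + n) = 1 :=
  mul_eq_one_comm.1 (h.mul_ninv hl)
theorem Nil.ninv_sub_one (h : Nil lab l n) (m : ℕ) : Nil lab l (ninv m n - 1) := by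
  rw [ninv, Finset.sum_range_succ', pow_zero, add_sub_cancel_right]
  exact Finset.sum_induction _ (Nil lab l) (fun _ _ => Nil.add) (Nil.zero lab l)
    fun k _ => Nil_pow h.neg k
theorem Nil.ge_one_add (h : Nil lab l n) : GeM 0 (1 + n) :=
  GeM.one.add (h.ge.mono zero_le_one)
theorem Nil.ge_ninv (h : Nil lab l n) (m : ℕ) : GeM 0 (ninv m n) := by
  have h1 := (h.ninv_sub_one m).ge_one_add
  rwa [add_sub_cancel] at h1
theorem Nil.cf_one_add (h : Nil lab l n) : cf (1 + n) 0 = 1 := by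
  rw [cf_add, cf_one, if_pos rfl, geM_iff.1 h.ge 0 zero_lt_one, add_zero]
theorem Nil.cf_ninv (h : Nil lab l n) (m : ℕ) : cf (ninv m n) 0 = 1 := by
  have h1 := (h.ninv_sub_one m).cf_one_add
  rwa [add_sub_cancel] at h1
theorem Nil.bd_ninv (h : Nil lab l n) (m : ℕ) : BD lab (ninv m n) :=
  BD.sum fun k _ => h.bd.neg.pow k
theorem Nil.bd_nf (h : Nil lab l n) : BD lab (nf l n) :=
  ((BD.one lab).add h.bd).mul (bd_tL lab l)
theorem Nil.bd_nfi (h : Nil lab l n) (m : ℕ) : BD lab (nfi m l n) :=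
  (bd_tL lab (-l)).mul (h.bd_ninv m)
theorem Nil.nf_mul_nfi (hl : InBox m l) (h : Nil lab l n) : nf l n * nfi m l n = 1 := by
  rw [nf, nfi, mul_assoc, ← mul_assoc (tL l), tL_mul_neg, one_mul, h.mul_ninv hl]
theorem Nil.nfi_mul_nf (hl : InBox m l) (h : Nil lab l n) : nfi m l n * nf l n = 1 :=
  mul_eq_one_comm.1 (h.nf_mul_nfi hl)
theorem Nil.ge_nf (hl : InBox m l) (h : Nil lab l n) : GeM (-(m : ℤ)) (nf l n) :=
  h.ge_one_add.mul₀ (geM_tL fun a => (hl a).1)
theorem Nil.le_nf (hl : InBox m l) (h : Nil lab l n) : LeM m (nf l n) := by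
  rw [nf, add_mul, one_mul]
  refine (leM_tL fun a => (hl a).2).add fun a b k hk => ?_
  rw [mul_tL_apply, coeff_mul_T]
  by_contra e
  have h1 := (h a b _ e).2.2
  have h2 := (hl a).2
  omega
theorem Nil.ge_nfi (hl : InBox m l) (h : Nil lab l n) : GeM (-(m : ℤ)) (nfi m l n) :=
  (geM_tL fun a => neg_le_neg (hl a).2).mul₁ (h.ge_ninv m)
theorem ninv_zero (m : ℕ) : ninv m (0 : LM I) = 1 := by
  rw [ninv, Finset.sum_range_succ', pow_zero, neg_zero]
  simp
/-- All exponents of `t^{-l} n t^l` are negative. -/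
theorem Nil.eq_zero_of_conj (h : Nil lab l n) (h0 : GeM 0 (tL (-l) * n * tL l)) : n = 0 := by
  refine Matrix.ext fun a b => LaurentPolynomial.ext fun k => ?_
  by_contra e
  have h1 := (h a b k e).2.2
  refine e (geM_tL_conj.1 h0 a b k ?_)
  rw [Pi.neg_apply, neg_neg]
  exact h1
theorem Nil.conj (hb : BD lab U) (hU : ∀ a b, U a b ≠ 0 → l' a = l b) (h : Nil lab l n) :
    Nil lab l' (cj U n) := by
  intro a b k hk
  rw [cj_apply] at hk
  obtain ⟨x, -, hx⟩ := Finset.exists_ne_zero_of_sum_ne_zero hk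
  obtain ⟨y, -, hy⟩ := Finset.exists_ne_zero_of_sum_ne_zero hx
  have h1 : U a x ≠ 0 := left_ne_zero_of_mul (left_ne_zero_of_mul hy)
  have h2 : U b y ≠ 0 := star_ne_zero.1 (right_ne_zero_of_mul hy)
  obtain ⟨e1, e2, e3⟩ := h x y k (right_ne_zero_of_mul (left_ne_zero_of_mul hy))
  have h3 : lab a = lab x := by
    by_contra e
    exact h1 (hb a x e)
  have h4 : lab b = lab y := by
    by_contra e
    exact h2 (hb b y e)
  refine ⟨h3.trans (e1.trans h4.symm), e2, ?_⟩
  rw [hU a x h1, hU b y h2]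
  exact e3
theorem cj_ninv (hU : U ∈ Matrix.unitaryGroup I ℂ) (m : ℕ) (n : LM I) :
    cj U (ninv m n) = ninv m (cj U n) := by
  have h1 : ∀ k : ℕ, cj U ((-n) ^ k) = (-cj U n) ^ k := by
    intro k
    induction k with
    | zero => rw [pow_zero, pow_zero, cj_id hU]
    | succ k ih =>
      rw [pow_succ, pow_succ, cj_mul hU, ih]
      congr 1
      simp only [cj, mul_neg, neg_mul]
  rw [ninv, ninv, ← Finset.sum_congr rfl fun k _ => h1 k]
  simp only [cj, Finset.mul_sum, Finset.sum_mul]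
theorem cj_nf (hU : U ∈ Matrix.unitaryGroup I ℂ) (h : ∀ a b, U a b ≠ 0 → l' a = l b) (n : LM I) :
    cj U (nf l n) = nf l' (cj U n) := by
  rw [nf, nf, cj_mul hU, cj_add, cj_id hU, cj_tL hU h]
theorem cj_nfi (hU : U ∈ Matrix.unitaryGroup I ℂ) (h : ∀ a b, U a b ≠ 0 → l' a = l b) (m : ℕ)
    (n : LM I) : cj U (nfi m l n) = nfi m l' (cj U n) := by
  rw [nfi, nfi, cj_mul hU, cj_ninv hU, cj_tL hU (l' := -l') fun a b e => ?_]
  rw [Pi.neg_apply, Pi.neg_apply, h a b e]

theorem Loop.unit' (h : Loop lab m Γ) : Γ * adj Γ = 1 := mul_eq_one_comm.1 h.unit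
theorem Loop.conj (h : Loop lab m Γ) (hU : U ∈ Matrix.unitaryGroup I ℂ) (hb : BD lab U) :
    Loop lab m (cj U Γ) where
  ge := h.ge.conj U
  le := h.le.conj U
  bd := hb.conj h.bd
  unit := by rw [adj_cj, ← cj_mul hU, h.unit, cj_id hU]
  base := by
    rw [cj, map_ev_mul, map_ev_mul, h.base, map_ev_cM, map_ev_cM, mul_one]
    exact hU.2
theorem loop_tL (lab : I → Λ) (hl : InBox m l) : Loop lab m (tL l) where
  ge := geM_tL fun a => (hl a).1
  le := leM_tL fun a => (hl a).2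
  bd := bd_tL lab l
  unit := by rw [adj_tL, tL_neg_mul]
  base := map_ev_tL l
theorem cell_tL (lab : I → Λ) (m : ℕ) (l : I → ℤ) : Cell lab m l (tL l) 0 where
  nil := Nil.zero lab l
  ge₁ := by
    rw [nf, add_zero, one_mul, adj_tL, tL_neg_mul]
    exact GeM.one
  ge₂ := by
    rw [nfi, ninv_zero, mul_one, tL_neg_mul]
    exact GeM.one
theorem Cell.conj (h : Cell lab m l Γ n) (hU : U ∈ Matrix.unitaryGroup I ℂ) (hb : BD lab U)
    (hl : ∀ a b, U a b ≠ 0 → l' a = l b) : Cell lab m l' (cj U Γ) (cj U n) where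
  nil := h.nil.conj hb hl
  ge₁ := by
    rw [adj_cj, ← cj_nf hU hl, ← cj_mul hU]
    exact h.ge₁.conj U
  ge₂ := by
    rw [← cj_nfi hU hl, ← cj_mul hU]
    exact h.ge₂.conj U
theorem Cell.g_mul (hΓ : Loop lab m Γ) (hl : InBox m l) (h : Cell lab m l Γ n) :
    (nfi m l n * Γ) * (adj Γ * nf l n) = 1 := by
  rw [mul_assoc, ← mul_assoc Γ, hΓ.unit', one_mul, h.nil.nfi_mul_nf hl]
theorem Cell.mul_g (hΓ : Loop lab m Γ) (hl : InBox m l) (h : Cell lab m l Γ n) :
    (adj Γ * nf l n) * (nfi m l n * Γ) = 1 :=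
  mul_eq_one_comm.1 (h.g_mul hΓ hl)
/-- Multiply by `nfi m l n * Γ`: `t^{-l} (ninv n * n') t^l` has no pole. -/
theorem Cell.inj (hΓ : Loop lab m Γ) (hl : InBox m l) (h : Cell lab m l Γ n) (h' : Nil lab l n')
    (h0 : GeM 0 (adj Γ * (n' * tL l))) : n' = 0 := by
  have h1 := h.ge₂.mul₀ h0
  have e : nfi m l n * Γ * (adj Γ * (n' * tL l)) = tL (-l) * (ninv m n * n') * tL l := by
    rw [mul_assoc, ← mul_assoc Γ, hΓ.unit', one_mul, nfi]
    simp only [mul_assoc]
  rw [e] at h1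
  have h2 : Nil lab l (ninv m n * n') := by
    have h3 := ((h.nil.ninv_sub_one m).mul h').add h'
    rwa [sub_mul, one_mul, sub_add_cancel] at h3
  have h4 := h2.eq_zero_of_conj h1
  calc n' = (1 + n) * (ninv m n * n') := by rw [← mul_assoc, h.nil.mul_ninv hl, one_mul]
    _ = 0 := by rw [h4, mul_zero]
theorem Cell.unique (hΓ : Loop lab m Γ) (hl : InBox m l) (h : Cell lab m l Γ n)
    (h' : Cell lab m l Γ n') : n = n' := by
  refine sub_eq_zero.1 (h.inj hΓ hl (h.nil.sub h'.nil) ?_)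
  have h1 := h.ge₁.sub h'.ge₁
  rwa [← mul_sub, nf, nf, ← sub_mul, add_sub_add_left_eq_sub] at h1
/-- `adj Γ * Γ'` and its adjoint have no pole, so it is constant; evaluate at one. -/
theorem Cell.loop_unique (hΓ : Loop lab m Γ) (hΓ' : Loop lab m Γ') (hl : InBox m l)
    (h : Cell lab m l Γ n) (h' : Cell lab m l Γ' n) : Γ = Γ' := by
  have e : ∀ A B : LM I, adj A * nf l n * (nfi m l n * B) = adj A * B := fun A B => by
    rw [mul_assoc, ← mul_assoc (nf l n), h.nil.nf_mul_nfi hl, one_mul]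
  have h1 := h.ge₁.mul₀ h'.ge₂
  have h2 := h'.ge₁.mul₀ h.ge₂
  rw [e] at h1 h2
  have h3 : LeM 0 (adj Γ * Γ') := by
    have h4 : GeM 0 (adj (adj Γ * Γ')) := by rwa [adj_mul, adj_adj]
    simpa only [neg_zero] using geM_adj.1 h4
  have h5 := eq_cM_of_ge_le h1 h3
  have h6 := congrArg (fun M : LM I => M.map (ev 1)) h5
  rw [map_ev_cM, map_ev_mul, map_ev_adj (by simp), hΓ.base, hΓ'.base, star_one, one_mul] at h6
  rw [← h6, cM_one] at h5
  calc Γ = Γ * (adj Γ * Γ') := by rw [h5, mul_one]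
    _ = Γ' := by rw [← mul_assoc, hΓ.unit', one_mul]
theorem Nil_key (h : Nil lab l n) (h' : Nil lab l' n')
    (h0 : GeM 0 (nfi m l' n' * cM U * nf l n)) (a b : I) (hab : U a b ≠ 0) : l' a ≤ l b := by
  have e : nfi m l' n' * cM U * nf l n = tL (-l') * (ninv m n' * cM U * (1 + n)) * tL l := by
    simp only [nf, nfi, mul_assoc]
  rw [e] at h0
  have h1 := geM_tL_conj.1 h0 a b
  have h2 : cf (ninv m n' * cM U * (1 + n)) 0 = U := by
    have h3 := ((h'.ge_ninv m).mul₁ (GeM.const U)).cf_mul h.ge_one_add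
    rw [add_zero] at h3
    rw [h3, h.cf_one_add, mul_one, cf_mul_cM, h'.cf_ninv, one_mul]
  by_contra hc
  refine hab ?_
  rw [← h2, cf_apply]
  refine h1 0 ?_
  rw [Pi.neg_apply]
  omega
/-- `t^{-l'} (ninv n' * U * (1 + n)) t^l` has no pole and the middle factor is `U` at `z = 0`, so
`U a b = 0` for `l b < l' a`; the same with the roles exchanged and `star U`. -/
theorem Cell.key (hΓ : Loop lab m Γ) (hl : InBox m l) (hl' : InBox m l')
    (hU : U ∈ Matrix.unitaryGroup I ℂ) (h : Cell lab m l Γ n) (h' : Cell lab m l' (cj U Γ) n') :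
    ∀ a b, U a b ≠ 0 → l' a = l b := by
  intro a b hab
  have e1 : cM (star U) * cM U = 1 := by rw [← cM_mul, hU.1, cM_one]
  have h1 := (h'.ge₂.mul₁ (GeM.const U)).mul₀ h.ge₁
  have f1 : nfi m l' n' * cj U Γ * cM U * (adj Γ * nf l n) = nfi m l' n' * cM U * nf l n := by
    calc _ = nfi m l' n' * cM U * (Γ * (cM (star U) * cM U) * adj Γ) * nf l n := by
          simp only [cj, mul_assoc]
      _ = _ := by rw [e1, mul_one, hΓ.unit', mul_one]
  rw [f1] at h1
  have h2 := h.ge₂.mul₀ ((GeM.const (star U)).mul₀ h'.ge₁)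
  have f2 : nfi m l n * Γ * (cM (star U) * (adj (cj U Γ) * nf l' n')) =
      nfi m l n * cM (star U) * nf l' n' := by
    calc _ = nfi m l n * (Γ * (cM (star U) * cM U) * adj Γ) * cM (star U) * nf l' n' := by
          rw [adj_cj]
          simp only [cj, mul_assoc]
      _ = _ := by rw [e1, mul_one, hΓ.unit', mul_one]
  rw [f2] at h2
  refine le_antisymm (Nil_key h.nil h'.nil h1 a b hab) (Nil_key h'.nil h.nil h2 b a ?_)
  rw [Matrix.star_apply]
  exact star_ne_zero.2 hab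
/-- `Γ = (U^* (1 + n)) t^l (g U)`. -/
theorem Cell.fact (hΓ : Loop lab m Γ) (hl : InBox m l) (hU : U ∈ Matrix.unitaryGroup I ℂ)
    (hb : BD lab U) (h : Cell lab m l (cj U Γ) n) : Fact lab l Γ := by
  have e1 : cM (star U) * cM U = 1 := by rw [← cM_mul, hU.1, cM_one]
  have e2 : cM U * cM (star U) = 1 := mul_eq_one_comm.1 e1
  have hΓ' := hΓ.conj hU hb
  refine ⟨cM (star U) * (1 + n), ninv m n * cM U, nfi m l n * cj U Γ * cM U,
    cM (star U) * (adj (cj U Γ) * nf l n), (GeM.const _).mul₀ h.nil.ge_one_add,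
    (h.nil.ge_ninv m).mul₁ (GeM.const _), h.ge₂.mul₁ (GeM.const _), (GeM.const _).mul₀ h.ge₁,
    hb.str.const.mul ((BD.one lab).add h.nil.bd), (h.nil.bd_ninv m).mul hb.const,
    ((h.nil.bd_nfi m).mul hΓ'.bd).mul hb.const, hb.str.const.mul (hΓ'.bd.adjoint.mul h.nil.bd_nf),
    ?_, ?_, ?_⟩
  · rw [mul_assoc, ← mul_assoc (1 + n), h.nil.mul_ninv hl, one_mul, e1]
  · rw [mul_assoc, ← mul_assoc (cM U), e2, one_mul, h.g_mul hΓ' hl]
  · calc Γ = (cM (star U) * cM U) * Γ * (cM (star U) * cM U) := by rw [e1, one_mul, mul_one]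
      _ = cM (star U) * (nf l n * nfi m l n) * cj U Γ * cM U := by
        rw [h.nil.nf_mul_nfi hl, mul_one]
        simp only [cj, mul_assoc]
      _ = _ := by simp only [nf, mul_assoc]
/-- In a block of size one the loop is a monomial. -/
theorem Cell.apply_single (hΓ : Loop lab m Γ) (hl : InBox m l) (h : Cell lab m l Γ n) {a : I}
    (ha : ∀ b, lab b = lab a → b = a) : Γ a a = T (l a) := by
  have hg : BD lab (nfi m l n * Γ) := (h.nil.bd_nfi m).mul hΓ.bd
  have h1 : (nfi m l n * Γ) a a * (adj Γ * nf l n) a a = 1 := by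
    rw [← hg.mul_apply_single _ ha, h.g_mul hΓ hl, Matrix.one_apply_eq]
  obtain ⟨r, hr⟩ := exists_C_of_mul_eq_one (h.ge₂ a a) (h.ge₁ a a) h1
  have h2 : n a a = 0 := LaurentPolynomial.ext fun k => by
    by_contra e
    have := (h.nil a a k e).2
    omega
  have h3 : nf l n a a = T (l a) := by
    rw [nf, mul_tL_apply, Matrix.add_apply, h2, add_zero, Matrix.one_apply_eq, one_mul]
  have h4 : Γ a a = T (l a) * C r := by
    rw [← hr, ← h3, ← h.nil.bd_nf.mul_apply_single _ ha, ← mul_assoc, h.nil.nf_mul_nfi hl, one_mul]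
  have h5 : ev 1 (Γ a a) = 1 := by
    have := congrFun (congrFun hΓ.base a) a
    rwa [Matrix.map_apply, Matrix.one_apply_eq] at this
  rw [h4, map_mul, ev_T, ev_C, Units.val_one, one_zpow, one_mul] at h5
  rw [h4, h5, map_one, mul_one]
/-- The pole condition in the coordinates of the cell. -/
theorem Cell.pole_iff (hΓ : Loop lab m Γ) (hl : InBox m l) (h : Cell lab m l Γ n) (S : LM I) :
    GeM 0 (Γ * S * adj Γ) ↔
      ∀ a b, Ge (l b - l a) (((nfi m l n * Γ) * S * (adj Γ * nf l n)) a b) := by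
  have e : tL l * (nfi m l n * Γ * S * (adj Γ * nf l n)) * tL (-l) =
      ninv m n * (Γ * S * adj Γ) * (1 + n) := by
    calc _ = (tL l * tL (-l)) * (ninv m n * (Γ * S * adj Γ) * (1 + n)) * (tL l * tL (-l)) := by
          simp only [nf, nfi, mul_assoc]
      _ = _ := by rw [tL_mul_neg, one_mul, mul_one]
  have e' : ∀ a b, l b - l a = -l a - (-l) b := fun a b => by rw [Pi.neg_apply]; ring
  simp only [e']
  rw [← geM_tL_conj, e]
  refine ⟨fun h0 => ((h.nil.ge_ninv m).mul₀ h0).mul₁ h.nil.ge_one_add, fun h0 => ?_⟩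
  have h1 := (h.nil.ge_one_add.mul₀ h0).mul₁ (h.nil.ge_ninv m)
  have e2 : (1 + n) * (ninv m n * (Γ * S * adj Γ) * (1 + n)) * ninv m n = Γ * S * adj Γ := by
    calc _ = ((1 + n) * ninv m n) * (Γ * S * adj Γ) * ((1 + n) * ninv m n) := by
          simp only [mul_assoc]
      _ = _ := by rw [h.nil.mul_ninv hl, one_mul, mul_one]
  rwa [e2] at h1

end HS

end Pool.Agent.HK
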