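import Pool.Agent.P.MP_1206ce_ag.ST.QDefs
import Pool.Agent.P.MP_1206ce_ag.ST.Nil
import Pool.Agent.P.MP_1206ce_ag.ST.Cont

/-! The space of triples in terms of Laurent polynomial matrices. -/

open scoped Topology Matrix
open Filter Set LaurentPolynomial

noncomputable section

namespace Pool.Agent.HK

open HS

theorem Om_closed {X : Type} [TopologicalSpace X] {ι : Sort _} {P : ι → X → Prop}
    (h : ∀ i, IsClosed {x | P i x}) : IsClosed {x | ∀ i, P i x} := by
  rw [Set.ofPred_forall]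
  exact isClosed_iInter h

section

variable {I : Type} [Fintype I] [DecidableEq I]

omit [Fintype I] [DecidableEq I] in
theorem Om_cf_sum {ι : Type} (s : Finset ι) (F : ι → LM I) (k : ℤ) :
    cf (∑ i ∈ s, F i) k = ∑ i ∈ s, cf (F i) k := Matrix.ext fun a b => by
  simp only [cf, Matrix.of_apply, Matrix.sum_apply, coeff_sum']

omit [Fintype I] [DecidableEq I] in
theorem Om_cf_mon (n : ℤ) (U : Matrix I I ℂ) (k : ℤ) :
    cf ((T n : LP) • cM U) k = if n = k then U else 0 := Matrix.ext fun a b => by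
  simp only [cf, cM, Matrix.of_apply, Matrix.smul_apply, Matrix.map_apply, smul_eq_mul]
  rw [mul_comm, coeff_CT]
  by_cases h : n = k
  · rw [if_pos h, if_pos h.symm]
  · rw [if_neg h, if_neg (Ne.symm h), Matrix.zero_apply]

omit [Fintype I] [DecidableEq I] in
theorem Om_toL (m : ℕ) (γ : ℤ → Matrix I I ℂ) :
    toL m γ = ∑ k ∈ Finset.Icc (-(m : ℤ)) m, (T k : LP) • cM (γ k) := Matrix.ext fun a b => by
  simp only [toL, cM, Matrix.of_apply, Matrix.sum_apply, Matrix.smul_apply, Matrix.map_apply,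
    smul_eq_mul]
  exact Finset.sum_congr rfl fun k _ => mul_comm _ _

omit [Fintype I] [DecidableEq I] in
theorem Om_adj_toL (m : ℕ) (γ : ℤ → Matrix I I ℂ) :
    adj (toL m γ) = ∑ k ∈ Finset.Icc (-(m : ℤ)) m, (T (-k) : LP) • cM (star (γ k)) :=
  Matrix.ext fun a b => by
    simp only [adj, toL, cM, Matrix.transpose_apply, Matrix.of_apply, Matrix.sum_apply,
      Matrix.smul_apply, Matrix.map_apply, smul_eq_mul, map_sum, map_mul, sL_C, sL_T,
      Matrix.star_apply]
    exact Finset.sum_congr rfl fun k _ => mul_comm _ _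

end

namespace Qv

variable (Q : Qv) {m d : ℕ} {l : Q.Lam} {γ : ℤ → Q.Mat} {p : Q.Tr}

theorem st_single (b : Q.Ix) (h : Q.vb b = Q.vb none) : b = none := by
  cases b with
  | none => rfl
  | some b => simp [vb] at h
theorem st_inBox : l ∈ Q.Box m ↔ InBox m (Q.lv l) := by
  simp only [Box, Fintype.mem_piFinset, Finset.mem_Icc]
  refine ⟨fun h a => ?_, fun h a => h (some a)⟩
  cases a with
  | none => exact ⟨neg_nonpos.2 (Int.natCast_nonneg m), Int.natCast_nonneg m⟩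
  | some a => exact h a
theorem st_evl (m : ℕ) (γ : ℤ → Q.Mat) (z : ℂˣ) : Q.evl m γ z = (toL m γ).map (ev z) :=
  (map_ev_toL m γ z).symm
theorem st_mem_Om : γ ∈ Q.Om m ↔ (∀ k : ℤ, (m : ℤ) < |k| → γ k = 0) ∧
    Loop Q.vb m (toL m γ) ∧ toL m γ none none = 1 := by
  refine and_congr_right fun h1 => ⟨fun ⟨h2, h3, h4, h5⟩ => ?_, fun ⟨h2, h3⟩ => ?_⟩
  · have hb : (toL m γ).map (ev 1) = 1 := by rw [← Q.st_evl, Units.val_one, h5]
    refine ⟨⟨geM_toL m γ, leM_toL m γ, bd_toL h2, eq_of_map_ev fun z hz => ?_, hb⟩, ?_⟩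
    · rw [map_ev_mul, map_ev_adj hz, map_ev_one, ← Q.st_evl]
      exact Matrix.mem_unitaryGroup_iff'.1 (h4 z hz)
    · have h6 : ∀ k, k ≠ 0 → (toL m γ none none).coeff k = 0 := fun k hk => by
        rw [← cf_apply, cf_toL_eq h1, h3 k hk]
      have h7 := eq_C_of_ge_le (f := toL m γ none none) (fun k hk => h6 k hk.ne)
        fun k hk => h6 k hk.ne'
      have h8 := congrFun (congrFun hb none) none
      rw [Matrix.map_apply, h7, ev_C, Matrix.one_apply_eq] at h8
      rw [h7, h8, map_one]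
  · refine ⟨fun k => cf_toL_eq h1 ▸ h2.bd.coef k, fun k hk => ?_, fun z hz => ?_, ?_⟩
    · rw [← cf_toL_eq h1, cf_apply, h3, coeff_one', if_neg hk]
    · have h0 : z ≠ 0 := norm_ne_zero_iff.1 (by rw [hz]; exact one_ne_zero)
      have h4 := Q.st_evl m γ (Units.mk0 z h0)
      rw [Units.val_mk0] at h4
      rw [Matrix.mem_unitaryGroup_iff', h4, ← map_ev_adj (z := Units.mk0 z h0) hz, ← map_ev_mul,
        h2.unit, map_ev_one]
    · rw [← Units.val_one, Q.st_evl, h2.base]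
theorem st_loop (h : γ ∈ Q.Om m) : Loop Q.vb m (toL m γ) := (Q.st_mem_Om.1 h).2.1
theorem st_cf_toL (h : γ ∈ Q.Om m) : cf (toL m γ) = γ := cf_toL_eq h.1
theorem st_cf_mem_Om {Γ : LM Q.Ix} (h : Loop Q.vb m Γ) (h₁ : Γ none none = 1) :
    cf Γ ∈ Q.Om m := by
  rw [st_mem_Om, toL_cf h.ge h.le]
  refine ⟨fun k hk => ?_, h, h₁⟩
  rcases lt_abs.1 hk with h2 | h2
  · exact leM_iff.1 h.le k h2
  · exact geM_iff.1 h.ge k (by omega)
theorem st_isClosed_Om (m : ℕ) : IsClosed (Q.Om m) := by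
  have hc : ∀ z : ℂ, Continuous fun γ : ℤ → Q.Mat => Q.evl m γ z := fun z =>
    continuous_finsetSum _ fun k _ =>
      (continuous_const_smul (z ^ k)).comp (continuous_apply (A := fun _ : ℤ => Q.Mat) k)
  have he : ∀ k a b, Continuous fun γ : ℤ → Q.Mat => γ k a b := fun k a b =>
    (continuous_apply k).matrix_elem a b
  refine IsClosed.and (Om_closed fun k => Om_closed fun _ =>
      isClosed_eq (continuous_apply k) continuous_const)
    (IsClosed.and (Om_closed fun k => Om_closed fun a => Om_closed fun b => Om_closed fun _ =>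
      isClosed_eq (he k a b) continuous_const)
    (IsClosed.and (Om_closed fun k => Om_closed fun _ =>
      isClosed_eq (he k none none) continuous_const)
    (IsClosed.and (Om_closed fun z => Om_closed fun _ => ?_)
      (isClosed_eq (hc 1) continuous_const))))
  simp only [Matrix.mem_unitaryGroup_iff']
  exact isClosed_eq ((hc z).star.mul (hc z)) continuous_const
/-- The constant coefficient of `adj Γ * Γ = 1` bounds all entries by one; Tychonoff. -/
theorem st_isCompact_Om (m : ℕ) : IsCompact (Q.Om m) := by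
  have hK : IsCompact (Set.pi univ fun _ : ℤ => (Set.pi univ fun _ : Q.Ix =>
      Set.pi univ fun _ : Q.Ix => Metric.closedBall (0 : ℂ) 1 : Set Q.Mat)) :=
    isCompact_univ_pi fun _ => isCompact_univ_pi fun _ => isCompact_univ_pi fun _ =>
      isCompact_closedBall _ _
  refine hK.of_isClosed_subset (Q.st_isClosed_Om m) fun γ h k _ a _ b _ => ?_
  rw [mem_closedBall_zero_iff]
  by_cases hk : (m : ℤ) < |k|
  · rw [h.1 k hk]
    simp
  have h1 := congrArg (fun M => cf M 0 b b) (Q.st_loop h).unit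
  have h4 : ∀ z : ℂ, star z * z = ((‖z‖ ^ 2 : ℝ) : ℂ) := fun z => by
    rw [← Complex.normSq_eq_norm_sq, Complex.normSq_eq_conj_mul_self]; rfl
  simp only [cf_one, if_true, Matrix.one_apply_eq] at h1
  rw [cf_mul_sum _ _ (Finset.Icc (-(m : ℤ)) m) fun i hi => by
    rw [cf_adj, Q.st_cf_toL h] at hi
    have h5 : ¬ (m : ℤ) < |-i| := fun h6 => hi (by rw [h.1 _ h6, star_zero])
    rw [abs_neg, not_lt, abs_le] at h5
    exact Finset.mem_Icc.2 h5] at h1
  simp only [cf_adj, Q.st_cf_toL h, zero_sub, Matrix.sum_apply, Matrix.mul_apply,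
    Matrix.star_apply, h4] at h1
  have h2 : ∑ i ∈ Finset.Icc (-(m : ℤ)) m, ∑ x, ‖γ (-i) x b‖ ^ 2 = 1 := by exact_mod_cast h1
  rw [not_lt, abs_le] at hk
  have h3 := Finset.single_le_sum (f := fun i => ∑ x, ‖γ (-i) x b‖ ^ 2)
    (fun i _ => Finset.sum_nonneg fun x _ => sq_nonneg _)
    (Finset.mem_Icc.2 (show -(m : ℤ) ≤ -k ∧ -k ≤ m by omega))
  have h5 := Finset.single_le_sum (f := fun x => ‖γ k x b‖ ^ 2) (fun x _ => sq_nonneg _)
    (Finset.mem_univ a)
  rw [h2, neg_neg] at h3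
  exact (sq_le_one_iff₀ (norm_nonneg _)).1 (h5.trans h3)
theorem Om_cf_tL (l : Q.Lam) : cf (tL (Q.lv l)) = Q.tl l := by
  funext k
  refine Matrix.ext fun a b => ?_
  rw [cf_apply, tL, tl]
  by_cases h : a = b
  · rw [h, Matrix.diagonal_apply_eq, Matrix.diagonal_apply_eq, coeff_T']
    simp only [eq_comm]
  · rw [Matrix.diagonal_apply_ne _ h, Matrix.diagonal_apply_ne _ h, coeff_zero']
theorem st_toL_tl (hl : l ∈ Q.Box m) : toL m (Q.tl l) = tL (Q.lv l) := by
  have h := Q.st_inBox.1 hl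
  rw [← Q.Om_cf_tL, toL_cf (geM_tL fun a => (h a).1) (leM_tL fun a => (h a).2)]
theorem st_tl_mem_Om (hl : l ∈ Q.Box m) : Q.tl l ∈ Q.Om m := by
  rw [← Q.Om_cf_tL]
  refine Q.st_cf_mem_Om (loop_tL _ (Q.st_inBox.1 hl)) ?_
  rw [tL, Matrix.diagonal_apply_eq]
  exact T_zero

theorem Om_coeff_jL (d : ℕ) (s : ℕ → Q.Arr) (h : Fin Q.nA) (a b : Q.Ix) (k : ℤ) :
    (Q.jL d s h a b).coeff k = ∑ i ∈ Finset.range d, if k = (i : ℤ) then s i h a b else 0 := by
  simp only [jL, Matrix.of_apply, coeff_sum', coeff_CT]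
theorem Om_jL (d : ℕ) (s : ℕ → Q.Arr) (h : Fin Q.nA) :
    Q.jL d s h = ∑ i ∈ Finset.range d, (T (i : ℤ) : LP) • cM (s i h) := Matrix.ext fun a b => by
  simp only [jL, cM, Matrix.of_apply, Matrix.sum_apply, Matrix.smul_apply, Matrix.map_apply,
    smul_eq_mul]
  exact Finset.sum_congr rfl fun k _ => mul_comm _ _
theorem Om_isClosed_Jet (d : ℕ) : IsClosed (Q.Jet d) := by
  refine IsClosed.and (Om_closed fun i => Om_closed fun h => Om_closed fun a =>
    Om_closed fun b => ?_) (Om_closed fun i => Om_closed fun _ =>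
      isClosed_eq (continuous_apply i) continuous_const)
  simp only [← not_imp_comm (a := Q.vb a = Q.tgt h ∧ Q.vb b = Q.src h), ne_eq]
  exact Om_closed fun _ => isClosed_eq
    (((continuous_apply h).comp (continuous_apply i)).matrix_elem a b) continuous_const
theorem st_coeff_jL (d : ℕ) (s : ℕ → Q.Arr) (h : Fin Q.nA) (a b : Q.Ix) (i : ℕ) :
    (Q.jL d s h a b).coeff (i : ℤ) = if i < d then s i h a b else 0 := by
  rw [Om_coeff_jL]
  simp only [Nat.cast_inj, Finset.sum_ite_eq, Finset.mem_range]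
theorem st_geM_jL (d : ℕ) (s : ℕ → Q.Arr) (h : Fin Q.nA) : GeM 0 (Q.jL d s h) := fun a b k hk => by
  rw [Om_coeff_jL]
  exact Finset.sum_eq_zero fun i _ => if_neg (by omega)
theorem st_jcut_jL {s : ℕ → Q.Arr} (hs : s ∈ Q.Jet d) : Q.jcut d (Q.jL d s) = s := by
  funext i h
  by_cases hi : i < d
  · refine (if_pos hi).trans (Matrix.ext fun a b => ?_)
    rw [cf_apply, st_coeff_jL, if_pos hi]
  · rw [hs.2 i (not_lt.1 hi)]
    exact if_neg hi
theorem st_jL_jcut {M : Fin Q.nA → LM Q.Ix} (hM : ∀ h, GeM 0 (M h)) (h : Fin Q.nA) :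
    GeM d (M h - Q.jL d (Q.jcut d M) h) := fun a b k hk => by
  rw [Matrix.sub_apply, coeff_sub']
  rcases lt_or_ge k 0 with h0 | h0
  · rw [hM h a b k h0, Q.st_geM_jL d _ h a b k h0, sub_zero]
  · obtain ⟨i, rfl⟩ := Int.eq_ofNat_of_zero_le h0
    have hi : i < d := by exact_mod_cast hk
    rw [st_coeff_jL, if_pos hi, jcut, if_pos hi, cf_apply, sub_self]
theorem st_jcut_congr {M N : Fin Q.nA → LM Q.Ix} (h : ∀ h, GeM d (M h - N h)) :
    Q.jcut d M = Q.jcut d N := by
  funext i x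
  unfold jcut
  split_ifs with hi
  · exact sub_eq_zero.1 ((cf_sub _ _ _).symm.trans (geM_iff.1 (h x) i (by exact_mod_cast hi)))
  · rfl
theorem st_jL_apply_ne {s : ℕ → Q.Arr} (hs : s ∈ Q.Jet d) {h : Fin Q.nA} {a b : Q.Ix}
    (hne : Q.jL d s h a b ≠ 0) : Q.vb a = Q.tgt h ∧ Q.vb b = Q.src h := by
  rw [jL, Matrix.of_apply] at hne
  obtain ⟨i, -, hi⟩ := Finset.exists_ne_zero_of_sum_ne_zero hne
  exact hs.1 i h a b fun h0 => hi (by rw [h0, map_zero, zero_mul])
theorem st_jcut_mem {M : Fin Q.nA → LM Q.Ix}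
    (hM : ∀ h a b, M h a b ≠ 0 → Q.vb a = Q.tgt h ∧ Q.vb b = Q.src h) :
    Q.jcut d M ∈ Q.Jet d := by
  refine ⟨fun i h a b hne => hM h a b fun h0 => hne ?_, fun i hi => funext fun h => ?_⟩
  · unfold jcut
    split_ifs
    · rw [cf_apply, h0, coeff_zero']
    · rfl
  · exact if_neg (not_lt.2 hi)
/-- Block diagonal factors keep the shape of an arrow. -/
theorem st_shape_mul {g g' S : LM Q.Ix} (hg : BD Q.vb g) (hg' : BD Q.vb g') {x y : Option (Fin Q.nI)}
    (hS : ∀ a b, S a b ≠ 0 → Q.vb a = x ∧ Q.vb b = y) :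
    ∀ a b, (g * S * g') a b ≠ 0 → Q.vb a = x ∧ Q.vb b = y := by
  intro a b hne
  rw [Matrix.mul_apply] at hne
  obtain ⟨b', -, h1⟩ := Finset.exists_ne_zero_of_sum_ne_zero hne
  have h0 := left_ne_zero_of_mul h1
  rw [Matrix.mul_apply] at h0
  obtain ⟨a', -, h2⟩ := Finset.exists_ne_zero_of_sum_ne_zero h0
  obtain ⟨h3, h4⟩ := hS a' b' (right_ne_zero_of_mul h2)
  exact ⟨(of_not_not (mt (hg a a') (left_ne_zero_of_mul h2))).trans h3,
    (of_not_not (mt (hg' b' b) (right_ne_zero_of_mul h1))).symm.trans h4⟩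
theorem st_cFam_jL (d : ℕ) (h : Fin Q.nA) : CFam univ fun p : Q.Tr => Q.jL d p.2 h := by
  refine ⟨fun a b k => Continuous.continuousOn ?_, d, fun p _ =>
    ⟨(Q.st_geM_jL d p.2 h).mono (by omega), fun a b k hk => ?_⟩⟩
  · simp only [Om_coeff_jL]
    refine continuous_finsetSum _ fun i _ => ?_
    split_ifs
    · exact ((continuous_apply h).comp ((continuous_apply i).comp continuous_snd)).matrix_elem a b
    · exact continuous_const
  · rw [Om_coeff_jL]
    exact Finset.sum_eq_zero fun i hi => if_neg (by have := Finset.mem_range.1 hi; omega)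
theorem st_lact (m d : ℕ) (p : Q.Tr) (j : ℤ) (h : Fin Q.nA) :
    Q.lact m d p j h = cf (toL m p.1 * Q.jL d p.2 h * adj (toL m p.1)) j := by
  rw [Om_adj_toL, Om_toL, Om_jL, Finset.sum_mul, Finset.sum_mul, Om_cf_sum, lact]
  refine Finset.sum_congr rfl fun a _ => ?_
  rw [Finset.mul_sum, Om_cf_sum]
  refine Finset.sum_congr rfl fun b _ => ?_
  rw [Finset.mul_sum, Finset.sum_mul, Om_cf_sum]
  refine Finset.sum_congr rfl fun i _ => ?_
  rw [smul_mul_smul_comm, smul_mul_smul_comm, ← T_add, ← T_add, ← cM_mul, ← cM_mul, Om_cf_mon,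
    sub_eq_add_neg]
theorem st_mem_RR : p ∈ Q.RR m d ↔ p.1 ∈ Q.Om m ∧ p.2 ∈ Q.Jet d ∧
    ∀ h, GeM 0 (toL m p.1 * Q.jL d p.2 h * adj (toL m p.1)) := by
  refine and_congr_right fun _ => and_congr_right fun _ => ?_
  simp only [geM_iff, ← st_lact]
  exact ⟨fun H h k hk => congrFun (H k hk) h, fun H k hk => funext fun h => H h k hk⟩
theorem st_isClosed_RR (m d : ℕ) : IsClosed (Q.RR m d) := by
  have h1 : CFam univ fun p : Q.Tr => toL m p.1 := cFam_toL m continuous_fst.continuousOn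
  rw [show Q.RR m d = {p | p.1 ∈ Q.Om m ∧ p.2 ∈ Q.Jet d ∧
    ∀ h, GeM 0 (toL m p.1 * Q.jL d p.2 h * adj (toL m p.1))} from Set.ext fun _ => Q.st_mem_RR]
  exact IsClosed.and ((Q.st_isClosed_Om m).preimage continuous_fst)
    (IsClosed.and ((Q.Om_isClosed_Jet d).preimage continuous_snd) (Om_closed fun h =>
      ((h1.mul (Q.st_cFam_jL d h)).mul h1.adjoint).isClosed_geM 0))

end Qv

end Pool.Agent.HK
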