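import Pool.Agent.P.MP_1206ce_ag.BG.Defs
import Pool.Agent.P.MP_1206ce_ag.ST.Defs

/-! Cells of the space of triples and their coordinates: definitions. -/

open scoped Topology Matrix
open Filter Set LaurentPolynomial

noncomputable section

namespace Pool.Agent.HK

open HS

namespace Qv

variable (Q : Qv)

/-- Index set of the basis of `V ⊕ ℂ`. -/
abbrev Ix : Type := Option (Fin Q.nB)
/-- A jet as a polynomial matrix. -/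
def jL (d : ℕ) (s : ℕ → Q.Arr) (h : Fin Q.nA) : LM Q.Ix :=
  Matrix.of fun a b => ∑ i ∈ Finset.range d, C (s i h a b) * T (i : ℤ)
/-- Truncation to a jet. -/
def jcut (d : ℕ) (M : Fin Q.nA → LM Q.Ix) : ℕ → Q.Arr :=
  fun i h => if i < d then cf (M h) i else 0
/-- The flavour character of an element of `K`. -/
def chu (u : Matrix Q.Var Q.Var ℂ) (h : Fin Q.nA) : ℂ :=
  Q.chi (fun a => u (Sum.inr a) (Sum.inr a)) h
/-- The cell of `λ`. -/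
def RCell (m d : ℕ) (l : Q.Lam) : Set Q.Tr :=
  {p | p ∈ Q.RR m d ∧ ∃ n, Cell Q.vb m (Q.lv l) (toL m p.1) n}
/-- The nilpotent matrix with given coordinates. -/
def nOf (l : Q.Lam) (c : ↥(Q.NL l) → ℂ) : LM Q.Ix :=
  Matrix.of fun a b => ∑ q : ↥(Q.NL l),
    if a = some q.1.1.1 ∧ b = some q.1.1.2 then C (c q) * T (q.1.2 : ℤ) else 0
/-- The coordinates of a nilpotent matrix. -/
def coNil (l : Q.Lam) (n : LM Q.Ix) (q : ↥(Q.NL l)) : ℂ :=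
  (n (some q.1.1.1) (some q.1.1.2)).coeff (q.1.2 : ℤ)
/-- The jet with given coordinates. -/
def sOf (l : Q.Lam) (d : ℕ) (c : ↥(Q.PU l d) → ℂ) (h : Fin Q.nA) : LM Q.Ix :=
  Matrix.of fun a b => ∑ q : ↥(Q.PU l d),
    if q.1.1 = (h, a, b) then C (c q) * T (q.1.2 : ℤ) else 0
/-- The coordinates of a jet. -/
def coS (l : Q.Lam) (d : ℕ) (M : Fin Q.nA → LM Q.Ix) (q : ↥(Q.PU l d)) : ℂ :=
  (M q.1.1.1 q.1.1.2.1 q.1.1.2.2).coeff (q.1.2 : ℤ)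
/-- Tuples supported on the positions `PU`. -/
def OnPU (l : Q.Lam) (d : ℕ) (M : Fin Q.nA → LM Q.Ix) : Prop :=
  ∀ h a b k, (M h a b).coeff k ≠ 0 → ∃ i : ℕ, k = i ∧ ((h, a, b), i) ∈ Q.PU l d
/-- The normal form of a loop. -/
def nn (m : ℕ) (l : Q.Lam) (γ : ℤ → Q.Mat) : LM Q.Ix :=
  Classical.epsilon fun n => Cell Q.vb m (Q.lv l) (toL m γ) n
/-- The loop with given normal form. -/
def iwa (m : ℕ) (l : Q.Lam) (c : ↥(Q.NL l) → ℂ) : ℤ → Q.Mat :=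
  Classical.epsilon fun γ => γ ∈ Q.Om m ∧ Cell Q.vb m (Q.lv l) (toL m γ) (Q.nOf l c)
/-- The factor `g` in `γ = (1 + n) t^λ g`. -/
def gg (m : ℕ) (l : Q.Lam) (γ : ℤ → Q.Mat) (n : LM Q.Ix) : LM Q.Ix :=
  nfi m (Q.lv l) n * toL m γ
/-- Its inverse. -/
def gi (m : ℕ) (l : Q.Lam) (γ : ℤ → Q.Mat) (n : LM Q.Ix) : LM Q.Ix :=
  adj (toL m γ) * nf (Q.lv l) n
/-- The coordinates on the cell. -/
def coC (m d : ℕ) (l : Q.Lam) (p : Q.Tr) : ↥(Q.NL l) ⊕ ↥(Q.PU l d) → ℂ :=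
  Sum.elim (Q.coNil l (Q.nn m l p.1)) (Q.coS l d fun h =>
    Q.gg m l p.1 (Q.nn m l p.1) * Q.jL d p.2 h * Q.gi m l p.1 (Q.nn m l p.1))
/-- The parametrisation of the cell. -/
def paC (m d : ℕ) (l : Q.Lam) (c : ↥(Q.NL l) ⊕ ↥(Q.PU l d) → ℂ) : Q.Tr :=
  (Q.iwa m l (c ∘ Sum.inl), Q.jcut d fun h =>
    Q.gi m l (Q.iwa m l (c ∘ Sum.inl)) (Q.nOf l (c ∘ Sum.inl)) * Q.sOf l d (c ∘ Sum.inr) h *
      Q.gg m l (Q.iwa m l (c ∘ Sum.inl)) (Q.nOf l (c ∘ Sum.inl)))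
/-- The action on the coordinates. -/
def rhoC (d : ℕ) (l : Q.Lam) (u : Matrix Q.Var Q.Var ℂ) (c : ↥(Q.NL l) ⊕ ↥(Q.PU l d) → ℂ) :
    ↥(Q.NL l) ⊕ ↥(Q.PU l d) → ℂ :=
  Sum.elim (Q.coNil l (cj (Q.gau u) (Q.nOf l (c ∘ Sum.inl)))) (Q.coS l d fun h =>
    (C (Q.chu u h) : LP) • cj (Q.gau u) (Q.sOf l d (c ∘ Sum.inr) h))

end Qv

end Pool.Agent.HK
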